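import Pool.Agent.KBS.Bar

/-! KBS-Avg. The rational homology of a finite group vanishes in positive degrees.

PLAN. Averaging homotopy `s [t] = (1/|G|) Σ_x [cons x t]`. For `t : Fin (n+1) → G`:
`bd (cons x t) = [t] - [cons (x * t 0) (tail t)] + [cons x (tail t)] - cons_x (bd t)` (from
`Fin.contractNth`), and `Σ_x [cons (x * t 0) (tail t)] = Σ_x [cons x (tail t)]`, hence
`bd (s t) + s (bd t) = t`. So a cycle `z` is `bd (s z)`. `isBd_trivial`: the trivial homomorphism
factors through `Unit` (or `(⊥ : Subgroup H)`), a finite group; use `push_comp` and `IsBd.push'`. -/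

set_option autoImplicit false

namespace Pool.Agent.KBS

private theorem avg_contract_zero {G : Type} [Group G] {n : ℕ} (x : G) (t : Fin (n + 1) → G) :
    Fin.contractNth (0 : Fin (n + 2)) (· * ·) (Fin.cons x t : Fin (n + 2) → G) =
      (Fin.cons (x * t 0) (fun i : Fin n => t i.succ) : Fin (n + 1) → G) := by
  funext k
  refine Fin.cases ?_ (fun k' => ?_) k
  · simp [Fin.contractNth]
  · simp [Fin.contractNth]

private theorem avg_contract_succ {G : Type} [Group G] {n : ℕ} (x : G) (t : Fin (n + 1) → G)
    (j : Fin (n + 1)) :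
    Fin.contractNth j.succ (· * ·) (Fin.cons x t : Fin (n + 2) → G) =
      (Fin.cons x (Fin.contractNth j (· * ·) t) : Fin (n + 1) → G) := by
  funext k
  refine Fin.cases ?_ (fun k' => ?_) k
  · simp [Fin.contractNth]
  · simp [Fin.contractNth, Fin.castSucc_succ]

/-- the linear map `[t] ↦ [cons x t]` -/
private noncomputable def avgCns {G : Type} (n : ℕ) (x : G) : Chain G n →ₗ[ℚ] Chain G (n + 1) :=
  Finsupp.lmapDomain ℚ ℚ fun t : Fin n → G => (Fin.cons x t : Fin (n + 1) → G)

private theorem avgCns_single {G : Type} {n : ℕ} (x : G) (t : Fin n → G) (q : ℚ) :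
    avgCns n x (Finsupp.single t q) =
      Finsupp.single (Fin.cons x t : Fin (n + 1) → G) q :=
  Finsupp.mapDomain_single

private theorem avg_bd_cons {G : Type} [Group G] {n : ℕ} (x : G) (t : Fin (n + 1) → G) :
    bd G (n + 1) (avgCns (n + 1) x (Finsupp.single t 1)) =
      Finsupp.single t 1 -
        Finsupp.single (Fin.cons (x * t 0) (fun i : Fin n => t i.succ) : Fin (n + 1) → G) 1 +
        Finsupp.single (Fin.cons x (fun i : Fin n => t i.succ) : Fin (n + 1) → G) 1 -
        avgCns n x (bd G n (Finsupp.single t 1)) := by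
  rw [avgCns_single, bd_single, bd_single, one_smul, one_smul, Fin.sum_univ_succ,
    avg_contract_zero, map_add, map_sum, avgCns_single]
  have h1 : (fun i : Fin (n + 1) => (Fin.cons x t : Fin (n + 2) → G) i.succ) = t := by
    funext i
    simp
  rw [h1]
  have h2 : ∑ i : Fin (n + 1), (-1 : ℚ) ^ ((i.succ : Fin (n + 2)) : ℕ).succ •
        (Finsupp.single (Fin.contractNth i.succ (· * ·) (Fin.cons x t : Fin (n + 2) → G)) (1 : ℚ) :
          Chain G (n + 1)) =
      - ∑ i : Fin (n + 1), avgCns n x ((-1 : ℚ) ^ ((i : ℕ) + 1) •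
        Finsupp.single (Fin.contractNth i (· * ·) t) (1 : ℚ)) := by
    rw [← Finset.sum_neg_distrib]
    refine Finset.sum_congr rfl fun i _ => ?_
    rw [avg_contract_succ, map_smul, avgCns_single, ← neg_smul]
    congr 1
    simp [pow_succ]
  have h3 : ∀ i : Fin (n + 1), ((i.succ : Fin (n + 2)) : ℕ) + 1 =
      ((i.succ : Fin (n + 2)) : ℕ).succ := fun _ => rfl
  simp only [h3, h2]
  simp only [Fin.val_zero, zero_add, pow_one, neg_smul, one_smul]
  abel

/-- the averaging homotopy -/
private noncomputable def avgHom (G : Type) [Fintype G] (n : ℕ) :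
    Chain G n →ₗ[ℚ] Chain G (n + 1) :=
  (Fintype.card G : ℚ)⁻¹ • ∑ x : G, avgCns n x

private theorem avgHom_apply {G : Type} [Fintype G] {n : ℕ} (c : Chain G n) :
    avgHom G n c = (Fintype.card G : ℚ)⁻¹ • ∑ x : G, avgCns n x c := by
  simp [avgHom]

private theorem avg_homotopy {G : Type} [Group G] [Fintype G] {n : ℕ} (c : Chain G (n + 1)) :
    bd G (n + 1) (avgHom G (n + 1) c) + avgHom G n (bd G n c) = c := by
  induction c using Finsupp.induction_linear with
  | zero => simp
  | add a b ha hb =>
    rw [map_add, map_add, map_add, map_add]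
    conv_rhs => rw [← ha, ← hb]
    abel
  | single t q =>
    have hq : (Finsupp.single t q : Chain G (n + 1)) = q • Finsupp.single t 1 := by
      rw [Finsupp.smul_single, smul_eq_mul, mul_one]
    rw [hq, map_smul, map_smul, map_smul, map_smul, ← smul_add]
    congr 1
    rw [avgHom_apply, avgHom_apply, map_smul, map_sum, ← smul_add, ← Finset.sum_add_distrib]
    have h : ∀ x : G, bd G (n + 1) (avgCns (n + 1) x (Finsupp.single t 1)) +
        avgCns n x (bd G n (Finsupp.single t 1)) =
        Finsupp.single t 1 -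
        Finsupp.single (Fin.cons (x * t 0) (fun i : Fin n => t i.succ) : Fin (n + 1) → G) 1 +
        Finsupp.single (Fin.cons x (fun i : Fin n => t i.succ) : Fin (n + 1) → G) 1 := by
      intro x
      rw [avg_bd_cons]
      abel
    rw [Finset.sum_congr rfl fun x _ => h x, Finset.sum_add_distrib, Finset.sum_sub_distrib]
    have h2 : ∑ x : G, (Finsupp.single
          (Fin.cons (x * t 0) (fun i : Fin n => t i.succ) : Fin (n + 1) → G) 1 : Chain G (n + 1)) =
        ∑ x : G, (Finsupp.single
          (Fin.cons x (fun i : Fin n => t i.succ) : Fin (n + 1) → G) 1 : Chain G (n + 1)) :=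
      Fintype.sum_equiv (Equiv.mulRight (t 0)) _ _ fun x => rfl
    rw [h2, sub_add_cancel, Finset.sum_const, Finset.card_univ, ← Nat.cast_smul_eq_nsmul ℚ,
      smul_smul, inv_mul_cancel₀, one_smul]
    exact Nat.cast_ne_zero.mpr Fintype.card_ne_zero

theorem isBd_of_finite {G : Type} [Group G] [Finite G] {n : ℕ} (z : Chain G (n + 1))
    (hz : bd G n z = 0) : IsBd z := by
  have := Fintype.ofFinite G
  refine ⟨avgHom G (n + 1) z, ?_⟩
  have h := avg_homotopy z
  rwa [hz, map_zero, add_zero] at h

theorem isBd_trivial {G H : Type} [Group G] [Group H] {n : ℕ} (z : Chain G (n + 1))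
    (hz : bd G n z = 0) : IsBd (push (n + 1) (1 : G →* H) z) := by
  have h1 : (1 : G →* H) = (1 : Unit →* H).comp (1 : G →* Unit) := by
    ext g
    simp
  rw [h1, push_comp]
  apply IsBd.push'
  apply isBd_of_finite
  rw [bd_push, hz, map_zero]

end Pool.Agent.KBS
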