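import Mathlib

/-! The rational bar complex of a group: chains, boundary, functoriality, inner automorphisms,
finite groups. -/

set_option autoImplicit false

namespace Pool.Agent.KBS

/-- The rational chains of degree `n` of the bar complex of the group `G`. -/
abbrev Chain (G : Type) (n : ℕ) : Type := (Fin n → G) →₀ ℚ

/-- The boundary of the bar complex,
`[g_0, ..., g_n] ↦ [g_1, ..., g_n] + Σ_j (-1)^(j+1) [..., g_j g_(j+1), ...]`, where the last term
(`j = n`) is `[g_0, ..., g_(n-1)]`. -/
noncomputable def bd (G : Type) [Group G] (n : ℕ) : Chain G (n + 1) →ₗ[ℚ] Chain G n :=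
  Finsupp.linearCombination ℚ fun g : Fin (n + 1) → G =>
    Finsupp.single (fun i : Fin n => g i.succ) (1 : ℚ) +
      ∑ j : Fin (n + 1), (-1 : ℚ) ^ ((j : ℕ) + 1) •
        Finsupp.single (Fin.contractNth j (· * ·) g) (1 : ℚ)

/-- The map on chains induced by a group homomorphism. -/
noncomputable def push {G H : Type} [Group G] [Group H] (n : ℕ) (f : G →* H) :
    Chain G n →ₗ[ℚ] Chain H n :=
  Finsupp.lmapDomain ℚ ℚ fun g i => f (g i)

/-- The chain is a boundary. -/
def IsBd {G : Type} [Group G] {n : ℕ} (c : Chain G n) : Prop := ∃ b : Chain G (n + 1), bd G n b = c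

section

variable {G H K : Type} [Group G] [Group H] [Group K] {n : ℕ}

theorem push_single (f : G →* H) (t : Fin n → G) (q : ℚ) :
    push n f (Finsupp.single t q) = Finsupp.single (fun i => f (t i)) q :=
  Finsupp.mapDomain_single

theorem push_apply (f : G →* H) (c : Chain G n) :
    push n f c = Finsupp.mapDomain (fun g i => f (g i)) c := rfl

theorem push_comp (f : G →* H) (g : H →* K) (c : Chain G n) :
    push n (g.comp f) c = push n g (push n f c) := by
  rw [push_apply, push_apply, push_apply, ← Finsupp.mapDomain_comp]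
  rfl

theorem push_id (c : Chain G n) : push n (MonoidHom.id G) c = c := by
  rw [push_apply]
  exact Finsupp.mapDomain_id

theorem push_injective (f : G →* H) (hf : Function.Injective f) :
    Function.Injective (push n f) := by
  apply Finsupp.mapDomain_injective
  intro s t h
  funext i
  exact hf (congrFun h i)

theorem bd_single (t : Fin (n + 1) → G) (q : ℚ) :
    bd G n (Finsupp.single t q) = q • (Finsupp.single (fun i : Fin n => t i.succ) (1 : ℚ) +
      ∑ j : Fin (n + 1), (-1 : ℚ) ^ ((j : ℕ) + 1) •
        Finsupp.single (Fin.contractNth j (· * ·) t) (1 : ℚ)) :=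
  Finsupp.linearCombination_single ..

theorem contractNth_map (f : G →* H) (t : Fin (n + 1) → G) (j : Fin (n + 1)) :
    (fun i => f (Fin.contractNth j (· * ·) t i)) =
      Fin.contractNth j (· * ·) (fun i => f (t i)) := by
  funext i
  simp only [Fin.contractNth]
  split_ifs <;> simp

theorem bd_push (f : G →* H) (c : Chain G (n + 1)) :
    bd H n (push (n + 1) f c) = push n f (bd G n c) := by
  induction c using Finsupp.induction_linear with
  | zero => simp
  | add a b ha hb => rw [map_add, map_add, map_add, map_add, ha, hb]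
  | single t q =>
    rw [push_single, bd_single, bd_single, map_smul, map_add, map_sum, push_single]
    congr 2
    refine Finset.sum_congr rfl fun j _ => ?_
    rw [map_smul, push_single, contractNth_map]

theorem IsBd.push' {c : Chain G n} (f : G →* H) (h : IsBd c) : IsBd (push n f c) := by
  obtain ⟨b, hb⟩ := h
  exact ⟨push (n + 1) f b, by rw [bd_push, hb]⟩

theorem IsBd.add {c d : Chain G n} (hc : IsBd c) (hd : IsBd d) : IsBd (c + d) := by
  obtain ⟨b, hb⟩ := hc
  obtain ⟨e, he⟩ := hd
  exact ⟨b + e, by rw [map_add, hb, he]⟩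

theorem IsBd.smul {c : Chain G n} (q : ℚ) (hc : IsBd c) : IsBd (q • c) := by
  obtain ⟨b, hb⟩ := hc
  exact ⟨q • b, by rw [map_smul, hb]⟩

theorem IsBd.neg {c : Chain G n} (hc : IsBd c) : IsBd (-c) := by
  obtain ⟨b, hb⟩ := hc
  exact ⟨-b, by rw [map_neg, hb]⟩

theorem IsBd.sub {c d : Chain G n} (hc : IsBd c) (hd : IsBd d) : IsBd (c - d) := by
  rw [sub_eq_add_neg]
  exact hc.add hd.neg

theorem isBd_zero : IsBd (0 : Chain G n) := ⟨0, map_zero _⟩

end

end Pool.Agent.KBS
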