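import Pool.Agent.KBS.Stb
import Pool.Agent.KBS.Avg

/-! KBS-Cls. Functoriality of `Null`, `NullPair`, `IsClass` for `nuMap` (hence for ring
homomorphisms and for cutting by an idempotent). `primDefect` and `weightDefect` commute with
`push (nuMap f)`: `primDefect_push`, `weightDefect_push`. -/

set_option autoImplicit false

open Matrix

namespace Pool.Agent.KBS

variable {ι κ : Type} [Fintype ι] [DecidableEq ι] [Fintype κ] [DecidableEq κ]
variable {R S : Type} [CommRing R] [CommRing S] {n m w : ℕ}

private theorem nuUpper_apply (f : R →ₙ+* S) (g : GL ι R) :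
    nuMap (ι ⊕ κ) f (upper ι κ R g) = upper ι κ S (nuMap ι f g) :=
  DFunLike.congr_fun (nuMap_upper (ι := ι) (κ := κ) f) g

private theorem nuLower_apply (f : R →ₙ+* S) (g : GL κ R) :
    nuMap (ι ⊕ κ) f (lower ι κ R g) = lower ι κ S (nuMap κ f g) :=
  DFunLike.congr_fun (nuMap_lower (ι := ι) (κ := κ) f) g

theorem primDefect_push {G H : Type} [Group G] [Group H] (f : G →* H) (z : Chain G n) :
    primDefect (push n f z) = push n (f.prodMap f) (primDefect z) := by
  have e1 : ((MonoidHom.id H).prod (MonoidHom.id H)).comp f =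
      (f.prodMap f).comp ((MonoidHom.id G).prod (MonoidHom.id G)) := by
    ext g <;> rfl
  have e2 : (MonoidHom.inl H H).comp f = (f.prodMap f).comp (MonoidHom.inl G G) := by
    ext g <;> simp
  have e3 : (MonoidHom.inr H H).comp f = (f.prodMap f).comp (MonoidHom.inr G G) := by
    ext g <;> simp
  unfold primDefect
  rw [map_sub, map_sub, ← push_comp, ← push_comp, ← push_comp, ← push_comp, ← push_comp,
    ← push_comp, e1, e2, e3]

theorem weightDefect_push (f : R →ₙ+* S) (z : Chain (GL (Fin m) R) n) :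
    weightDefect w (push n (nuMap (Fin m) f) z) = push n (nuMap _ f) (weightDefect w z) := by
  have e1 : ((upper (Fin m × Fin m) (Pairs m ⊕ Fin m) S).comp (tensorSq (Fin m) S)).comp
      (nuMap (Fin m) f) = (nuMap _ f).comp
        ((upper (Fin m × Fin m) (Pairs m ⊕ Fin m) R).comp (tensorSq (Fin m) R)) := by
    refine MonoidHom.ext fun g => ?_
    exact ((nuUpper_apply f _).trans (congrArg (upper (Fin m × Fin m) (Pairs m ⊕ Fin m) S)
      (DFunLike.congr_fun (nuMap_tensorSq f) g))).symm
  have e2 : ((lower (Fin m × Fin m) (Pairs m ⊕ Fin m) S).comp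
      ((upper (Pairs m) (Fin m) S).comp (extSq m S))).comp (nuMap (Fin m) f) =
      (nuMap _ f).comp ((lower (Fin m × Fin m) (Pairs m ⊕ Fin m) R).comp
        ((upper (Pairs m) (Fin m) R).comp (extSq m R))) := by
    refine MonoidHom.ext fun g => ?_
    exact ((nuLower_apply f _).trans (congrArg (lower (Fin m × Fin m) (Pairs m ⊕ Fin m) S)
      ((nuUpper_apply f _).trans (congrArg (upper (Pairs m) (Fin m) S)
      (DFunLike.congr_fun (nuMap_extSq m f) g))))).symm
  have e3 : ((lower (Fin m × Fin m) (Pairs m ⊕ Fin m) S).comp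
      (lower (Pairs m) (Fin m) S)).comp (nuMap (Fin m) f) =
      (nuMap _ f).comp ((lower (Fin m × Fin m) (Pairs m ⊕ Fin m) R).comp
        (lower (Pairs m) (Fin m) R)) := by
    refine MonoidHom.ext fun g => ?_
    exact ((nuLower_apply f _).trans (congrArg (lower (Fin m × Fin m) (Pairs m ⊕ Fin m) S)
      (nuLower_apply f g))).symm
  unfold weightDefect
  rw [map_sub, map_sub, map_smul, map_smul, ← push_comp, ← push_comp, ← push_comp, ← push_comp,
    ← push_comp, ← push_comp, e1, e2, e3]

theorem Null.map_nu {z : Chain (GL ι R) n} (h : Null z) (f : R →ₙ+* S) :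
    Null (push n (nuMap ι f) z) := by
  obtain ⟨k, hk⟩ := h
  refine ⟨k, ?_⟩
  rw [← push_comp, ← nuMap_upper, push_comp]
  exact hk.push' _

theorem Null.map_gl {z : Chain (GL ι R) n} (h : Null z) (f : R →+* S) :
    Null (push n (glMap ι f) z) := by
  rw [← nuMap_coe]
  exact h.map_nu _

theorem NullPair.map_nu {z : Chain (GL ι R × GL ι R) n} (h : NullPair z) (f : R →ₙ+* S) :
    NullPair (push n ((nuMap ι f).prodMap (nuMap ι f)) z) := by
  obtain ⟨k, hk⟩ := h
  refine ⟨k, ?_⟩
  have e : ((upper ι (Fin k) S).prodMap (upper ι (Fin k) S)).comp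
      ((nuMap ι f).prodMap (nuMap ι f)) =
      ((nuMap (ι ⊕ Fin k) f).prodMap (nuMap (ι ⊕ Fin k) f)).comp
        ((upper ι (Fin k) R).prodMap (upper ι (Fin k) R)) := by
    refine MonoidHom.ext fun p => ?_
    have h1 := DFunLike.congr_fun (nuMap_upper (ι := ι) (κ := Fin k) f) p.1
    have h2 := DFunLike.congr_fun (nuMap_upper (ι := ι) (κ := Fin k) f) p.2
    exact Prod.ext h1.symm h2.symm
  rw [← push_comp, e, push_comp]
  exact hk.push' _

theorem IsClass.map_nu {z : Chain (GL (Fin m) R) (n + 1)} (h : IsClass w z) (f : R →ₙ+* S) :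
    IsClass w (push (n + 1) (nuMap (Fin m) f) z) := by
  refine ⟨?_, ?_, ?_⟩
  · rw [bd_push, h.cycle, map_zero]
  · rw [primDefect_push]
    exact h.primitive.map_nu f
  · rw [weightDefect_push]
    exact h.weight.map_nu f

theorem IsClass.map_gl {z : Chain (GL (Fin m) R) (n + 1)} (h : IsClass w z) (f : R →+* S) :
    IsClass w (push (n + 1) (glMap (Fin m) f) z) := by
  rw [← nuMap_coe]
  exact h.map_nu _

theorem IsClass.map_cut {z : Chain (GL (Fin m) R) (n + 1)} (h : IsClass w z) (e : R)
    (he : e * e = e) : IsClass w (push (n + 1) (cut (Fin m) e he) z) :=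
  h.map_nu _

/-- over a finite ring every cycle is stably a boundary -/
theorem vanishes_of_finite [Finite R] : Vanishes R n w := by
  intro m z hz
  have : Finite (Matrix (Fin m) (Fin m) R) := inferInstanceAs (Finite (Fin m → Fin m → R))
  exact null_of_isBd (isBd_of_finite z hz.cycle)

end Pool.Agent.KBS
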