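import Pool.Agent.KBS.Bar

/-! KBS-Conj. Inner automorphisms act trivially on homology.

PLAN. Work with tuples `Fin.cons g t`. From `Fin.contractNth` prove the recursion
`bd (cons g t) = [t] - [cons (g * t 0) (tail t)] + [cons g (tail t)] - cons_g (bd t)`
for `t : Fin (n+1) → G` (here `cons_g : Chain G n →ₗ Chain G (n+1)` is `Finsupp.lmapDomain` of
`Fin.cons g`), and `bd [g] = 0` for `n = 0`. Define for `x : G` the linear map
`h x n : Chain G n →ₗ Chain G (n+1)` by recursion on `n`:
`h x 0 [] = [x]`, `h x (n+1) (cons g t) = [cons x (cons g t)] - cons_{x g x⁻¹} (h x n t)`.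
Then by induction on `n`: `bd (h t) + h (bd t) = t - c_x t` for `t` of length `n+1`, where
`c_x = push (MulAut.conj x)` (for length `0`: `bd (h []) = 0`).  For the theorem apply this to
`push f z` (a cycle by `bd_push`). -/

set_option autoImplicit false

namespace Pool.Agent.KBS

section

variable {G : Type} [Group G]

/-- prepend `g` -/
private noncomputable def cnC (g : G) (n : ℕ) : Chain G n →ₗ[ℚ] Chain G (n + 1) :=
  Finsupp.lmapDomain ℚ ℚ fun t : Fin n → G => (Fin.cons g t : Fin (n + 1) → G)

omit [Group G] in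
private theorem cnC_single (g : G) (n : ℕ) (t : Fin n → G) (q : ℚ) :
    cnC g n (Finsupp.single t q) = Finsupp.single (Fin.cons g t : Fin (n + 1) → G) q :=
  Finsupp.mapDomain_single

/-- the boundary of `(g, t)` for `t` of length at least one -/
private theorem bd_cons (g : G) (n : ℕ) (t : Fin (n + 1) → G) :
    bd G (n + 1) (Finsupp.single (Fin.cons g t : Fin (n + 2) → G) (1 : ℚ)) =
      Finsupp.single t 1 - Finsupp.single (Fin.cons (g * t 0) (Fin.tail t) : Fin (n + 1) → G) 1 +
        Finsupp.single (Fin.cons g (Fin.tail t) : Fin (n + 1) → G) 1 -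
        cnC g n (bd G n (Finsupp.single t 1)) := by
  have h0 : Fin.contractNth (0 : Fin (n + 2)) (· * ·) (Fin.cons g t : Fin (n + 2) → G) =
      (Fin.cons (g * t 0) (Fin.tail t) : Fin (n + 1) → G) := by
    funext i
    refine Fin.cases ?_ (fun i => ?_) i
    · rw [Fin.contractNth_apply_of_eq _ _ _ _ (by simp)]
      simp
    · rw [Fin.contractNth_apply_of_gt _ _ _ _ (by simp)]
      simp [Fin.tail]
  have hs : ∀ j : Fin (n + 1), Fin.contractNth j.succ (· * ·) (Fin.cons g t : Fin (n + 2) → G) =
      (Fin.cons g (Fin.contractNth j (· * ·) t) : Fin (n + 1) → G) := by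
    intro j
    funext i
    refine Fin.cases ?_ (fun i => ?_) i
    · rw [Fin.contractNth_apply_of_lt _ _ _ _ (by simp)]
      simp
    · rw [Fin.cons_succ]
      rcases lt_trichotomy (i : ℕ) j with h | h | h
      · rw [Fin.contractNth_apply_of_lt _ _ _ _ h,
          Fin.contractNth_apply_of_lt _ _ _ _ (by simpa using h)]
        rw [← Fin.succ_castSucc, Fin.cons_succ]
      · rw [Fin.contractNth_apply_of_eq _ _ _ _ h,
          Fin.contractNth_apply_of_eq _ _ _ _ (by simpa using h)]
        rw [← Fin.succ_castSucc, Fin.cons_succ, Fin.cons_succ]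
      · rw [Fin.contractNth_apply_of_gt _ _ _ _ h,
          Fin.contractNth_apply_of_gt _ _ _ _ (by simpa using h)]
        rw [Fin.cons_succ]
  rw [bd_single, bd_single, one_smul, one_smul, Fin.sum_univ_succ, h0]
  rw [map_add, map_sum, cnC_single]
  have e1 : (fun i : Fin (n + 1) => (Fin.cons g t : Fin (n + 2) → G) i.succ) = t := by
    funext i
    simp
  have e2 : (fun i : Fin n => t i.succ) = Fin.tail t := rfl
  rw [e1, e2]
  have e3 : ∀ j : Fin (n + 1), (-1 : ℚ) ^ (((j.succ : Fin (n + 2)) : ℕ) + 1) •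
      (Finsupp.single (Fin.contractNth j.succ (· * ·) (Fin.cons g t : Fin (n + 2) → G)) (1 : ℚ) :
        Chain G (n + 1)) =
      -(cnC g n ((-1 : ℚ) ^ ((j : ℕ) + 1) •
        Finsupp.single (Fin.contractNth j (· * ·) t) (1 : ℚ))) := by
    intro j
    rw [map_smul, cnC_single, hs, Fin.val_succ, pow_succ, mul_neg, mul_one, neg_smul]
  rw [Finset.sum_congr rfl fun j _ => e3 j, Finset.sum_neg_distrib]
  simp only [Fin.val_zero, zero_add, pow_one, neg_smul, one_smul]
  abel

/-- drop the first entry -/
private noncomputable def tlC (n : ℕ) : Chain G (n + 1) →ₗ[ℚ] Chain G n :=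
  Finsupp.lmapDomain ℚ ℚ fun t : Fin (n + 1) → G => Fin.tail t

omit [Group G] in
private theorem tlC_single (n : ℕ) (t : Fin (n + 1) → G) (q : ℚ) :
    tlC n (Finsupp.single t q) = Finsupp.single (Fin.tail t) q :=
  Finsupp.mapDomain_single

omit [Group G] in
private theorem tlC_cnC (g : G) (n : ℕ) (c : Chain G n) : tlC n (cnC g n c) = c := by
  induction c using Finsupp.induction_linear with
  | zero => simp
  | add a b ha hb => rw [map_add, map_add, ha, hb]
  | single t q => rw [cnC_single, tlC_single, Fin.tail_cons]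

/-- multiply the first entry by `g` -/
private noncomputable def mfC (g : G) (n : ℕ) : Chain G (n + 1) →ₗ[ℚ] Chain G (n + 1) :=
  Finsupp.lmapDomain ℚ ℚ fun t : Fin (n + 1) → G =>
    (Fin.cons (g * t 0) (Fin.tail t) : Fin (n + 1) → G)

private theorem mfC_single (g : G) (n : ℕ) (t : Fin (n + 1) → G) (q : ℚ) :
    mfC g n (Finsupp.single t q) =
      Finsupp.single (Fin.cons (g * t 0) (Fin.tail t) : Fin (n + 1) → G) q :=
  Finsupp.mapDomain_single

private theorem mfC_cnC (g a : G) (n : ℕ) (c : Chain G n) :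
    mfC g n (cnC a n c) = cnC (g * a) n c := by
  induction c using Finsupp.induction_linear with
  | zero => simp
  | add a b ha hb => rw [map_add, map_add, ha, hb, map_add]
  | single t q => rw [cnC_single, mfC_single, Fin.tail_cons, Fin.cons_zero, cnC_single]

private theorem bd_cnC (g : G) (n : ℕ) (c : Chain G (n + 1)) :
    bd G (n + 1) (cnC g (n + 1) c) =
      c - mfC g n c + cnC g n (tlC n c) - cnC g n (bd G n c) := by
  induction c using Finsupp.induction_linear with
  | zero => simp
  | add a b ha hb =>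
    simp only [map_add, ha, hb]
    abel
  | single t q =>
    have e : (Finsupp.single t q : Chain G (n + 1)) = q • Finsupp.single t 1 := by
      rw [Finsupp.smul_single, smul_eq_mul, mul_one]
    rw [e]
    simp only [map_smul]
    rw [cnC_single, bd_cons, mfC_single, tlC_single, cnC_single, smul_sub, smul_add, smul_sub]

/-- the prism homotopy -/
private noncomputable def hhC (x : G) : (n : ℕ) → Chain G n →ₗ[ℚ] Chain G (n + 1)
  | 0 => cnC x 0
  | n + 1 => Finsupp.linearCombination ℚ fun t : Fin (n + 1) → G =>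
      Finsupp.single (Fin.cons x t : Fin (n + 2) → G) (1 : ℚ) -
        cnC (x * t 0 * x⁻¹) (n + 1) (hhC x n (Finsupp.single (Fin.tail t) 1))

private theorem hhC_single (x : G) (n : ℕ) (t : Fin (n + 1) → G) :
    hhC x (n + 1) (Finsupp.single t 1) =
      Finsupp.single (Fin.cons x t : Fin (n + 2) → G) (1 : ℚ) -
        cnC (x * t 0 * x⁻¹) (n + 1) (hhC x n (Finsupp.single (Fin.tail t) 1)) := by
  rw [hhC, Finsupp.linearCombination_single, one_smul]

private theorem hhC_cnC (x g : G) (n : ℕ) (c : Chain G n) :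
    hhC x (n + 1) (cnC g n c) =
      cnC x (n + 1) (cnC g n c) - cnC (x * g * x⁻¹) (n + 1) (hhC x n c) := by
  induction c using Finsupp.induction_linear with
  | zero => simp
  | add a b ha hb =>
    simp only [map_add, ha, hb]
    abel
  | single t q =>
    have e : (Finsupp.single t q : Chain G n) = q • Finsupp.single t 1 := by
      rw [Finsupp.smul_single, smul_eq_mul, mul_one]
    rw [e]
    simp only [map_smul]
    rw [cnC_single, hhC_single, cnC_single, Fin.tail_cons, Fin.cons_zero, smul_sub]

private theorem bd_zero_single (g : Fin 1 → G) (q : ℚ) : bd G 0 (Finsupp.single g q) = 0 := by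
  rw [bd_single, Fin.sum_univ_succ, Finset.univ_eq_empty, Finset.sum_empty, add_zero]
  simp only [Fin.val_zero, zero_add, pow_one, neg_smul, one_smul]
  have : (fun i : Fin 0 => g i.succ) = Fin.contractNth 0 (· * ·) g := Subsingleton.elim _ _
  rw [this, add_neg_cancel, smul_zero]

private theorem prismC (x : G) : ∀ (n : ℕ) (t : Fin (n + 1) → G),
    bd G (n + 1) (hhC x (n + 1) (Finsupp.single t 1)) + hhC x n (bd G n (Finsupp.single t 1)) =
      Finsupp.single t 1 - Finsupp.single (fun i => x * t i * x⁻¹) 1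
  | 0, t => by
    rw [bd_zero_single, map_zero, add_zero, hhC_single]
    have e0 : hhC x 0 = cnC x 0 := rfl
    rw [e0, map_sub, bd_cons, bd_zero_single, map_zero, sub_zero, cnC_single, cnC_single,
      bd_cons, bd_zero_single, map_zero, sub_zero]
    have e1 : (Fin.cons (x * t 0) (Fin.tail t) : Fin 1 → G) =
        Fin.cons (x * t 0 * x⁻¹ * (Fin.cons x (Fin.tail t) : Fin 1 → G) 0)
          (Fin.tail (Fin.cons x (Fin.tail t) : Fin 1 → G)) := by
      rw [Fin.cons_zero, Fin.tail_cons, inv_mul_cancel_right]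
    have e2 : (fun i => x * t i * x⁻¹) =
        (Fin.cons (x * t 0 * x⁻¹) (Fin.tail (Fin.cons x (Fin.tail t) : Fin 1 → G)) :
          Fin 1 → G) := by
      funext i
      have : i = 0 := Fin.ext (by omega)
      rw [this, Fin.cons_zero]
    rw [e1, e2]
    abel
  | n + 1, t => by
    obtain ⟨g, s, rfl⟩ : ∃ (g : G) (s : Fin (n + 1) → G), t = Fin.cons g s :=
      ⟨t 0, Fin.tail t, (Fin.cons_self_tail t).symm⟩
    have ih := prismC x n s
    have ih' : bd G (n + 1) (hhC x (n + 1) (Finsupp.single s 1)) =
        Finsupp.single s 1 - Finsupp.single (fun i => x * s i * x⁻¹) 1 -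
          hhC x n (bd G n (Finsupp.single s 1)) := eq_sub_of_add_eq ih
    have hc : (fun i => x * (Fin.cons g s : Fin (n + 2) → G) i * x⁻¹) =
        (Fin.cons (x * g * x⁻¹) (fun i => x * s i * x⁻¹) : Fin (n + 2) → G) := by
      funext i
      refine Fin.cases ?_ (fun i => ?_) i
      · simp
      · simp
    have hcs : (Finsupp.single (Fin.cons g s : Fin (n + 2) → G) (1 : ℚ)) =
        cnC g (n + 1) (Finsupp.single s 1) := (cnC_single g (n + 1) s 1).symm
    have hss : (Finsupp.single s (1 : ℚ)) = cnC (s 0) n (Finsupp.single (Fin.tail s) 1) := by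
      rw [cnC_single, Fin.cons_self_tail]
    have hsc : (Finsupp.single (Fin.cons (x * g * x⁻¹) (fun i => x * s i * x⁻¹) :
        Fin (n + 2) → G) (1 : ℚ)) =
        cnC (x * g * x⁻¹) (n + 1) (Finsupp.single (fun i => x * s i * x⁻¹) 1) :=
      (cnC_single _ _ _ _).symm
    have hgx : x * g * x⁻¹ * x = x * g := inv_mul_cancel_right _ _
    have hgs : x * g * x⁻¹ * (x * s 0 * x⁻¹) = x * (g * s 0) * x⁻¹ := by group
    rw [hc, hsc, hcs, hhC_cnC, map_sub, bd_cnC x, bd_cnC (x * g * x⁻¹), bd_cnC g, ih']
    rw [map_sub (hhC x (n + 1)), map_add (hhC x (n + 1)), map_sub (hhC x (n + 1))]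
    rw [hhC_cnC x g, hhC_cnC x g]
    rw [hhC_single x n s]
    set u := hhC x n (Finsupp.single (Fin.tail s) 1) with hu
    set b := bd G n (Finsupp.single s 1) with hb
    have k1 : mfC g n (Finsupp.single s 1) = cnC (g * s 0) n (Finsupp.single (Fin.tail s) 1) := by
      rw [mfC_single, cnC_single]
    have k2 : tlC n (Finsupp.single s (1 : ℚ)) = Finsupp.single (Fin.tail s) 1 := by
      rw [tlC_single]
    have k3 : (Finsupp.single (Fin.cons x s : Fin (n + 2) → G) (1 : ℚ)) =
        cnC x (n + 1) (Finsupp.single s 1) := (cnC_single _ _ _ _).symm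
    rw [k1, k2, k3, hhC_cnC x (g * s 0), ← hu]
    simp only [map_sub, map_add, mfC_cnC, tlC_cnC, hgx, hgs]
    abel

private theorem prism_gen (x : G) (n : ℕ) (c : Chain G (n + 1)) :
    bd G (n + 1) (hhC x (n + 1) c) + hhC x n (bd G n c) =
      c - push (n + 1) (MulAut.conj x).toMonoidHom c := by
  induction c using Finsupp.induction_linear with
  | zero => simp
  | add a b ha hb =>
    simp only [map_add]
    rw [add_add_add_comm, ha, hb]
    abel
  | single t q =>
    have e : (Finsupp.single t q : Chain G (n + 1)) = q • Finsupp.single t 1 := by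
      rw [Finsupp.smul_single, smul_eq_mul, mul_one]
    rw [e]
    simp only [map_smul]
    rw [← smul_add, prismC, push_single, smul_sub]
    rfl

end

theorem isBd_conj {G H : Type} [Group G] [Group H] {n : ℕ} (f f' : G →* H) (x : H)
    (h : ∀ g, f' g = x * f g * x⁻¹) (z : Chain G (n + 1)) (hz : bd G n z = 0) :
    IsBd (push (n + 1) f z - push (n + 1) f' z) := by
  have hf : f' = (MulAut.conj x).toMonoidHom.comp f := by
    ext g
    rw [h g]
    rfl
  refine ⟨hhC x (n + 1) (push (n + 1) f z), ?_⟩
  have h1 := prism_gen x n (push (n + 1) f z)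
  rw [bd_push, hz, map_zero, map_zero, add_zero] at h1
  rw [h1, hf, push_comp]

end Pool.Agent.KBS
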