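import Mathlib

/-! The matrix of minors of size two is multiplicative. -/

set_option autoImplicit false

open Matrix

namespace Pool.Agent.KBS

/-- the pairs `i < j` below `m` -/
abbrev Pairs (m : ℕ) : Type := {p : Fin m × Fin m // p.1 < p.2}

variable {R : Type} [CommRing R]

/-- the matrix of all minors of size two -/
def minors {m : ℕ} (a : Matrix (Fin m) (Fin m) R) : Matrix (Pairs m) (Pairs m) R :=
  Matrix.of fun p q => a p.1.1 q.1.1 * a p.1.2 q.1.2 - a p.1.1 q.1.2 * a p.1.2 q.1.1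

theorem minors_one (m : ℕ) : minors (1 : Matrix (Fin m) (Fin m) R) = 1 := by
  ext ⟨⟨i, j⟩, hij⟩ ⟨⟨k, l⟩, hkl⟩
  simp only [minors, Matrix.of_apply, Matrix.one_apply, Subtype.mk.injEq, Prod.mk.injEq]
  simp only at hij hkl
  by_cases h1 : i = k
  · by_cases h2 : j = l
    · subst h1; subst h2
      simp [hij.ne]
    · subst h1
      have h3 : i ≠ l := hkl.ne
      simp [h2, h3]
  · have h4 : ¬ (i = l ∧ j = k) := by
      rintro ⟨rfl, rfl⟩
      exact absurd hij (not_lt.2 hkl.le)
    by_cases h5 : i = l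
    · have h6 : j ≠ k := fun h => h4 ⟨h5, h⟩
      simp [h1, h6]
    · simp [h1, h5]

theorem sum_pairs {m : ℕ} (f : Fin m × Fin m → R) (hf : ∀ i, f (i, i) = 0) :
    ∑ x, f x = ∑ x : Pairs m, (f x.1 + f x.1.swap) := by
  classical
  have h1 : ∑ x, f x = ∑ x ∈ Finset.univ.filter (fun x : Fin m × Fin m => x.1 < x.2), f x +
      ∑ x ∈ Finset.univ.filter (fun x : Fin m × Fin m => ¬ x.1 < x.2), f x :=
    (Finset.sum_filter_add_sum_filter_not _ _ _).symm
  have h2 : ∑ x ∈ Finset.univ.filter (fun x : Fin m × Fin m => ¬ x.1 < x.2), f x =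
      ∑ x ∈ Finset.univ.filter (fun x : Fin m × Fin m => x.2 < x.1), f x := by
    symm
    apply Finset.sum_subset
    · intro x hx
      rw [Finset.mem_filter] at hx ⊢
      exact ⟨hx.1, not_lt.2 hx.2.le⟩
    · intro x hx hx'
      rw [Finset.mem_filter] at hx hx'
      have h3 : x.1 = x.2 := by
        apply le_antisymm
        · by_contra h
          exact hx' ⟨hx.1, not_le.1 h⟩
        · exact not_lt.1 hx.2
      have h4 : x = (x.1, x.1) := by
        ext
        · rfl
        · simp [h3]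
      rw [h4, hf]
  have h5 : ∑ x ∈ Finset.univ.filter (fun x : Fin m × Fin m => x.2 < x.1), f x =
      ∑ x ∈ Finset.univ.filter (fun x : Fin m × Fin m => x.1 < x.2), f x.swap := by
    refine Finset.sum_bij' (fun x _ => x.swap) (fun x _ => x.swap) ?_ ?_ ?_ ?_ ?_
    · intro x hx
      rw [Finset.mem_filter] at hx ⊢
      exact ⟨Finset.mem_univ _, hx.2⟩
    · intro x hx
      rw [Finset.mem_filter] at hx ⊢
      exact ⟨Finset.mem_univ _, hx.2⟩
    · intro x _; simp
    · intro x _; simp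
    · intro x _; simp
  rw [h1, h2, h5, ← Finset.sum_add_distrib]
  rw [Finset.sum_subtype (p := fun x : Fin m × Fin m => x.1 < x.2) _ (fun x => by simp)]

theorem minors_mul {m : ℕ} (a b : Matrix (Fin m) (Fin m) R) :
    minors (a * b) = minors a * minors b := by
  ext ⟨⟨i, j⟩, hij⟩ ⟨⟨k, l⟩, hkl⟩
  have h1 : (minors a * minors b) ⟨(i, j), hij⟩ ⟨(k, l), hkl⟩ =
      ∑ x : Pairs m, (a i x.1.1 * a j x.1.2 - a i x.1.2 * a j x.1.1) *
        (b x.1.1 k * b x.1.2 l - b x.1.1 l * b x.1.2 k) := by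
    rw [Matrix.mul_apply]
    rfl
  have h2 : minors (a * b) ⟨(i, j), hij⟩ ⟨(k, l), hkl⟩ =
      ∑ x : Fin m × Fin m, a i x.1 * a j x.2 * (b x.1 k * b x.2 l - b x.1 l * b x.2 k) := by
    simp only [minors, Matrix.of_apply, Matrix.mul_apply, Finset.sum_mul_sum]
    rw [Fintype.sum_prod_type, ← Finset.sum_sub_distrib]
    refine Finset.sum_congr rfl fun r _ => ?_
    rw [← Finset.sum_sub_distrib]
    refine Finset.sum_congr rfl fun s _ => ?_
    ring
  rw [h1, h2, sum_pairs]
  · refine Finset.sum_congr rfl fun x _ => ?_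
    simp only [Prod.fst_swap, Prod.snd_swap]
    ring
  · intro r
    ring

end Pool.Agent.KBS
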