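import Pool.Agent.KBS.Bar
import Pool.Agent.KBS.Minors

/-! Rational algebraic K-theory with its weights, in terms of the homology of the general linear
groups: `K_n(R)_ℚ` is the space of primitive elements of `H_n(GL(R); ℚ)` (Milnor-Moore), and its
part of weight `w` is the eigenspace of `ψ² = (λ¹)² - 2 λ²` for the eigenvalue `2^w`. -/

set_option autoImplicit false

open Matrix

namespace Pool.Agent.KBS

section Mat

variable {ι κ : Type} [Fintype ι] [DecidableEq ι] [Fintype κ] [DecidableEq κ]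
variable {R : Type} [CommRing R]

/-- `(a, b) ↦ diag(a, b)` -/
def blockHom (ι κ R : Type) [Fintype ι] [DecidableEq ι] [Fintype κ] [DecidableEq κ] [CommRing R] :
    Matrix ι ι R × Matrix κ κ R →* Matrix (ι ⊕ κ) (ι ⊕ κ) R where
  toFun p := Matrix.fromBlocks p.1 0 0 p.2
  map_one' := Matrix.fromBlocks_one
  map_mul' p q := by simp [Matrix.fromBlocks_multiply]

/-- `(g, h) ↦ diag(g, h)` for invertible matrices -/
def blk (ι κ R : Type) [Fintype ι] [DecidableEq ι] [Fintype κ] [DecidableEq κ] [CommRing R] :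
    GL ι R × GL κ R →* GL (ι ⊕ κ) R :=
  (Units.map (blockHom ι κ R)).comp (MulEquiv.prodUnits.symm : _ ≃* _).toMonoidHom

/-- `g ↦ diag(g, 1)` -/
def upper (ι κ R : Type) [Fintype ι] [DecidableEq ι] [Fintype κ] [DecidableEq κ] [CommRing R] :
    GL ι R →* GL (ι ⊕ κ) R :=
  (blk ι κ R).comp (MonoidHom.inl _ _)

/-- `g ↦ diag(1, g)` -/
def lower (ι κ R : Type) [Fintype ι] [DecidableEq ι] [Fintype κ] [DecidableEq κ] [CommRing R] :
    GL κ R →* GL (ι ⊕ κ) R :=
  (blk ι κ R).comp (MonoidHom.inr _ _)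

/-- `g ↦ g ⊗ g`, the action on `V ⊗ V` -/
def tensorSq (ι R : Type) [Fintype ι] [DecidableEq ι] [CommRing R] : GL ι R →* GL (ι × ι) R :=
  Units.map
    { toFun := fun a => Matrix.kroneckerMap (· * ·) a a
      map_one' := by simp
      map_mul' := fun a b => Matrix.mul_kronecker_mul a b a b }

/-- `g ↦ Λ² g`, the action on `Λ² V` in the basis `e_i ∧ e_j`, `i < j` -/
def extSq (m : ℕ) (R : Type) [CommRing R] : GL (Fin m) R →* GL (Pairs m) R :=
  Units.map
    { toFun := minors
      map_one' := minors_one m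
      map_mul' := minors_mul }

/-- the map `GL_ι(R) → GL_ι(S)` induced by a ring homomorphism -/
abbrev glMap {R S : Type} [CommRing R] [CommRing S] (ι : Type) [Fintype ι] [DecidableEq ι]
    (f : R →+* S) : GL ι R →* GL ι S :=
  Matrix.GeneralLinearGroup.map f

end Mat

/-- A chain of `GL_ι(R)` is stably a boundary, i.e. its image in the chains of
`GL(R) = ⋃ GL_m(R)` is a boundary. -/
def Null {ι R : Type} [Fintype ι] [DecidableEq ι] [CommRing R] {n : ℕ}
    (z : Chain (GL ι R) n) : Prop :=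
  ∃ k : ℕ, IsBd (push n (upper ι (Fin k) R) z)

/-- A chain of `GL_ι(R) × GL_ι(R)` is a boundary in `GL(R) × GL(R)`. -/
def NullPair {ι R : Type} [Fintype ι] [DecidableEq ι] [CommRing R] {n : ℕ}
    (z : Chain (GL ι R × GL ι R) n) : Prop :=
  ∃ k : ℕ, IsBd (push n ((upper ι (Fin k) R).prodMap (upper ι (Fin k) R)) z)

/-- The defect `Δ_* z - z × 1 - 1 × z` of primitivity. -/
noncomputable def primDefect {G : Type} [Group G] {n : ℕ} (z : Chain G n) : Chain (G × G) n :=
  push n ((MonoidHom.id G).prod (MonoidHom.id G)) z - push n (MonoidHom.inl G G) z -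
    push n (MonoidHom.inr G G) z

/-- `ψ² z - 2^w z`, where `ψ² z = (V ⊗ V)_* z - 2 (Λ² V)_* z`; the three terms are put into
different diagonal blocks. -/
noncomputable def weightDefect {R : Type} [CommRing R] {m n : ℕ} (w : ℕ)
    (z : Chain (GL (Fin m) R) n) :
    Chain (GL ((Fin m × Fin m) ⊕ (Pairs m ⊕ Fin m)) R) n :=
  push n ((upper _ _ R).comp (tensorSq (Fin m) R)) z -
    (2 : ℚ) • push n ((lower _ _ R).comp ((upper _ _ R).comp (extSq m R))) z -
    (2 : ℚ) ^ w • push n ((lower _ _ R).comp (lower _ _ R)) z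

/-- `z` is a cycle of degree `n + 1` of `GL_m(R)` whose class in `H_(n+1)(GL(R); ℚ)` is primitive
and of weight `w`, i.e. a class in `K_(n+1)(R)_ℚ^(w)`. -/
structure IsClass {R : Type} [CommRing R] {m n : ℕ} (w : ℕ) (z : Chain (GL (Fin m) R) (n + 1)) :
    Prop where
  cycle : bd (GL (Fin m) R) n z = 0
  primitive : NullPair (primDefect z)
  weight : Null (weightDefect w z)

/-- `K_(n+1)(R)_ℚ^(w) = 0` -/
def Vanishes (R : Type) [CommRing R] (n w : ℕ) : Prop :=
  ∀ (m : ℕ) (z : Chain (GL (Fin m) R) (n + 1)), IsClass w z → Null z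

/-- The representatives of the elements of `K_(n+1)(R)_ℚ^(w)`. -/
abbrev KRep (R : Type) [CommRing R] (n w : ℕ) : Type :=
  Σ m : ℕ, {z : Chain (GL (Fin m) R) (n + 1) // IsClass w z}

/-- Two representatives have the same class in `H_(n+1)(GL(R); ℚ)`. -/
def SameClass {R : Type} [CommRing R] {n w : ℕ} (x y : KRep R n w) : Prop :=
  Null (push (n + 1) (upper (Fin x.1) (Fin y.1) R) x.2.1 -
    push (n + 1) (lower (Fin x.1) (Fin y.1) R) y.2.1)

/-- `K_(n+1)(R)_ℚ^(w)` has fewer than continuum many elements (for a rational vector space: its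
dimension is less than the continuum). -/
def Small (R : Type) [CommRing R] (n w : ℕ) : Prop :=
  Cardinal.mk (Quot (SameClass (R := R) (n := n) (w := w))) < Cardinal.continuum

/-- The chain has at most `N` terms, with coefficients of height at most `N`. -/
def Bdd {G : Type} {n : ℕ} (N : ℕ) (c : Chain G n) : Prop :=
  c.support.card ≤ N ∧ ∀ t, |(c t).num| ≤ N ∧ (c t).den ≤ N

/-- `z` represents an element of `K_(n+1)(R)_ℚ^(w)`, and all the data which show this have size at
most `N`. -/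
structure IsClassLE {R : Type} [CommRing R] {m n : ℕ} (N w : ℕ)
    (z : Chain (GL (Fin m) R) (n + 1)) : Prop where
  size : m ≤ N
  bdd : Bdd N z
  cycle : bd (GL (Fin m) R) n z = 0
  primitive : ∃ k ≤ N, ∃ b : Chain (GL (Fin m ⊕ Fin k) R × GL (Fin m ⊕ Fin k) R) (n + 2),
    Bdd N b ∧ bd _ (n + 1) b = push (n + 1)
      ((upper (Fin m) (Fin k) R).prodMap (upper (Fin m) (Fin k) R)) (primDefect z)
  weight : ∃ k ≤ N, ∃ b : Chain (GL (((Fin m × Fin m) ⊕ (Pairs m ⊕ Fin m)) ⊕ Fin k) R) (n + 2),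
    Bdd N b ∧ bd _ (n + 1) b = push (n + 1) (upper _ (Fin k) R) (weightDefect w z)

/-- `z` bounds a chain of size at most `M` in `GL_(m+k)(R)`, `k ≤ M`. -/
def FillLE {R : Type} [CommRing R] {m n : ℕ} (M : ℕ) (z : Chain (GL (Fin m) R) n) : Prop :=
  ∃ k ≤ M, ∃ b : Chain (GL (Fin m ⊕ Fin k) R) (n + 1),
    Bdd M b ∧ bd _ n b = push n (upper (Fin m) (Fin k) R) z

/-- Uniform filling over the prime fields: for every `N` there is `M` such that for every prime
`p` each element of `K_(n+1)(𝔽_p)_ℚ^(w)` given by data of size at most `N` bounds a chain of size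
at most `M`. -/
def Uniform (n w : ℕ) : Prop :=
  ∀ N : ℕ, ∃ M : ℕ, ∀ (p : ℕ) (_ : Fact p.Prime) (m : ℕ) (z : Chain (GL (Fin m) (ZMod p)) (n + 1)),
    IsClassLE N w z → FillLE M z

/-- Uniform filling over the algebraic closures of infinitely many prime fields. -/
def UniformClosure (n w : ℕ) : Prop :=
  ∀ N : ℕ, ∃ M : ℕ, ∀ q : ℕ, ∃ (p : ℕ) (_ : Fact p.Prime), q ≤ p ∧
    ∀ (m : ℕ) (z : Chain (GL (Fin m) (AlgebraicClosure (ZMod p))) (n + 1)),
      IsClassLE N w z → FillLE M z

/-- all algebraically closed extension data: `K` has infinite transcendence degree over `ℚ` -/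
def InfiniteTrdeg (K : Type) [Field K] [CharZero K] : Prop :=
  ∃ x : ℕ → K, AlgebraicIndependent ℚ x

end Pool.Agent.KBS
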