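import Pool.Agent.KBS.Cls

/-! KBS-Dsc. Descent of finitely many data to finitely generated subrings.

PLAN. An element of `GL ι L` with the entries of `g` and of `g⁻¹` in a subring `B` comes from
`GL ι B`. A chain (or a chain of a pair group) has finite support, so there is a finite set `S` of
entries such that over every subring `B ⊇ S` it is the push of a chain over `B`. For `IsClass`
apply this to `z` and to the two filling chains, and use that `push (glMap B.subtype)` is injective
(`push_injective`, `glMap_injective`) to get the equations over `B`. -/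

set_option autoImplicit false

open Matrix

namespace Pool.Agent.KBS

variable {ι : Type} [Fintype ι] [DecidableEq ι]

private theorem dsc_el {L : Type} [CommRing L] (g : GL ι L) :
    ∃ S : Finset L, ∀ B : Subring L, (S : Set L) ⊆ B →
      ∃ g' : GL ι B, glMap ι B.subtype g' = g := by
  classical
  refine ⟨(Finset.univ.image fun p : ι × ι => (g : Matrix ι ι L) p.1 p.2) ∪
     (Finset.univ.image fun p : ι × ι => ((g⁻¹ : GL ι L) : Matrix ι ι L) p.1 p.2),
     fun B hB => ?_⟩
  have h1 : ∀ i j, (g : Matrix ι ι L) i j ∈ B := by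
    intro i j
    apply hB
    rw [Finset.coe_union]
    left
    rw [Finset.mem_coe, Finset.mem_image]
    exact ⟨(i, j), Finset.mem_univ _, rfl⟩
  have h2 : ∀ i j, ((g⁻¹ : GL ι L) : Matrix ι ι L) i j ∈ B := by
    intro i j
    apply hB
    rw [Finset.coe_union]
    right
    rw [Finset.mem_coe, Finset.mem_image]
    exact ⟨(i, j), Finset.mem_univ _, rfl⟩
  let a : Matrix ι ι B := Matrix.of fun i j => ⟨_, h1 i j⟩
  let b : Matrix ι ι B := Matrix.of fun i j => ⟨_, h2 i j⟩
  have ha : a.map B.subtype = (g : Matrix ι ι L) := by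
    ext i j
    rfl
  have hb : b.map B.subtype = ((g⁻¹ : GL ι L) : Matrix ι ι L) := by
    ext i j
    rfl
  have hinj : Function.Injective (fun M : Matrix ι ι B => M.map B.subtype) :=
    Matrix.map_injective Subtype.val_injective
  have hone : (1 : Matrix ι ι B).map B.subtype = 1 :=
    Matrix.map_one _ (map_zero _) (map_one _)
  have hab : a * b = 1 := by
    apply hinj
    change (a * b).map B.subtype = (1 : Matrix ι ι B).map B.subtype
    rw [Matrix.map_mul, ha, hb, hone]
    exact g.mul_inv
  have hba : b * a = 1 := by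
    apply hinj
    change (b * a).map B.subtype = (1 : Matrix ι ι B).map B.subtype
    rw [Matrix.map_mul, ha, hb, hone]
    exact g.inv_mul
  refine ⟨⟨a, b, hab, hba⟩, ?_⟩
  apply Units.ext
  ext i j
  rfl

private theorem dsc_gen {L G : Type} [CommRing L] [Group G] (H : Subring L → Type)
    [∀ B, Group (H B)] (f : ∀ B, H B →* G)
    (hel : ∀ g : G, ∃ S : Finset L, ∀ B : Subring L, (S : Set L) ⊆ B → ∃ g', f B g' = g)
    {n : ℕ} (z : Chain G n) :
    ∃ S : Finset L, ∀ B : Subring L, (S : Set L) ⊆ B →
      ∃ zB : Chain (H B) n, push n (f B) zB = z := by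
  classical
  induction z using Finsupp.induction_linear with
  | zero => exact ⟨∅, fun B _ => ⟨0, map_zero _⟩⟩
  | add a b ha hb =>
    obtain ⟨S, hS⟩ := ha
    obtain ⟨T, hT⟩ := hb
    refine ⟨S ∪ T, fun B hB => ?_⟩
    rw [Finset.coe_union, Set.union_subset_iff] at hB
    obtain ⟨x, hx⟩ := hS B hB.1
    obtain ⟨y, hy⟩ := hT B hB.2
    exact ⟨x + y, by rw [map_add, hx, hy]⟩
  | single t q =>
    choose S hS using fun i : Fin n => hel (t i)
    refine ⟨Finset.univ.biUnion S, fun B hB => ?_⟩
    have hB' : ∀ i, (S i : Set L) ⊆ B := by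
      intro i x hx
      apply hB
      rw [Finset.mem_coe, Finset.mem_biUnion]
      exact ⟨i, Finset.mem_univ _, hx⟩
    choose g' hg' using fun i : Fin n => hS i B (hB' i)
    refine ⟨Finsupp.single g' q, ?_⟩
    rw [push_single]
    congr 1
    funext i
    exact hg' i

theorem exists_chain_descent {L : Type} [CommRing L] {n : ℕ} (z : Chain (GL ι L) n) :
    ∃ S : Finset L, ∀ B : Subring L, (S : Set L) ⊆ B →
      ∃ zB : Chain (GL ι B) n, push n (glMap ι B.subtype) zB = z :=
  dsc_gen (fun B : Subring L => GL ι B) (fun B => glMap ι B.subtype) dsc_el z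

theorem exists_chain_descent_pair {L : Type} [CommRing L] {n : ℕ}
    (z : Chain (GL ι L × GL ι L) n) :
    ∃ S : Finset L, ∀ B : Subring L, (S : Set L) ⊆ B →
      ∃ zB : Chain (GL ι B × GL ι B) n,
        push n ((glMap ι B.subtype).prodMap (glMap ι B.subtype)) zB = z := by
  classical
  refine dsc_gen (fun B : Subring L => GL ι B × GL ι B)
    (fun B => (glMap ι B.subtype).prodMap (glMap ι B.subtype)) ?_ z
  rintro ⟨g, h⟩
  obtain ⟨S, hS⟩ := dsc_el g
  obtain ⟨T, hT⟩ := dsc_el h
  refine ⟨S ∪ T, fun B hB => ?_⟩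
  rw [Finset.coe_union, Set.union_subset_iff] at hB
  obtain ⟨x, hx⟩ := hS B hB.1
  obtain ⟨y, hy⟩ := hT B hB.2
  exact ⟨(x, y), by rw [MonoidHom.prodMap_def]; exact Prod.ext hx hy⟩

private theorem dsc_inj {R S : Type} [CommRing R] [CommRing S] (f : R →+* S)
    (hf : Function.Injective f) {n : ℕ} : Function.Injective (push n (glMap ι f)) :=
  push_injective _ (glMap_injective f hf)

private theorem dsc_inj_pair {R S : Type} [CommRing R] [CommRing S] (f : R →+* S)
    (hf : Function.Injective f) {n : ℕ} :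
    Function.Injective (push n ((glMap ι f).prodMap (glMap ι f))) := by
  apply push_injective
  rintro ⟨a, b⟩ ⟨c, d⟩ h
  have h1 : glMap ι f a = glMap ι f c := congrArg Prod.fst h
  have h2 : glMap ι f b = glMap ι f d := congrArg Prod.snd h
  exact Prod.ext (glMap_injective f hf h1) (glMap_injective f hf h2)

private theorem dsc_prod {G H K : Type} [Group G] [Group H] [Group K] (f : G →* H) (g : H →* K) :
    (g.prodMap g).comp (f.prodMap f) = (g.comp f).prodMap (g.comp f) := rfl

private theorem dsc_weight {R S : Type} [CommRing R] [CommRing S] (f : R →+* S) {m n w : ℕ}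
    (z : Chain (GL (Fin m) R) n) :
    weightDefect w (push n (glMap (Fin m) f) z) = push n (glMap _ f) (weightDefect w z) := by
  have h := weightDefect_push (w := w) (f : R →ₙ+* S) z
  rw [nuMap_coe, nuMap_coe] at h
  exact h

theorem exists_isClass_descent {L : Type} [CommRing L] {m n w : ℕ}
    (z : Chain (GL (Fin m) L) (n + 1)) (h : IsClass w z) :
    ∃ S : Finset L, ∀ B : Subring L, (S : Set L) ⊆ B →
      ∃ zB : Chain (GL (Fin m) B) (n + 1),
        push (n + 1) (glMap (Fin m) B.subtype) zB = z ∧ IsClass w zB := by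
  classical
  obtain ⟨S0, hS0⟩ := exists_chain_descent z
  obtain ⟨k1, b1, hb1⟩ := h.primitive
  obtain ⟨k2, b2, hb2⟩ := h.weight
  obtain ⟨S1, hS1⟩ := exists_chain_descent_pair b1
  obtain ⟨S2, hS2⟩ := exists_chain_descent b2
  refine ⟨S0 ∪ (S1 ∪ S2), fun B hB => ?_⟩
  rw [Finset.coe_union, Finset.coe_union, Set.union_subset_iff, Set.union_subset_iff] at hB
  obtain ⟨zB, hzB⟩ := hS0 B hB.1
  obtain ⟨c1, hc1⟩ := hS1 B hB.2.1
  obtain ⟨c2, hc2⟩ := hS2 B hB.2.2
  have hinj : Function.Injective B.subtype := Subtype.val_injective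
  refine ⟨zB, hzB, ?_, ?_, ?_⟩
  · apply dsc_inj B.subtype hinj
    rw [← bd_push, hzB, h.cycle, map_zero]
  · refine ⟨k1, c1, ?_⟩
    apply dsc_inj_pair B.subtype hinj
    rw [← bd_push, hc1, hb1, ← hzB, primDefect_push, ← push_comp, ← push_comp,
      dsc_prod, dsc_prod, glMap_upper]
  · refine ⟨k2, c2, ?_⟩
    apply dsc_inj B.subtype hinj
    rw [← bd_push, hc2, hb2, ← hzB, dsc_weight, ← push_comp, ← push_comp, glMap_upper]

/-- a chain over `B` which becomes null over `E ⊇ B` is null over a finitely generated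
`B`-subalgebra -/
theorem exists_null_descent {B E : Type} [CommRing B] [CommRing E] [Algebra B E]
    (hinj : Function.Injective (algebraMap B E)) {n : ℕ} (z : Chain (GL ι B) n)
    (h : Null (push n (glMap ι (algebraMap B E)) z)) :
    ∃ S : Finset E, Null (push n (glMap ι (algebraMap B (Algebra.adjoin B (S : Set E)))) z) := by
  obtain ⟨k, b, hb⟩ := h
  obtain ⟨S, hS⟩ := exists_chain_descent b
  obtain ⟨c, hc⟩ := hS (Algebra.adjoin B (S : Set E)).toSubring Algebra.subset_adjoin
  let φ : (Algebra.adjoin B (S : Set E)).toSubring →+* (Algebra.adjoin B (S : Set E)) :=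
    { toFun := fun x => ⟨x.1, x.2⟩
      map_one' := rfl
      map_mul' := fun _ _ => rfl
      map_zero' := rfl
      map_add' := fun _ _ => rfl }
  let ψ : (Algebra.adjoin B (S : Set E)) →+* E := (Algebra.adjoin B (S : Set E)).val.toRingHom
  have hψ : Function.Injective ψ := Subtype.val_injective
  have h1 : ψ.comp φ = (Algebra.adjoin B (S : Set E)).toSubring.subtype := by
    ext x
    rfl
  have h2 : ψ.comp (algebraMap B (Algebra.adjoin B (S : Set E))) = algebraMap B E := by
    ext x
    rfl
  refine ⟨S, k, push (n + 1) (glMap _ φ) c, ?_⟩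
  apply dsc_inj ψ hψ
  rw [← bd_push, ← push_comp, glMap_comp', h1, hc, hb, ← push_comp, ← push_comp, ← push_comp,
    ← h2, ← glMap_comp', ← MonoidHom.comp_assoc, glMap_upper]

end Pool.Agent.KBS
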