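import Pool.Agent.KBS.Ult
import Pool.Agent.Helper26.BSU.Points

/-! KBS-Emb. Finitely generated domains of characteristic zero have generic sequences of points over
prime fields and over algebraic closures of prime fields, and embed in ultraproducts. -/

set_option autoImplicit false

open Filter Matrix

namespace Pool.Agent.KBS

private theorem emb_countable {L : Type} [Field L] (S : Finset L) :
    Countable (Subring.closure (S : Set L)) := by
  have h1 := Subfield.cardinalMk_closure_le_max (S : Set L)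
  have h2 : Cardinal.mk ↥(S : Set L) ≤ Cardinal.aleph0 :=
    Cardinal.le_aleph0_iff_set_countable.mpr S.countable_toSet
  have h3 : ((Subfield.closure (S : Set L) : Subfield L) : Set L).Countable :=
    Cardinal.le_aleph0_iff_set_countable.mp (h1.trans (max_le h2 le_rfl))
  have h4 : Subring.closure (S : Set L) ≤ (Subfield.closure (S : Set L)).toSubring := by
    rw [Subring.closure_le]
    exact Subfield.subset_closure
  have h5 : ((Subring.closure (S : Set L) : Subring L) : Set L).Countable := h3.mono h4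
  exact h5.to_subtype

private noncomputable def embSet {L : Type} [Field L] (S : Finset L) (f : ℕ → L) (k : ℕ) :
    Finset L := by
  classical
  exact S ∪ (Finset.range (k + 1)).image fun i => (f i)⁻¹

private theorem emb_sub {L : Type} [Field L] (S : Finset L) (f : ℕ → L) (k : ℕ) :
    Subring.closure (S : Set L) ≤ Subring.closure (embSet S f k : Set L) := by
  classical
  refine Subring.closure_mono ?_
  intro x hx
  unfold embSet
  rw [Finset.mem_coe, Finset.mem_union]
  exact Or.inl hx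

private theorem emb_ne {L F : Type} [Field L] [Field F] (S : Finset L) (f : ℕ → L) (k : ℕ)
    (ψ : Subring.closure (embSet S f k : Set L) →+* F) (i : ℕ) (hi : i ≤ k)
    (hf : f i ∈ Subring.closure (S : Set L)) (h0 : f i ≠ 0) :
    (ψ.comp (Subring.inclusion (emb_sub S f k))) ⟨f i, hf⟩ ≠ 0 := by
  classical
  have hinv : (f i)⁻¹ ∈ Subring.closure (embSet S f k : Set L) := by
    apply Subring.subset_closure
    unfold embSet
    rw [Finset.mem_coe, Finset.mem_union]
    exact Or.inr (Finset.mem_image.2 ⟨i, Finset.mem_range.2 (by omega), rfl⟩)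
  intro h1
  have h2 : (⟨f i, emb_sub S f k hf⟩ : Subring.closure (embSet S f k : Set L)) *
      ⟨(f i)⁻¹, hinv⟩ = 1 := Subtype.ext (mul_inv_cancel₀ h0)
  have h3 := congrArg ψ h2
  rw [map_mul, map_one] at h3
  have h4 : ψ ⟨f i, emb_sub S f k hf⟩ = 0 := h1
  rw [h4, zero_mul] at h3
  exact zero_ne_one h3

theorem exists_prime_homs (L : Type) [Field L] [CharZero L] (S : Finset L) :
    ∃ (p : ℕ → ℕ) (_ : ∀ k, Fact (p k).Prime)
      (φ : ∀ k, Subring.closure (S : Set L) →+* ZMod (p k)), StrictMono p ∧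
        ∀ b : Subring.closure (S : Set L), b ≠ 0 → ∃ k0, ∀ k, k0 ≤ k → φ k b ≠ 0 := by
  have hc := emb_countable S
  obtain ⟨f, hf⟩ := exists_surjective_nat (Subring.closure (S : Set L))
  have h1 : ∀ k m : ℕ, ∃ (p : ℕ) (_ : Fact p.Prime) (φ : Subring.closure (S : Set L) →+* ZMod p),
      m ≤ p ∧ ∀ i ≤ k, f i ≠ 0 → φ (f i) ≠ 0 := by
    intro k m
    obtain ⟨p, hp, hmp, ⟨ψ⟩⟩ := Pool.Agent.Helper26.BSU.exists_prime_point L
      (embSet S (fun i => (f i : L)) k) m
    refine ⟨p, hp, ψ.comp (Subring.inclusion (emb_sub S (fun i => (f i : L)) k)), hmp, ?_⟩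
    intro i hi h0
    exact emb_ne S (fun i => (f i : L)) k ψ i hi (f i).2 fun h => h0 (Subtype.ext h)
  choose pf hpf φf hm hφ using h1
  let m : ℕ → ℕ := fun k => Nat.rec 0 (fun k m => pf k m + 1) k
  refine ⟨fun k => pf k (m k), fun k => hpf k (m k), fun k => φf k (m k), ?_, ?_⟩
  · refine strictMono_nat_of_lt_succ fun k => ?_
    have h2 := hm (k + 1) (m (k + 1))
    have h3 : m (k + 1) = pf k (m k) + 1 := rfl
    omega
  · intro b hb
    obtain ⟨i, rfl⟩ := hf b
    exact ⟨i, fun k hk => hφ k (m k) i hk hb⟩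

theorem exists_closure_homs (L : Type) [Field L] [CharZero L] (S : Finset L) (P : ℕ → Prop)
    (hP : ∀ q : ℕ, ∃ p : ℕ, q ≤ p ∧ p.Prime ∧ P p) :
    ∃ (p : ℕ → ℕ) (_ : ∀ k, Fact (p k).Prime)
      (φ : ∀ k, Subring.closure (S : Set L) →+* AlgebraicClosure (ZMod (p k))), StrictMono p ∧
        (∀ k, P (p k)) ∧
        ∀ b : Subring.closure (S : Set L), b ≠ 0 → ∃ k0, ∀ k, k0 ≤ k → φ k b ≠ 0 := by
  have hc := emb_countable S
  obtain ⟨f, hf⟩ := exists_surjective_nat (Subring.closure (S : Set L))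
  have h1 : ∀ k m : ℕ, ∃ (p : ℕ) (_ : Fact p.Prime)
      (φ : Subring.closure (S : Set L) →+* AlgebraicClosure (ZMod p)),
      m ≤ p ∧ P p ∧ ∀ i ≤ k, f i ≠ 0 → φ (f i) ≠ 0 := by
    intro k m
    obtain ⟨M, hM⟩ := Pool.Agent.Helper26.BSU.exists_closed_point L
      (embSet S (fun i => (f i : L)) k)
    obtain ⟨p, hp1, hp2, hp3⟩ := hP (max M m)
    have hfact : Fact p.Prime := ⟨hp2⟩
    have hchar : CharP (AlgebraicClosure (ZMod p)) p :=
      charP_of_injective_algebraMap (algebraMap (ZMod p) (AlgebraicClosure (ZMod p))).injective p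
    have hr : ringChar (AlgebraicClosure (ZMod p)) = p := ringChar.eq _ p
    obtain ⟨ψ⟩ := hM (AlgebraicClosure (ZMod p))
      (Or.inr (by rw [hr]; exact (le_max_left _ _).trans hp1))
    refine ⟨p, hfact, ψ.comp (Subring.inclusion (emb_sub S (fun i => (f i : L)) k)),
      (le_max_right _ _).trans hp1, hp3, ?_⟩
    intro i hi h0
    exact emb_ne S (fun i => (f i : L)) k ψ i hi (f i).2 fun h => h0 (Subtype.ext h)
  choose pf hpf φf hm hPp hφ using h1
  let m : ℕ → ℕ := fun k => Nat.rec 0 (fun k m => pf k m + 1) k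
  refine ⟨fun k => pf k (m k), fun k => hpf k (m k), fun k => φf k (m k), ?_,
    fun k => hPp k (m k), ?_⟩
  · refine strictMono_nat_of_lt_succ fun k => ?_
    have h2 := hm (k + 1) (m (k + 1))
    have h3 : m (k + 1) = pf k (m k) + 1 := rfl
    omega
  · intro b hb
    obtain ⟨i, rfl⟩ := hf b
    exact ⟨i, fun k hk => hφ k (m k) i hk hb⟩

theorem ultra_injective {I : Type} {U : Ultrafilter I} {F : I → Type} [∀ i, Field (F i)]
    {K : Type} [Field K] {π : (∀ i, F i) →+* K} (h : IsUltra U F K π) {B : Type} [CommRing B]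
    (φ : ∀ i, B →+* F i) (hφ : ∀ b : B, b ≠ 0 → ∀ᶠ i in (U : Filter I), φ i b ≠ 0) :
    Function.Injective (π.comp (RingHom.pi φ)) := by
  rw [injective_iff_map_eq_zero]
  intro b hb
  by_contra hne
  have h1 : ∀ᶠ i in (U : Filter I), φ i b = 0 := (h.2 _).1 hb
  obtain ⟨i, hi1, hi2⟩ := (h1.and (hφ b hne)).exists
  exact hi2 hi1

end Pool.Agent.KBS
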