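import Pool.Agent.KBS.Cls

/-! KBS-Eqv. `SameClass` is an equivalence relation.

PLAN. Symmetry: reindex by `Equiv.sumComm` (`null_gre`, `lower_eq`) and `Null.neg`. Reflexivity:
`null_conj` with the permutation matrix which exchanges the two blocks (the classes are cycles).
Transitivity: work in `GL ((ι ⊕ κ) ⊕ λ)`: `push upper` of the first relation and a reindexed
`push lower` of the second one; the terms with `y` are equal (equality of homomorphisms up to `gre`),
add (`Null.add`), and reindex `(ι ⊕ κ) ⊕ λ ≃ (ι ⊕ λ) ⊕ κ`; finish with `null_gre`, `null_upper`. -/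

set_option autoImplicit false

open Matrix

namespace Pool.Agent.KBS

section Aux

variable {ι κ μ : Type} [Fintype ι] [DecidableEq ι] [Fintype κ] [DecidableEq κ]
  [Fintype μ] [DecidableEq μ] {R : Type} [CommRing R]

/-- the block exchange -/
private def eqvSwap (ι R : Type) [Fintype ι] [DecidableEq ι] [CommRing R] : GL (ι ⊕ ι) R where
  val := Matrix.fromBlocks 0 1 1 0
  inv := Matrix.fromBlocks 0 1 1 0
  val_inv := by simp [Matrix.fromBlocks_multiply]
  inv_val := by simp [Matrix.fromBlocks_multiply]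

private theorem eqvSwap_conj (g : GL ι R) :
    lower ι ι R g = eqvSwap ι R * upper ι ι R g * (eqvSwap ι R)⁻¹ := by
  apply Units.ext
  have h : (((eqvSwap ι R)⁻¹ : GL (ι ⊕ ι) R) : Matrix (ι ⊕ ι) (ι ⊕ ι) R) =
      Matrix.fromBlocks 0 1 1 0 := rfl
  have h' : ((eqvSwap ι R : GL (ι ⊕ ι) R) : Matrix (ι ⊕ ι) (ι ⊕ ι) R) =
      Matrix.fromBlocks 0 1 1 0 := rfl
  rw [Units.val_mul, Units.val_mul, h, h', upper_val, lower_val]
  simp [Matrix.fromBlocks_multiply]

private theorem eqv_comm_lower :
    (gre R (Equiv.sumComm ι κ)).comp (lower ι κ R) = upper κ ι R := by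
  rw [lower_eq, ← MonoidHom.comp_assoc, gre_gre]
  have : (Equiv.sumComm κ ι).trans (Equiv.sumComm ι κ) = Equiv.refl _ := by
    ext x; rcases x with x | x <;> rfl
  rw [this, gre_refl, MonoidHom.id_comp]

private theorem eqv_mid :
    (gre R (Equiv.sumAssoc ι κ μ).symm).comp ((lower ι (κ ⊕ μ) R).comp (upper κ μ R)) =
      (upper (ι ⊕ κ) μ R).comp (lower ι κ R) := by
  apply MonoidHom.ext
  intro g
  apply Units.ext
  simp only [MonoidHom.comp_apply, gre_val, upper_val, lower_val]
  ext i j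
  rcases i with (i | i) | i <;> rcases j with (j | j) | j <;> simp [Matrix.one_apply]

/-- the reindexing `(ι ⊕ κ) ⊕ μ ≃ (ι ⊕ μ) ⊕ κ` -/
private def eqvE (ι κ μ : Type) : (ι ⊕ κ) ⊕ μ ≃ (ι ⊕ μ) ⊕ κ :=
  ((Equiv.sumAssoc ι κ μ).trans (Equiv.sumCongr (Equiv.refl ι) (Equiv.sumComm κ μ))).trans
    (Equiv.sumAssoc ι μ κ).symm

private theorem eqv_top :
    (gre R (eqvE ι κ μ)).comp ((upper (ι ⊕ κ) μ R).comp (upper ι κ R)) =
      (upper (ι ⊕ μ) κ R).comp (upper ι μ R) := by
  apply MonoidHom.ext
  intro g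
  apply Units.ext
  rw [MonoidHom.comp_apply, MonoidHom.comp_apply, MonoidHom.comp_apply, gre_val, upper_val,
    upper_val, upper_val, upper_val]
  ext i j
  rcases i with (i | i) | i <;> rcases j with (j | j) | j <;> simp [Matrix.one_apply, eqvE]

private theorem eqv_bot :
    (gre R (eqvE ι κ μ)).comp ((gre R (Equiv.sumAssoc ι κ μ).symm).comp
      ((lower ι (κ ⊕ μ) R).comp (lower κ μ R))) =
      (upper (ι ⊕ μ) κ R).comp (lower ι μ R) := by
  apply MonoidHom.ext
  intro g
  apply Units.ext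
  rw [MonoidHom.comp_apply, MonoidHom.comp_apply, MonoidHom.comp_apply, MonoidHom.comp_apply,
    gre_val, gre_val, upper_val, lower_val, lower_val, lower_val]
  ext i j
  rcases i with (i | i) | i <;> rcases j with (j | j) | j <;> simp [Matrix.one_apply, eqvE]

end Aux

theorem sameClass_equivalence {R : Type} [CommRing R] (n w : ℕ) :
    Equivalence (SameClass (R := R) (n := n) (w := w)) := by
  refine ⟨?_, ?_, ?_⟩
  · intro x
    exact null_conj _ _ (eqvSwap (Fin x.1) R) (fun g => eqvSwap_conj g) x.2.1 x.2.2.cycle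
  · intro x y h
    have h1 := (h.gre' (Equiv.sumComm (Fin x.1) (Fin y.1))).neg
    rw [map_sub, ← push_comp, ← push_comp, ← lower_eq, eqv_comm_lower, neg_sub] at h1
    exact h1
  · intro x y z h h'
    unfold SameClass at h h' ⊢
    have h1 := (null_upper (κ := Fin z.1) _).2 h
    have h2 := ((null_lower (ι := Fin x.1) _).2 h').gre'
      (Equiv.sumAssoc (Fin x.1) (Fin y.1) (Fin z.1)).symm
    rw [map_sub, ← push_comp, ← push_comp] at h1
    rw [map_sub, ← push_comp, ← push_comp, map_sub, ← push_comp, ← push_comp, eqv_mid] at h2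
    have h3 := (h1.add h2).gre' (eqvE (Fin x.1) (Fin y.1) (Fin z.1))
    rw [sub_add_sub_cancel, map_sub, ← push_comp, ← push_comp, eqv_top, eqv_bot, push_comp,
      push_comp, ← map_sub, null_upper] at h3
    exact h3

end Pool.Agent.KBS
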