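import Mathlib

/-! KBS-Ext. Extension of homomorphisms from a domain to a finitely generated larger domain.

PLAN. Induction on the number of generators of `C` over `B` (all rings are subrings of one domain,
or use towers `B → B[x] → ...`). One generator `x`, `C = B[x]`. If `x` is transcendental over `B`,
every `φ : B → Ω` extends by `x ↦ 0` (`C` is the polynomial ring), `f = 1`. If `x` is algebraic, let
`a x^d + ... = 0` with `a ≠ 0` in `B`; `C[1/a]` is integral over `B[1/a]`; if `φ a ≠ 0` then `φ`
extends to `B[1/a]`, its kernel lies under a prime `Q` of `C[1/a]` (`Ideal.exists_ideal_over_prime_of_isIntegral`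
or `..._of_isIntegral_of_isDomain`), and the residue field extension is algebraic, hence embeds in
`Ω` (`IsAlgClosed.lift`). For the composition of two steps: if `g ∈ B[x]` is the element of the second
step, one needs that `φ` extends to `B[x]` with `g ↦ nonzero`: apply the one generator step to
`B[x, 1/g]`: so prove the one generator statement in the form with two generators `x` and `1/g`, or
prove directly for `C` by Chevalley (`PrimeSpectrum` constructible image contains the generic point,
hence an open set): any proof is fine. (Alternative: generic freeness / Noether normalisation of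
`Frac(B) ⊗ C`: after inverting one `f ∈ B`, `C_f` is integral over a polynomial ring over `B_f`.) -/

set_option autoImplicit false

namespace Pool.Agent.KBS

/-- extension of a homomorphism along an integral injective extension of domains -/
private theorem ext_integral {R S Ω : Type} [CommRing R] [CommRing S] [IsDomain S]
    [Algebra R S] [Algebra.IsIntegral R S] (hinj : Function.Injective (algebraMap R S))
    [Field Ω] [IsAlgClosed Ω] (φ : R →+* Ω) :
    ∃ ψ : S →+* Ω, ψ.comp (algebraMap R S) = φ := by
  have hprime : (RingHom.ker φ).IsPrime := RingHom.ker_isPrime φ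
  obtain ⟨Q, hQ, hQP⟩ := Ideal.exists_ideal_over_prime_of_isIntegral_of_isDomain (R := R) (S := S)
    (RingHom.ker φ) (by
      rw [(RingHom.injective_iff_ker_eq_bot _).1 hinj]; exact bot_le)
  let P : Ideal R := Q.comap (algebraMap R S)
  have hP : P.IsPrime := Ideal.comap_isPrime _ Q
  let φ' : R ⧸ P →+* Ω := Ideal.Quotient.lift P φ (by
    intro a ha
    have : a ∈ RingHom.ker φ := by rw [← hQP]; exact ha
    exact this)
  have hφ' : Function.Injective φ' := by
    rw [injective_iff_map_eq_zero]
    intro a ha
    obtain ⟨a, rfl⟩ := Ideal.Quotient.mk_surjective a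
    have ha' : φ a = 0 := ha
    rw [Ideal.Quotient.eq_zero_iff_mem]
    have : a ∈ RingHom.ker φ := ha'
    rw [← hQP] at this; exact this
  let : Algebra (R ⧸ P) (S ⧸ Q) := Ideal.quotientAlgebra
  let : Algebra (R ⧸ P) Ω := φ'.toAlgebra
  have : IsDomain (R ⧸ P) := Ideal.Quotient.isDomain P
  have : IsDomain (S ⧸ Q) := Ideal.Quotient.isDomain Q
  have hinj2 : Function.Injective (algebraMap (R ⧸ P) (S ⧸ Q)) :=
    Ideal.algebraMap_quotient_injective
  have : Algebra.IsIntegral (R ⧸ P) (S ⧸ Q) := by
    constructor
    intro x
    obtain ⟨x, rfl⟩ := Ideal.Quotient.mk_surjective x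
    obtain ⟨q, hq, hq0⟩ := Algebra.IsIntegral.isIntegral (R := R) x
    refine ⟨q.map (Ideal.Quotient.mk P), hq.map _, ?_⟩
    rw [Polynomial.eval₂_map]
    have h1 : (algebraMap (R ⧸ P) (S ⧸ Q)).comp (Ideal.Quotient.mk P)
        = (Ideal.Quotient.mk Q).comp (algebraMap R S) := RingHom.ext fun r => rfl
    rw [h1, ← Polynomial.hom_eval₂, hq0, map_zero]
  have : Module.IsTorsionFree (R ⧸ P) (S ⧸ Q) :=
    Module.isTorsionFree_iff_algebraMap_injective.2 hinj2
  have : Module.IsTorsionFree (R ⧸ P) Ω :=
    Module.isTorsionFree_iff_algebraMap_injective.2 hφ'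
  have : Algebra.IsAlgebraic (R ⧸ P) (S ⧸ Q) := inferInstance
  let θ : (S ⧸ Q) →ₐ[R ⧸ P] Ω := IsAlgClosed.lift
  refine ⟨θ.toRingHom.comp (Ideal.Quotient.mk Q), ?_⟩
  ext r
  have h2 : θ (algebraMap (R ⧸ P) (S ⧸ Q) (Ideal.Quotient.mk P r))
      = algebraMap (R ⧸ P) Ω (Ideal.Quotient.mk P r) := θ.commutes _
  have h3 : algebraMap (R ⧸ P) Ω (Ideal.Quotient.mk P r) = φ r := Ideal.Quotient.lift_mk _ _ _
  have h4 : algebraMap (R ⧸ P) (S ⧸ Q) (Ideal.Quotient.mk P r)
      = Ideal.Quotient.mk Q (algebraMap R S r) := rfl
  rw [h4, h3] at h2
  exact h2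

/-- `B ⊆ C` domains, `C` finitely generated over `B`: there is `f ≠ 0` in `B` such that every
homomorphism from `B` to an algebraically closed field with `f ↦ nonzero` extends to `C`. -/
theorem exists_extension {B C : Type} [CommRing B] [IsDomain B] [CommRing C] [IsDomain C]
    [Algebra B C] (hinj : Function.Injective (algebraMap B C)) [Algebra.FiniteType B C] :
    ∃ f : B, f ≠ 0 ∧ ∀ (Ω : Type) (_ : Field Ω) (_ : IsAlgClosed Ω) (φ : B →+* Ω), φ f ≠ 0 →
      ∃ ψ : C →+* Ω, ψ.comp (algebraMap B C) = φ := by
  classical
  let K := FractionRing B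
  let A := TensorProduct B K C
  have hA : Nontrivial A := by
    let F := FractionRing C
    have hBF : Function.Injective (algebraMap B F) := by
      rw [IsScalarTower.algebraMap_eq B C F]
      exact (IsFractionRing.injective C F).comp hinj
    let u : K →ₐ[B] F := IsLocalization.liftAlgHom (M := nonZeroDivisors B)
      (f := Algebra.ofId B F) (fun y => by
        have h1 : (algebraMap B F) y ≠ 0 := by
          intro h
          exact nonZeroDivisors.ne_zero y.2 (hBF (by rw [h, map_zero]))
        exact isUnit_iff_ne_zero.2 h1)
    let v : C →ₐ[B] F := IsScalarTower.toAlgHom B C F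
    let w : A →ₐ[B] F := Algebra.TensorProduct.productMap u v
    exact RingHom.domain_nontrivial w.toRingHom
  obtain ⟨m, hm⟩ := Ideal.exists_maximal A
  let L := A ⧸ m
  let : Field L := Ideal.Quotient.field m
  have : Algebra.FiniteType K A := inferInstance
  have : Algebra.FiniteType K L := inferInstance
  have : Module.Finite K L := finite_of_finite_type_of_isJacobsonRing K L
  let j : C →+* L := (Ideal.Quotient.mk m).comp
    (Algebra.TensorProduct.includeRight (R := B) (A := K) (B := C)).toRingHom
  have hj : j.comp (algebraMap B C) = algebraMap B L := by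
    ext b
    show Ideal.Quotient.mk m ((Algebra.TensorProduct.includeRight (R := B) (A := K) (B := C))
      (algebraMap B C b)) = algebraMap B L b
    rw [AlgHom.commutes]
    rfl
  obtain ⟨s, hs⟩ := (inferInstance : Algebra.FiniteType B C).out
  obtain ⟨f, hf, hfs⟩ := exists_integral_multiples B K (L := L) (s.image j)
  refine ⟨f, hf, fun Ω _ _ φ hφ => ?_⟩
  have hBL : Function.Injective (algebraMap B L) := by
    rw [IsScalarTower.algebraMap_eq B K L]
    exact (algebraMap K L).injective.comp (IsFractionRing.injective B K)
  have hfL : algebraMap B L f ≠ 0 := fun h => hf (hBL (by rw [h, map_zero]))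
  let R := Localization.Away f
  let toL : R →+* L := IsLocalization.Away.lift (g := algebraMap B L) f
    (isUnit_iff_ne_zero.2 hfL)
  have htoL : toL.comp (algebraMap B R) = algebraMap B L := IsLocalization.Away.lift_comp _ _
  let : Algebra R L := toL.toAlgebra
  have : IsScalarTower B R L := IsScalarTower.of_algebraMap_eq' htoL.symm
  let φR : R →+* Ω := IsLocalization.Away.lift (g := φ) f (isUnit_iff_ne_zero.2 hφ)
  have hφR : φR.comp (algebraMap B R) = φ := IsLocalization.Away.lift_comp _ _
  have hRL : Function.Injective (algebraMap R L) := by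
    rw [injective_iff_map_eq_zero]
    intro a ha
    obtain ⟨⟨x, y⟩, hxy⟩ := IsLocalization.surj (Submonoid.powers f) a
    have h1 : toL (a * algebraMap B R y) = toL (algebraMap B R x) := congrArg toL hxy
    have h2 : toL a = 0 := ha
    have h3 : toL (algebraMap B R x) = algebraMap B L x := by rw [← htoL]; rfl
    rw [map_mul, h2, zero_mul, h3] at h1
    have h4 : x = 0 := hBL (by rw [← h1, map_zero])
    have h5 : a * algebraMap B R y = 0 := by
      have := hxy
      simp only at this
      rw [this, h4, map_zero]
    have h6 : IsUnit (algebraMap B R y) := IsLocalization.map_units R y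
    exact (h6.mul_left_eq_zero).1 h5
  have hint : ∀ c : C, j c ∈ integralClosure R L := by
    let I : Subalgebra B L := (integralClosure R L).restrictScalars B
    let jA : C →ₐ[B] L := { j with commutes' := fun b => by rw [← hj]; rfl }
    have h1 : (⊤ : Subalgebra B C) ≤ I.comap jA := by
      rw [← hs]
      refine Algebra.adjoin_le fun x hx => ?_
      show j x ∈ integralClosure R L
      have h2 : IsIntegral B (f • j x) := hfs _ (Finset.mem_image_of_mem _ hx)
      have h3 : IsIntegral R (f • j x) := h2.tower_top
      have h4 : j x = toL (IsLocalization.Away.invSelf f) * (f • j x) := by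
        rw [Algebra.smul_def, ← mul_assoc]
        have h5 : algebraMap B L f = toL (algebraMap B R f) := by rw [← htoL]; rfl
        rw [h5, ← map_mul, mul_comm (IsLocalization.Away.invSelf f),
          IsLocalization.Away.mul_invSelf, map_one, one_mul]
      rw [h4]
      exact (isIntegral_algebraMap (R := R) (A := L)
        (x := IsLocalization.Away.invSelf f)).mul h3
    intro c
    exact h1 (Algebra.mem_top : c ∈ (⊤ : Subalgebra B C))
  let jR : C →+* integralClosure R L := j.codRestrict (integralClosure R L).toSubring hint
  have : Algebra.IsIntegral R (integralClosure R L) := inferInstance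
  have hinjR : Function.Injective (algebraMap R (integralClosure R L)) := by
    intro a b hab
    apply hRL
    exact congrArg Subtype.val hab
  obtain ⟨ψ, hψ⟩ := ext_integral (R := R) (S := integralClosure R L) hinjR φR
  refine ⟨ψ.comp jR, ?_⟩
  ext b
  have h1 : jR (algebraMap B C b) = algebraMap R (integralClosure R L) (algebraMap B R b) := by
    apply Subtype.ext
    have h2 : j (algebraMap B C b) = algebraMap B L b := by rw [← hj]; rfl
    have h3 : algebraMap R L (algebraMap B R b) = algebraMap B L b := by
      rw [← htoL]; rfl
    show j (algebraMap B C b) = algebraMap R L (algebraMap B R b)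
    rw [h2, h3]
  show ψ (jR (algebraMap B C b)) = φ b
  rw [h1]
  have h4 : ψ (algebraMap R (integralClosure R L) (algebraMap B R b)) = φR (algebraMap B R b) := by
    rw [← hψ]; rfl
  rw [h4, ← hφR]; rfl

end Pool.Agent.KBS
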