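import Pool.Agent.KBS.Cls

/-! KBS-Prm. Consequences of primitivity: `d` copies of `z` are `d z`, and cutting by orthogonal
idempotents is additive.

PLAN. Let `k` be as in `NullPair (primDefect z)`, `κ = Fin m ⊕ Fin k` and
`z' = push (upper _ (Fin k)) z`; by `primDefect_push` (Cls) the chain `primDefect z'` of
`GL κ R × GL κ R` IS a boundary. Hence for every homomorphism `Φ : GL κ R × GL κ R →* Γ`
`push (Φ ∘ diag) z' - push (Φ ∘ inl) z' - push (Φ ∘ inr) z'` is a boundary (`isBd_of_prim`).

(cut) `Φ (g, h) = cut e g * cut f h` is a homomorphism by `cut_commute` (MonoidHom.noncommCoprod);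
`Φ ∘ diag = cut (e + f)` by `cut_mul_cut`. Then pass from `z'` to `z` with `null_upper` and
`nuMap_upper`.

(copies) Claim by induction on `d`: `Null (push (upper (κ × Fin d) κ ∘ copies κ d) z' - d • push
(lower (κ × Fin d) κ) z')`. `d = 0`: the first homomorphism is trivial (`GL (κ × Fin 0) R` is a
subsingleton): `isBd_trivial`. Step: `copies κ (d+1) = gre e ∘ blk ∘ (id × copies κ d) ∘ diag` for
the bijection `e : κ ⊕ κ × Fin d ≃ κ × Fin (d+1)`; use `Φ = blk κ (κ × Fin d) ∘ (id × copies κ d)`
and `null_gre`, `null_upper`, `null_lower`, `Null.add`; to compare different blocks note that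
`Null (push (upper) z' - push (lower) z')` in `GL (κ ⊕ κ)` for every cycle by `null_conj` (swap).
So `Null (push (copies κ d) z')` implies `Null (d • z')`, and `Null (push (copies (Fin m) d) z)`
implies `Null (push (copies κ d) z')` since `copies κ d ∘ upper = gre ∘ upper ∘ copies (Fin m) d`. -/

set_option autoImplicit false

open Matrix

namespace Pool.Agent.KBS

variable {R : Type} [CommRing R] {n m w : ℕ}

/-- `g ↦ g ⊗ 1`, i.e. `d` copies of `g` -/
def copies (ι : Type) [Fintype ι] [DecidableEq ι] (d : ℕ) (R : Type) [CommRing R] :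
    GL ι R →* GL (ι × Fin d) R :=
  Units.map
    { toFun := fun a => Matrix.kroneckerMap (· * ·) a (1 : Matrix (Fin d) (Fin d) R)
      map_one' := by simp
      map_mul' := fun a b => by
        have := Matrix.mul_kronecker_mul a b (1 : Matrix (Fin d) (Fin d) R) (1 : Matrix (Fin d) (Fin d) R)
        simpa using this }

theorem isBd_of_prim {G Γ : Type} [Group G] [Group Γ] (z : Chain G n) (h : IsBd (primDefect z))
    (Φ : G × G →* Γ) :
    IsBd (push n (Φ.comp ((MonoidHom.id G).prod (MonoidHom.id G))) z -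
      push n (Φ.comp (MonoidHom.inl G G)) z - push n (Φ.comp (MonoidHom.inr G G)) z) := by
  have h1 := h.push' Φ
  rwa [primDefect, map_sub, map_sub, ← push_comp, ← push_comp, ← push_comp] at h1

section Aux

variable {ι κ μ : Type} [Fintype ι] [DecidableEq ι] [Fintype κ] [DecidableEq κ]
  [Fintype μ] [DecidableEq μ]

/-- the permutation matrix as a unit -/
private def prmMat (R : Type) [CommRing R] (σ : μ ≃ μ) : GL μ R where
  val := Matrix.of fun i j => if σ j = i then 1 else 0
  inv := Matrix.of fun i j => if σ i = j then 1 else 0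
  val_inv := by
    ext i j
    rw [Matrix.mul_apply]
    simp only [Matrix.of_apply]
    rw [Finset.sum_eq_single (σ.symm i)]
    · rw [Equiv.apply_symm_apply, if_pos rfl, one_mul, Matrix.one_apply]
    · intro b _ hb
      rw [if_neg, zero_mul]
      rintro rfl
      exact hb (Equiv.symm_apply_apply _ _).symm
    · intro h
      exact absurd (Finset.mem_univ _) h
  inv_val := by
    ext i j
    rw [Matrix.mul_apply]
    simp only [Matrix.of_apply]
    rw [Finset.sum_eq_single (σ i)]
    · rw [if_pos rfl, one_mul, Matrix.one_apply]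
      by_cases h : i = j
      · rw [h, if_pos rfl, if_pos rfl]
      · rw [if_neg h, if_neg]
        intro h2
        exact h (σ.injective h2).symm
    · intro b _ hb
      rw [if_neg, zero_mul]
      intro h
      exact hb h.symm
    · intro h
      exact absurd (Finset.mem_univ _) h

private theorem gre_conj (σ : μ ≃ μ) (g : GL μ R) :
    gre R σ g = prmMat R σ * g * (prmMat R σ)⁻¹ := by
  rw [eq_mul_inv_iff_mul_eq]
  apply Units.ext
  rw [Units.val_mul, Units.val_mul, gre_val]
  ext i j
  rw [Matrix.mul_apply, Matrix.mul_apply]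
  have h1 : ∀ k, (prmMat R σ : Matrix μ μ R) k j = if σ j = k then 1 else 0 := fun k => rfl
  have h2 : ∀ k, (prmMat R σ : Matrix μ μ R) i k = if σ k = i then 1 else 0 := fun k => rfl
  simp only [h1, h2]
  rw [Finset.sum_eq_single (σ j), Finset.sum_eq_single (σ.symm i)]
  · rw [if_pos rfl, if_pos (Equiv.apply_symm_apply _ _), mul_one, one_mul]
    rw [Matrix.reindex_apply, Matrix.submatrix_apply, Equiv.symm_apply_apply]
  · intro b _ hb
    rw [if_neg, zero_mul]
    rintro rfl
    exact hb (Equiv.symm_apply_apply _ _).symm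
  · intro h
    exact absurd (Finset.mem_univ _) h
  · intro b _ hb
    rw [if_neg, mul_zero]
    intro h
    exact hb h.symm
  · intro h
    exact absurd (Finset.mem_univ _) h

/-- a permutation of the basis does not change the class -/
private theorem null_perm (σ : μ ≃ μ) (z : Chain (GL μ R) (n + 1)) (hz : bd _ n z = 0) :
    Null (z - push (n + 1) (gre R σ) z) := by
  have h := null_conj (MonoidHom.id (GL μ R)) (gre R σ) (prmMat R σ) (fun g => gre_conj σ g) z hz
  rwa [push_id] at h

/-- split off the first copy -/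
private def prmE (κ : Type) (d : ℕ) : κ × Fin (d + 1) ≃ κ ⊕ κ × Fin d where
  toFun p := Fin.cases (Sum.inl p.1) (fun j => Sum.inr (p.1, j)) p.2
  invFun := Sum.elim (fun i => (i, 0)) (fun q => (q.1, q.2.succ))
  left_inv := by
    rintro ⟨i, j⟩
    refine Fin.cases ?_ (fun j => ?_) j <;> rfl
  right_inv := by
    rintro (i | ⟨i, j⟩) <;> rfl

private theorem copies_val (ι : Type) [Fintype ι] [DecidableEq ι] (d : ℕ) (g : GL ι R)
    (p q : ι × Fin d) : (copies ι d R g : Matrix (ι × Fin d) (ι × Fin d) R) p q =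
      (g : Matrix ι ι R) p.1 q.1 * (1 : Matrix (Fin d) (Fin d) R) p.2 q.2 := rfl

private theorem blk_val (g : GL ι R) (h : GL κ R) :
    (blk ι κ R (g, h) : Matrix (ι ⊕ κ) (ι ⊕ κ) R) =
      Matrix.fromBlocks (g : Matrix ι ι R) 0 0 (h : Matrix κ κ R) := rfl

private theorem copies_succ (κ : Type) [Fintype κ] [DecidableEq κ] (d : ℕ) :
    (gre R (prmE κ d)).comp (copies κ (d + 1) R) =
      ((blk κ (κ × Fin d) R).comp ((MonoidHom.id _).prodMap (copies κ d R))).comp
        ((MonoidHom.id (GL κ R)).prod (MonoidHom.id (GL κ R))) := by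
  apply MonoidHom.ext
  intro g
  apply Units.ext
  change ((gre R (prmE κ d) (copies κ (d + 1) R g) : GL (κ ⊕ κ × Fin d) R) :
      Matrix (κ ⊕ κ × Fin d) (κ ⊕ κ × Fin d) R) =
    ((blk κ (κ × Fin d) R (g, copies κ d R g) : GL (κ ⊕ κ × Fin d) R) :
      Matrix (κ ⊕ κ × Fin d) (κ ⊕ κ × Fin d) R)
  rw [gre_val, blk_val]
  ext i j
  rw [Matrix.reindex_apply, Matrix.submatrix_apply, copies_val]
  rcases i with i | ⟨i, i'⟩ <;> rcases j with j | ⟨j, j'⟩
  · rw [Matrix.fromBlocks_apply₁₁]
    change (g : Matrix κ κ R) i j * (1 : Matrix (Fin (d + 1)) (Fin (d + 1)) R) 0 0 = _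
    rw [Matrix.one_apply_eq, mul_one]
  · rw [Matrix.fromBlocks_apply₁₂]
    change (g : Matrix κ κ R) i j * (1 : Matrix (Fin (d + 1)) (Fin (d + 1)) R) 0 j'.succ = _
    rw [Matrix.one_apply_ne (Fin.succ_ne_zero _).symm, mul_zero, Matrix.zero_apply]
  · rw [Matrix.fromBlocks_apply₂₁]
    change (g : Matrix κ κ R) i j * (1 : Matrix (Fin (d + 1)) (Fin (d + 1)) R) i'.succ 0 = _
    rw [Matrix.one_apply_ne (Fin.succ_ne_zero _), mul_zero, Matrix.zero_apply]
  · rw [Matrix.fromBlocks_apply₂₂, copies_val]
    change (g : Matrix κ κ R) i j *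
      (1 : Matrix (Fin (d + 1)) (Fin (d + 1)) R) i'.succ j'.succ = _
    congr 1
    rw [Matrix.one_apply, Matrix.one_apply]
    simp only [Fin.succ_inj]

private theorem copies_upper (m k d : ℕ) :
    (copies (Fin m ⊕ Fin k) d R).comp (upper (Fin m) (Fin k) R) =
      (gre R (Equiv.sumProdDistrib (Fin m) (Fin k) (Fin d)).symm).comp
        ((upper (Fin m × Fin d) (Fin k × Fin d) R).comp (copies (Fin m) d R)) := by
  apply MonoidHom.ext
  intro g
  apply Units.ext
  rw [MonoidHom.comp_apply, MonoidHom.comp_apply, MonoidHom.comp_apply, gre_val, upper_val]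
  ext i j
  rw [copies_val, upper_val, Matrix.reindex_apply, Matrix.submatrix_apply]
  rcases i with ⟨i | i, i'⟩ <;> rcases j with ⟨j | j, j'⟩
  · rw [Matrix.fromBlocks_apply₁₁]
    rfl
  · rw [Matrix.fromBlocks_apply₁₂, Matrix.zero_apply, zero_mul]
    rfl
  · rw [Matrix.fromBlocks_apply₂₁, Matrix.zero_apply, zero_mul]
    rfl
  · rw [Matrix.fromBlocks_apply₂₂]
    change _ = (1 : Matrix (Fin k × Fin d) (Fin k × Fin d) R) (i, i') (j, j')
    rw [Matrix.one_apply, Matrix.one_apply, Matrix.one_apply]
    by_cases h1 : i = j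
    · by_cases h2 : i' = j'
      · rw [if_pos h1, if_pos h2, if_pos (by rw [h1, h2]), mul_one]
      · rw [if_neg h2, if_neg (fun h => h2 (congrArg Prod.snd h)), mul_zero]
    · rw [if_neg h1, if_neg (fun h => h1 (congrArg Prod.fst h)), zero_mul]

/-- swap the first block with the last one -/
private def prmSw (κ μ : Type) : (κ ⊕ μ) ⊕ κ ≃ (κ ⊕ μ) ⊕ κ where
  toFun := Sum.elim (Sum.elim (fun i => Sum.inr i) (fun x => Sum.inl (Sum.inr x)))
    (fun i => Sum.inl (Sum.inl i))
  invFun := Sum.elim (Sum.elim (fun i => Sum.inr i) (fun x => Sum.inl (Sum.inr x)))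
    (fun i => Sum.inl (Sum.inl i))
  left_inv := by rintro ((i | i) | i) <;> rfl
  right_inv := by rintro ((i | i) | i) <;> rfl

private theorem prmSw_upper :
    (gre R (prmSw κ μ)).comp ((upper (κ ⊕ μ) κ R).comp (upper κ μ R)) =
      lower (κ ⊕ μ) κ R := by
  apply MonoidHom.ext
  intro g
  apply Units.ext
  rw [MonoidHom.comp_apply, MonoidHom.comp_apply, gre_val, upper_val, upper_val, lower_val]
  ext i j
  rcases i with (i | i) | i <;> rcases j with (j | j) | j <;>
    simp [prmSw, Matrix.one_apply]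

private theorem prm_assoc :
    (gre R (Equiv.sumAssoc κ μ κ).symm).comp ((lower κ (μ ⊕ κ) R).comp (upper μ κ R)) =
      (upper (κ ⊕ μ) κ R).comp (lower κ μ R) := by
  apply MonoidHom.ext
  intro g
  apply Units.ext
  rw [MonoidHom.comp_apply, MonoidHom.comp_apply, MonoidHom.comp_apply, gre_val, lower_val,
    upper_val, upper_val, lower_val]
  ext i j
  rcases i with (i | i) | i <;> rcases j with (j | j) | j <;>
    simp [Matrix.one_apply]

private theorem prm_assoc' :
    (gre R (Equiv.sumAssoc κ μ κ).symm).comp ((lower κ (μ ⊕ κ) R).comp (lower μ κ R)) =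
      lower (κ ⊕ μ) κ R := by
  apply MonoidHom.ext
  intro g
  apply Units.ext
  rw [MonoidHom.comp_apply, MonoidHom.comp_apply, gre_val, lower_val, lower_val, lower_val]
  ext i j
  rcases i with (i | i) | i <;> rcases j with (j | j) | j <;>
    simp [Matrix.one_apply]

private theorem prm_sumCongr (e : ι ≃ μ) :
    (gre R (Equiv.sumCongr e (Equiv.refl κ))).comp (upper ι κ R) =
      (upper μ κ R).comp (gre R e) := by
  apply MonoidHom.ext
  intro g
  apply Units.ext
  rw [MonoidHom.comp_apply, MonoidHom.comp_apply, gre_val, upper_val, upper_val, gre_val]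
  ext i j
  rcases i with i | i <;> rcases j with j | j <;>
    simp [Matrix.one_apply]

private theorem prm_sumCongr' (e : ι ≃ μ) :
    (gre R (Equiv.sumCongr e (Equiv.refl κ))).comp (lower ι κ R) =
      lower μ κ R := by
  apply MonoidHom.ext
  intro g
  apply Units.ext
  rw [MonoidHom.comp_apply, gre_val, lower_val, lower_val]
  ext i j
  rcases i with i | i <;> rcases j with j | j <;>
    simp [Matrix.one_apply]

private theorem prm_claim (z : Chain (GL κ R) (n + 1)) (hz : bd _ n z = 0)
    (h : IsBd (primDefect z)) (d : ℕ) :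
    Null (push (n + 1) ((upper (κ × Fin d) κ R).comp (copies κ d R)) z -
      (d : ℚ) • push (n + 1) (lower (κ × Fin d) κ R) z) := by
  induction d with
  | zero =>
    have h1 : copies κ 0 R = 1 := by
      apply MonoidHom.ext
      intro g
      apply Units.ext
      ext i j
      exact i.2.elim0
    rw [h1, Nat.cast_zero, zero_smul, sub_zero]
    have h2 : (upper (κ × Fin 0) κ R).comp (1 : GL κ R →* GL (κ × Fin 0) R) = 1 := by
      apply MonoidHom.ext
      intro g
      rw [MonoidHom.comp_apply, MonoidHom.one_apply, map_one, MonoidHom.one_apply]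
    rw [h2]
    exact null_of_isBd (isBd_trivial z hz)
  | succ d ih =>
    have h1 := isBd_of_prim z h ((blk κ (κ × Fin d) R).comp
      ((MonoidHom.id _).prodMap (copies κ d R)))
    rw [← copies_succ] at h1
    have e1 : ((blk κ (κ × Fin d) R).comp ((MonoidHom.id _).prodMap (copies κ d R))).comp
        (MonoidHom.inl (GL κ R) (GL κ R)) = upper κ (κ × Fin d) R := by
      apply MonoidHom.ext
      intro g
      change blk κ (κ × Fin d) R (g, copies κ d R 1) = blk κ (κ × Fin d) R (g, 1)
      rw [map_one]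
    have e2 : ((blk κ (κ × Fin d) R).comp ((MonoidHom.id _).prodMap (copies κ d R))).comp
        (MonoidHom.inr (GL κ R) (GL κ R)) =
          (lower κ (κ × Fin d) R).comp (copies κ d R) := by
      apply MonoidHom.ext
      intro g
      rfl
    rw [e1, e2] at h1
    -- push into the big block
    have h2 := h1.push' (upper (κ ⊕ κ × Fin d) κ R)
    rw [map_sub, map_sub, ← push_comp, ← push_comp, ← push_comp] at h2
    have h3 : Null (push (n + 1) ((upper (κ ⊕ κ × Fin d) κ R).comp (upper κ (κ × Fin d) R)) z -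
        push (n + 1) (lower (κ ⊕ κ × Fin d) κ R) z) := by
      rw [← prmSw_upper (κ := κ) (μ := κ × Fin d), push_comp _ (gre R (prmSw κ (κ × Fin d)))]
      apply null_perm
      rw [bd_push, hz, map_zero]
    have h4 := ((null_lower (ι := κ) _).2 ih).gre' (Equiv.sumAssoc κ (κ × Fin d) κ).symm
    have a1 : ((gre R (Equiv.sumAssoc κ (κ × Fin d) κ).symm).comp
        (lower κ (κ × Fin d ⊕ κ) R)).comp ((upper (κ × Fin d) κ R).comp (copies κ d R)) =
          (upper (κ ⊕ κ × Fin d) κ R).comp ((lower κ (κ × Fin d) R).comp (copies κ d R)) :=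
      MonoidHom.ext fun g => DFunLike.congr_fun (prm_assoc (κ := κ) (μ := κ × Fin d))
        (copies κ d R g)
    have a2 : ((gre R (Equiv.sumAssoc κ (κ × Fin d) κ).symm).comp
        (lower κ (κ × Fin d ⊕ κ) R)).comp (lower (κ × Fin d) κ R) =
          lower (κ ⊕ κ × Fin d) κ R :=
      prm_assoc' (κ := κ) (μ := κ × Fin d)
    rw [map_sub, map_sub, map_smul, map_smul, ← push_comp, ← push_comp, ← push_comp, ← push_comp,
      a1, a2] at h4
    rw [← null_gre (Equiv.sumCongr (prmE κ d) (Equiv.refl κ)), map_sub, map_smul, ← push_comp,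
      ← push_comp]
    have a3 : (gre R (Equiv.sumCongr (prmE κ d) (Equiv.refl κ))).comp
        ((upper (κ × Fin (d + 1)) κ R).comp (copies κ (d + 1) R)) =
          (upper (κ ⊕ κ × Fin d) κ R).comp ((gre R (prmE κ d)).comp (copies κ (d + 1) R)) :=
      MonoidHom.ext fun g => DFunLike.congr_fun (prm_sumCongr (κ := κ) (prmE κ d))
        (copies κ (d + 1) R g)
    rw [a3, prm_sumCongr' (κ := κ) (prmE κ d)]
    have h5 := ((null_of_isBd h2).add h3).add h4
    have h6 : ((d + 1 : ℕ) : ℚ) = (d : ℚ) + 1 := by push_cast; ring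
    rw [h6, add_smul, one_smul]
    refine (congrArg Null ?_).mp h5
    abel

end Aux

theorem null_of_copies (z : Chain (GL (Fin m) R) (n + 1)) (hz : bd _ n z = 0)
    (hp : NullPair (primDefect z)) (d : ℕ) (hd : 0 < d)
    (h : Null (push (n + 1) (copies (Fin m) d R) z)) : Null z := by
  obtain ⟨k, hk⟩ := hp
  rw [← primDefect_push] at hk
  have hz' : bd _ n (push (n + 1) (upper (Fin m) (Fin k) R) z) = 0 := by
    rw [bd_push, hz, map_zero]
  have h1 := prm_claim _ hz' hk d
  have h2 : Null (push (n + 1) ((upper ((Fin m ⊕ Fin k) × Fin d) (Fin m ⊕ Fin k) R).comp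
      (copies (Fin m ⊕ Fin k) d R)) (push (n + 1) (upper (Fin m) (Fin k) R) z)) := by
    rw [push_comp, null_upper, ← push_comp, copies_upper, push_comp, null_gre, push_comp,
      null_upper]
    exact h
  have h3 := h2.sub h1
  rw [sub_sub_cancel, null_smul_iff (by exact_mod_cast hd.ne'), null_lower, null_upper] at h3
  exact h3

theorem null_cut_add (z : Chain (GL (Fin m) R) (n + 1)) (hp : NullPair (primDefect z))
    (e f : R) (he : e * e = e) (hf : f * f = f) (hef : e * f = 0)
    (hs : (e + f) * (e + f) = e + f) :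
    Null (push (n + 1) (cut (Fin m) (e + f) hs) z - push (n + 1) (cut (Fin m) e he) z -
      push (n + 1) (cut (Fin m) f hf) z) := by
  obtain ⟨k, hk⟩ := hp
  rw [← primDefect_push] at hk
  have h1 := isBd_of_prim _ hk ((cut (Fin m ⊕ Fin k) e he).noncommCoprod
    (cut (Fin m ⊕ Fin k) f hf) (fun g h => cut_commute e f he hf hef g h))
  have e1 : ((cut (Fin m ⊕ Fin k) e he).noncommCoprod
      (cut (Fin m ⊕ Fin k) f hf) (fun g h => cut_commute e f he hf hef g h)).comp
        ((MonoidHom.id _).prod (MonoidHom.id _)) = cut (Fin m ⊕ Fin k) (e + f) hs := by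
    apply MonoidHom.ext
    intro g
    exact cut_mul_cut e f he hf hef hs g
  have e2 : ((cut (Fin m ⊕ Fin k) e he).noncommCoprod
      (cut (Fin m ⊕ Fin k) f hf) (fun g h => cut_commute e f he hf hef g h)).comp
        (MonoidHom.inl _ _) = cut (Fin m ⊕ Fin k) e he := by
    apply MonoidHom.ext
    intro g
    change cut (Fin m ⊕ Fin k) e he g * cut (Fin m ⊕ Fin k) f hf 1 = _
    rw [map_one, mul_one]
  have e3 : ((cut (Fin m ⊕ Fin k) e he).noncommCoprod
      (cut (Fin m ⊕ Fin k) f hf) (fun g h => cut_commute e f he hf hef g h)).comp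
        (MonoidHom.inr _ _) = cut (Fin m ⊕ Fin k) f hf := by
    apply MonoidHom.ext
    intro g
    change cut (Fin m ⊕ Fin k) e he 1 * cut (Fin m ⊕ Fin k) f hf g = _
    rw [map_one, one_mul]
  rw [e1, e2, e3] at h1
  have hu : ∀ (a : R) (ha : a * a = a), push (n + 1) (cut (Fin m ⊕ Fin k) a ha)
      (push (n + 1) (upper (Fin m) (Fin k) R) z) =
        push (n + 1) (upper (Fin m) (Fin k) R) (push (n + 1) (cut (Fin m) a ha) z) := by
    intro a ha
    rw [← push_comp, ← push_comp, cut, nuMap_upper]
    rfl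
  rw [hu, hu, hu, ← map_sub, ← map_sub] at h1
  exact ⟨k, h1⟩

end Pool.Agent.KBS
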