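import Pool.Agent.KBS.Dsc
import Pool.Agent.KBS.Prm

/-! KBS-Fld. Restriction along a field extension is injective on rational K-theory (weak
Nullstellensatz and transfer along a finite extension). -/

set_option autoImplicit false

open Matrix

namespace Pool.Agent.KBS

section Res

variable {ι : Type} [Fintype ι] [DecidableEq ι]

/-- replacing the entries by matrices -/
private def fldResHom {A B : Type} [CommRing A] [CommRing B] {d : ℕ}
    (ρ : B →+* Matrix (Fin d) (Fin d) A) (ι : Type) [Fintype ι] [DecidableEq ι] :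
    GL ι B →* GL (ι × Fin d) A :=
  Units.map
    { toFun := fun M => Matrix.of fun p q : ι × Fin d => ρ (M p.1 q.1) p.2 q.2
      map_one' := by
        ext ⟨i, a⟩ ⟨j, b⟩
        simp only [Matrix.of_apply, Matrix.one_apply, Prod.mk.injEq]
        by_cases h : i = j
        · simp [h, Matrix.one_apply]
        · simp [h]
      map_mul' := fun M N => by
        ext ⟨i, a⟩ ⟨j, b⟩
        simp only [Matrix.of_apply, Matrix.mul_apply, map_sum, map_mul, Fintype.sum_prod_type,
          Matrix.sum_apply] }

private theorem fldResHom_apply {A B : Type} [CommRing A] [CommRing B] {d : ℕ}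
    (ρ : B →+* Matrix (Fin d) (Fin d) A) (g : GL ι B) (p q : ι × Fin d) :
    (fldResHom ρ ι g : Matrix (ι × Fin d) (ι × Fin d) A) p q =
      ρ ((g : Matrix ι ι B) p.1 q.1) p.2 q.2 := rfl

private theorem fldRes_upper {A B : Type} [CommRing A] [CommRing B] {d : ℕ}
    (ρ : B →+* Matrix (Fin d) (Fin d) A) (k : ℕ) :
    (gre A (Equiv.sumProdDistrib ι (Fin k) (Fin d))).comp
      ((fldResHom ρ (ι ⊕ Fin k)).comp (upper ι (Fin k) B)) =
    (upper (ι × Fin d) (Fin k × Fin d) A).comp (fldResHom ρ ι) := by
  ext g p q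
  have key : ((((gre A (Equiv.sumProdDistrib ι (Fin k) (Fin d))).comp
      ((fldResHom ρ (ι ⊕ Fin k)).comp (upper ι (Fin k) B))) g :
      GL ((ι × Fin d) ⊕ (Fin k × Fin d)) A) : Matrix _ _ A) p q =
      ρ ((Matrix.fromBlocks (g : Matrix ι ι B) 0 0 (1 : Matrix (Fin k) (Fin k) B))
        ((Equiv.sumProdDistrib ι (Fin k) (Fin d)).symm p).1
        ((Equiv.sumProdDistrib ι (Fin k) (Fin d)).symm q).1)
        ((Equiv.sumProdDistrib ι (Fin k) (Fin d)).symm p).2
        ((Equiv.sumProdDistrib ι (Fin k) (Fin d)).symm q).2 := rfl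
  have key2 : ((((upper (ι × Fin d) (Fin k × Fin d) A).comp (fldResHom ρ ι)) g :
      GL ((ι × Fin d) ⊕ (Fin k × Fin d)) A) : Matrix _ _ A) p q =
      (Matrix.fromBlocks (Matrix.of fun p q : ι × Fin d =>
        ρ ((g : Matrix ι ι B) p.1 q.1) p.2 q.2) 0 0
        (1 : Matrix (Fin k × Fin d) (Fin k × Fin d) A)) p q := rfl
  rw [key, key2]
  rcases p with ⟨i, a⟩ | ⟨i, a⟩ <;> rcases q with ⟨j, b⟩ | ⟨j, b⟩
  · simp
  · simp
  · simp
  · by_cases h : i = j
    · simp [h, Matrix.one_apply]
    · simp [h]

private theorem null_fldRes {A B : Type} [CommRing A] [CommRing B] {d n : ℕ}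
    (ρ : B →+* Matrix (Fin d) (Fin d) A) (y : Chain (GL ι B) n) (h : Null y) :
    Null (push n (fldResHom ρ ι) y) := by
  obtain ⟨k, hk⟩ := h
  have h1 := hk.push' ((gre A (Equiv.sumProdDistrib ι (Fin k) (Fin d))).comp
    (fldResHom ρ (ι ⊕ Fin k)))
  rw [← push_comp, MonoidHom.comp_assoc, fldRes_upper, push_comp] at h1
  exact (null_upper _).1 (null_of_isBd h1)

end Res

private theorem fld_null_of_finite {L L' : Type} [Field L] [Field L'] [Algebra L L']
    [Module.Finite L L'] {m n : ℕ}
    (z : Chain (GL (Fin m) L) (n + 1)) (hz : bd _ n z = 0) (hp : NullPair (primDefect z))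
    (h : Null (push (n + 1) (glMap (Fin m) (algebraMap L L')) z)) : Null z := by
  have h2 := null_fldRes (Algebra.leftMulMatrix (Module.finBasis L L')).toRingHom _ h
  rw [← push_comp] at h2
  have e : (fldResHom (Algebra.leftMulMatrix (Module.finBasis L L')).toRingHom (Fin m)).comp
      (glMap (Fin m) (algebraMap L L')) = copies (Fin m) (Module.finrank L L') L := by
    ext g p q
    obtain ⟨i, a⟩ := p
    obtain ⟨j, b⟩ := q
    have e2 : (Algebra.leftMulMatrix (Module.finBasis L L'))
        (algebraMap L L' ((g : Matrix (Fin m) (Fin m) L) i j)) =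
        algebraMap L _ ((g : Matrix (Fin m) (Fin m) L) i j) := AlgHom.commutes _ _
    change (Algebra.leftMulMatrix (Module.finBasis L L'))
        (algebraMap L L' ((g : Matrix (Fin m) (Fin m) L) i j)) a b =
      (g : Matrix (Fin m) (Fin m) L) i j * (1 : Matrix _ _ L) a b
    rw [e2, Matrix.algebraMap_matrix_apply, Matrix.one_apply]
    simp
  rw [e] at h2
  exact null_of_copies z hz hp _ Module.finrank_pos h2

theorem null_of_field_ext {L E : Type} [Field L] [Field E] (f : L →+* E) {m n : ℕ}
    (z : Chain (GL (Fin m) L) (n + 1)) (hz : bd _ n z = 0) (hp : NullPair (primDefect z))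
    (h : Null (push (n + 1) (glMap (Fin m) f) z)) : Null z := by
  let _ : Algebra L E := f.toAlgebra
  obtain ⟨S, hS⟩ := exists_null_descent (B := L) (E := E) f.injective z h
  have hft : Algebra.FiniteType L (Algebra.adjoin L (S : Set E)) :=
    (Subalgebra.fg_iff_finiteType _).1 (Subalgebra.fg_adjoin_finset S)
  generalize Algebra.adjoin L (S : Set E) = C at hS hft
  obtain ⟨M, hM⟩ := Ideal.exists_maximal C
  let _ : Field (C ⧸ M) := Ideal.Quotient.field M
  have _ : Algebra.FiniteType L (C ⧸ M) :=
    Algebra.FiniteType.of_surjective (Ideal.Quotient.mkₐ L M) (Ideal.Quotient.mkₐ_surjective L M)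
  have _ : Module.Finite L (C ⧸ M) :=
    finite_of_finite_type_of_isJacobsonRing L _
  have h1 := hS.map_gl (Ideal.Quotient.mk M)
  rw [← push_comp, glMap_comp'] at h1
  exact fld_null_of_finite (L' := C ⧸ M) z hz hp h1

theorem null_over_subring {F E : Type} [Field F] [Field E] (B : Subring F) (ψ : B →+* E)
    (hψ : Function.Injective ψ) {m n : ℕ} (z : Chain (GL (Fin m) B) (n + 1))
    (hz : bd _ n z = 0) (hp : NullPair (primDefect z))
    (h : Null (push (n + 1) (glMap (Fin m) ψ) z)) :
    Null (push (n + 1) (glMap (Fin m) B.subtype) z) := by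
  have e1 : (IsFractionRing.lift hψ : FractionRing B →+* E).comp
      (algebraMap B (FractionRing B)) = ψ := by
    ext x
    exact IsFractionRing.lift_algebraMap hψ x
  have hs : Function.Injective B.subtype := Subtype.val_injective
  have e2 : (IsFractionRing.lift hs : FractionRing B →+* F).comp
      (algebraMap B (FractionRing B)) = B.subtype := by
    ext x
    exact IsFractionRing.lift_algebraMap hs x
  have h3 : Null (push (n + 1) (glMap (Fin m) (algebraMap B (FractionRing B))) z) := by
    refine null_of_field_ext (IsFractionRing.lift hψ : FractionRing B →+* E) _ ?_ ?_ ?_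
    · rw [bd_push, hz, map_zero]
    · rw [primDefect_push, ← nuMap_coe]
      exact hp.map_nu _
    · rw [← push_comp, glMap_comp', e1]
      exact h
  have h4 := h3.map_gl (IsFractionRing.lift hs : FractionRing B →+* F)
  rw [← push_comp, glMap_comp', e2] at h4
  exact h4

end Pool.Agent.KBS
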