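import Pool.Agent.KBS.Bar

/-! KBS-Los. Los' theorem for chains.

Abstract setting: `G → Gi i` (`i ∈ I`) and `G → H` where `G` is (like) the product of the `Gi i`
and `H` is (like) their ultraproduct.

PLAN. (`chain_iff`) `c : Chain G n` has finite support `T`. If `push p c = 0`, let `J ∈ U` be the set
of all `i` such that for all `s, t ∈ T` with `p ∘ s = p ∘ t` one has `ev i ∘ s = ev i ∘ t` (finite
intersection). For `i ∈ J` the map `ev i` on `T` factors through `p`: `push (ev i) c` is a
`mapDomain` of `push p c = 0` (`Finsupp.mapDomain` of a function `F` defined on the image). Conversely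
if `push (ev i) c = 0` for almost all `i`, choose `i` in addition such that for `s, t ∈ T`:
`ev i ∘ s = ev i ∘ t → p ∘ s = p ∘ t` (the set of `i` where the pattern is the one of `p` is in `U`),
then `p` factors through `ev i` on `T`.
(`factor`: if `f s = f t → g s = g t` on the support of `c` and `mapDomain f c = 0` then
`mapDomain g c = 0`.)
(`chain_lift`) By `U` the number of terms is constant `≤ M` and the coefficients (finitely many
possible values, heights `≤ M`) are constant; write `b i = Σ_{s < r} q_s [t_s i]`, lift the tuples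
by `lift`. -/

set_option autoImplicit false

open Filter

namespace Pool.Agent.KBS

/-- `G` is a product of the groups `Gi i` and `H` their ultraproduct. -/
structure UltraGroup {I : Type} (U : Ultrafilter I) (G : Type) [Group G] (Gi : I → Type)
    [∀ i, Group (Gi i)] (H : Type) [Group H] (ev : ∀ i, G →* Gi i) (p : G →* H) : Prop where
  lift : ∀ g : ∀ i, Gi i, ∃ x : G, ∀ i, ev i x = g i
  surj : Function.Surjective p
  eq_iff : ∀ x y : G, p x = p y ↔ ∀ᶠ i in (U : Filter I), ev i x = ev i y

theorem mapDomain_eq_zero_of_factor {α β γ : Type} (c : α →₀ ℚ) (f : α → β) (g : α → γ)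
    (h : ∀ s ∈ c.support, ∀ t ∈ c.support, f s = f t → g s = g t)
    (h0 : Finsupp.mapDomain f c = 0) : Finsupp.mapDomain g c = 0 := by
  classical
  rcases c.support.eq_empty_or_nonempty with he | ⟨s0, hs0⟩
  · rw [Finsupp.support_eq_empty] at he
    rw [he, Finsupp.mapDomain_zero]
  · let F : β → γ := fun b =>
      if hb : ∃ s ∈ c.support, f s = b then g hb.choose else g s0
    have hF : ∀ s ∈ c.support, g s = F (f s) := by
      intro s hs
      have hb : ∃ t ∈ c.support, f t = f s := ⟨s, hs, rfl⟩
      have : F (f s) = g hb.choose := dif_pos hb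
      rw [this]
      exact h s hs _ hb.choose_spec.1 hb.choose_spec.2.symm
    have h1 : Finsupp.mapDomain g c = Finsupp.mapDomain (F ∘ f) c :=
      Finsupp.mapDomain_congr hF
    rw [h1, Finsupp.mapDomain_comp, h0, Finsupp.mapDomain_zero]

variable {I : Type} {U : Ultrafilter I} {G : Type} [Group G] {Gi : I → Type}
  [∀ i, Group (Gi i)] {H : Type} [Group H] {ev : ∀ i, G →* Gi i} {p : G →* H} {n : ℕ}

theorem UltraGroup.chain_iff (h : UltraGroup U G Gi H ev p) (c : Chain G n) :
    push n p c = 0 ↔ ∀ᶠ i in (U : Filter I), push n (ev i) c = 0 := by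
  have key : ∀ s t : Fin n → G, ((fun i => p (s i)) = fun i => p (t i)) ↔
      ∀ᶠ i in (U : Filter I), (fun j => ev i (s j)) = fun j => ev i (t j) := by
    intro s t
    constructor
    · intro hst
      have h1 : ∀ j, ∀ᶠ i in (U : Filter I), ev i (s j) = ev i (t j) := fun j =>
        (h.eq_iff _ _).1 (congrFun hst j)
      have h2 : ∀ᶠ i in (U : Filter I), ∀ j, ev i (s j) = ev i (t j) :=
        Filter.eventually_all.2 h1
      exact h2.mono fun i hi => funext hi
    · intro hst
      funext j
      exact (h.eq_iff _ _).2 (hst.mono fun i hi => congrFun hi j)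
  constructor
  · intro h0
    have h1 : ∀ s ∈ c.support, ∀ᶠ i in (U : Filter I), ∀ t ∈ c.support,
        ((fun i => p (s i)) = fun i => p (t i)) →
          (fun j => ev i (s j)) = fun j => ev i (t j) := by
      intro s _
      refine (Filter.eventually_all_finset _).2 fun t _ => ?_
      by_cases hst : (fun i => p (s i)) = fun i => p (t i)
      · exact ((key s t).1 hst).mono fun i hi _ => hi
      · exact Filter.Eventually.of_forall fun i hi => absurd hi hst
    have h2 := (Filter.eventually_all_finset _).2 h1
    refine h2.mono fun i hi => ?_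
    exact mapDomain_eq_zero_of_factor c _ _ hi h0
  · intro h0
    have h1 : ∀ s ∈ c.support, ∀ᶠ i in (U : Filter I), ∀ t ∈ c.support,
        ((fun j => ev i (s j)) = fun j => ev i (t j)) →
          (fun i => p (s i)) = fun i => p (t i) := by
      intro s _
      refine (Filter.eventually_all_finset _).2 fun t _ => ?_
      by_cases hst : (fun i => p (s i)) = fun i => p (t i)
      · exact Filter.Eventually.of_forall fun i _ => hst
      · have hn : ∀ᶠ i in (U : Filter I), ¬ ((fun j => ev i (s j)) = fun j => ev i (t j)) := by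
          rw [Ultrafilter.eventually_not]
          exact fun hh => hst ((key s t).2 hh)
        exact hn.mono fun i hi hh => absurd hh hi
    have h2 := (Filter.eventually_all_finset _).2 h1
    obtain ⟨i, hi, hi0⟩ := (h2.and h0).exists
    exact mapDomain_eq_zero_of_factor c _ _ hi hi0

theorem UltraGroup.chain_surj (h : UltraGroup U G Gi H ev p) (b : Chain H n) :
    ∃ c : Chain G n, push n p c = b := by
  have hs : Function.Surjective (fun (g : Fin n → G) i => p (g i)) := by
    intro t
    choose g hg using fun i => h.surj (t i)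
    exact ⟨g, funext hg⟩
  exact Finsupp.mapDomain_surjective hs b

/-- bounded size, as in `Bdd` of Defs (repeated here to keep this file independent) -/
def Bdd' {G : Type} {n : ℕ} (N : ℕ) (c : Chain G n) : Prop :=
  c.support.card ≤ N ∧ ∀ t, |(c t).num| ≤ N ∧ (c t).den ≤ N

/-- the rationals of bounded height -/
private def ratBox (M : ℕ) : Set ℚ := {q | |q.num| ≤ M ∧ q.den ≤ M}

private theorem ratBox_finite (M : ℕ) : (ratBox M).Finite := by
  have h1 : ((Set.Icc (-(M : ℤ)) M) ×ˢ (Set.Iic M : Set ℕ)).Finite :=
    (Set.finite_Icc _ _).prod (Set.finite_Iic _)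
  refine Set.Finite.of_finite_image (f := fun q : ℚ => (q.num, q.den)) (h1.subset ?_) ?_
  · rintro _ ⟨q, hq, rfl⟩
    exact ⟨⟨(abs_le.1 hq.1).1, (abs_le.1 hq.1).2⟩, hq.2⟩
  · intro q _ r _ hqr
    simp only [Prod.mk.injEq] at hqr
    exact Rat.ext hqr.1 hqr.2

/-- a chain of bounded size is a sum of `M` terms with coefficients in a finite set -/
private theorem exists_repr {K : Type} [Group K] (M : ℕ) (b : Chain K n) (hb : Bdd' M b) :
    ∃ (t : Fin M → Fin n → K) (q : Fin M → ℚ), (∀ s, q s ∈ insert 0 (ratBox M)) ∧
      b = ∑ s, Finsupp.single (t s) (q s) := by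
  classical
  obtain ⟨hc, hq⟩ := hb
  let e := b.support.equivFin.symm
  let t : ℕ → Fin n → K := fun k => if hk : k < b.support.card then (e ⟨k, hk⟩).1 else 1
  let q : ℕ → ℚ := fun k => if hk : k < b.support.card then b (e ⟨k, hk⟩).1 else 0
  refine ⟨fun s => t s, fun s => q s, ?_, ?_⟩
  · intro s
    by_cases hk : (s : ℕ) < b.support.card
    · have : q s = b (e ⟨s, hk⟩).1 := dif_pos hk
      change q s ∈ _
      rw [this]
      exact Set.mem_insert_of_mem _ (hq _)
    · have : q s = 0 := dif_neg hk
      change q s ∈ _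
      rw [this]
      exact Set.mem_insert _ _
  · have h1 : ∑ s : Fin M, Finsupp.single (t s) (q s) =
        ∑ k ∈ Finset.range M, Finsupp.single (t k) (q k) :=
      (Finset.sum_range fun k => Finsupp.single (t k) (q k)).symm
    have h2 : ∑ k ∈ Finset.range M, Finsupp.single (t k) (q k) =
        ∑ k ∈ Finset.range b.support.card, Finsupp.single (t k) (q k) := by
      symm
      refine Finset.sum_subset (Finset.range_subset_range.2 hc) ?_
      intro k _ hk
      have hk' : ¬ k < b.support.card := fun hh => hk (Finset.mem_range.2 hh)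
      have : q k = 0 := dif_neg hk'
      rw [this, Finsupp.single_zero]
    have h3 : ∑ k ∈ Finset.range b.support.card, Finsupp.single (t k) (q k) =
        ∑ s : Fin b.support.card, Finsupp.single (e s).1 (b (e s).1) := by
      rw [Finset.sum_range]
      refine Finset.sum_congr rfl fun s _ => ?_
      have e1 : t s = (e s).1 := dif_pos s.2
      have e2 : q s = b (e s).1 := dif_pos s.2
      rw [e1, e2]
    have h4 : ∑ s : Fin b.support.card, Finsupp.single (e s).1 (b (e s).1) =
        ∑ x : b.support, Finsupp.single x.1 (b x.1) :=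
      Equiv.sum_comp e fun x : b.support => Finsupp.single x.1 (b x.1)
    have h5 : ∑ x : b.support, Finsupp.single x.1 (b x.1) =
        ∑ x ∈ b.support, Finsupp.single x (b x) :=
      Finset.sum_coe_sort b.support fun x => Finsupp.single x (b x)
    rw [h1, h2, h3, h4, h5]
    exact (Finsupp.sum_single b).symm

theorem UltraGroup.chain_lift (h : UltraGroup U G Gi H ev p) (M : ℕ) (b : ∀ i, Chain (Gi i) n)
    (hb : ∀ᶠ i in (U : Filter I), Bdd' M (b i)) :
    ∃ c : Chain G n, ∀ᶠ i in (U : Filter I), push n (ev i) c = b i := by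
  classical
  have h0 : ∀ i, ∃ (t : Fin M → Fin n → Gi i) (q : Fin M → ℚ),
      Bdd' M (b i) → ((∀ s, q s ∈ insert 0 (ratBox M)) ∧
      b i = ∑ s, Finsupp.single (t s) (q s)) := by
    intro i
    by_cases hi : Bdd' M (b i)
    · obtain ⟨t, q, h1, h2⟩ := exists_repr M (b i) hi
      exact ⟨t, q, fun _ => ⟨h1, h2⟩⟩
    · exact ⟨1, 0, fun hh => absurd hh hi⟩
  choose t q htq using h0
  have hfin : (Set.univ.pi fun _ : Fin M => insert (0 : ℚ) (ratBox M)).Finite :=
    Set.Finite.pi fun _ => (ratBox_finite M).insert 0
  have h1 : ∀ᶠ i in (U : Filter I), ∃ r ∈ (Set.univ.pi fun _ : Fin M =>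
      insert (0 : ℚ) (ratBox M)), q i = r := by
    refine hb.mono fun i hi => ⟨q i, ?_, rfl⟩
    intro s _
    exact (htq i hi).1 s
  have h2 : ∃ r : Fin M → ℚ, ∀ᶠ i in (U : Filter I), q i = r := by
    have h3 : (⋃ r ∈ (Set.univ.pi fun _ : Fin M => insert (0 : ℚ) (ratBox M)),
        {i | q i = r}) ∈ U := by
      have : {i | ∃ r ∈ (Set.univ.pi fun _ : Fin M => insert (0 : ℚ) (ratBox M)), q i = r} =
        (⋃ r ∈ (Set.univ.pi fun _ : Fin M => insert (0 : ℚ) (ratBox M)), {i | q i = r}) := by
        ext i
        simp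
      rw [← this]
      exact h1
    obtain ⟨r, _, hr⟩ := (Ultrafilter.finite_biUnion_mem_iff hfin).1 h3
    exact ⟨r, hr⟩
  obtain ⟨r, hr⟩ := h2
  choose T hT using fun (s : Fin M) (j : Fin n) => h.lift fun i => t i s j
  refine ⟨∑ s, Finsupp.single (T s) (r s), ?_⟩
  refine (hb.and hr).mono fun i hi => ?_
  rw [map_sum, (htq i hi.1).2]
  refine Finset.sum_congr rfl fun s _ => ?_
  rw [push_single, hi.2]
  congr 1
  funext j
  exact hT s j i

/-- all images of a chain are uniformly bounded -/
theorem exists_bdd_push (c : Chain G n) :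
    ∃ M : ℕ, ∀ (K : Type) (_ : Group K) (f : G →* K), Bdd' M (push n f c) := by
  classical
  let a : Finset (Fin n → G) → ℚ := fun S => ∑ s ∈ S, c s
  let M : ℕ := c.support.card + ∑ S ∈ c.support.powerset, ((a S).num.natAbs + (a S).den)
  have hM : ∀ S ⊆ c.support, (a S).num.natAbs + (a S).den ≤ M := by
    intro S hS
    have := Finset.single_le_sum (f := fun S => (a S).num.natAbs + (a S).den)
      (fun _ _ => Nat.zero_le _) (Finset.mem_powerset.2 hS)
    exact this.trans (Nat.le_add_left _ _)
  refine ⟨M, fun K _ f => ⟨?_, ?_⟩⟩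
  · rw [push_apply]
    refine (Finset.card_le_card Finsupp.mapDomain_support).trans ?_
    exact Finset.card_image_le.trans (Nat.le_add_right _ _)
  · intro t
    have h1 : push n f c t = a (c.support.filter fun s => (fun i => f (s i)) = t) := by
      rw [push_apply, Finsupp.mapDomain, Finsupp.sum_apply, Finsupp.sum]
      simp only [a]
      rw [Finset.sum_filter]
      refine Finset.sum_congr rfl fun s _ => ?_
      rw [Finsupp.single_apply]
    have h2 := hM _ (Finset.filter_subset (fun s => (fun i => f (s i)) = t) c.support)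
    rw [h1]
    refine ⟨?_, ?_⟩
    · rw [Int.abs_eq_natAbs]
      exact_mod_cast (Nat.le_add_right _ _).trans h2
    · exact (Nat.le_add_left _ _).trans h2

end Pool.Agent.KBS
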