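import Pool.Agent.KBS.Ult

/-! KBS-LosF. Los' theorem for fillings and for classes.

PLAN. (`null_of_fillLE`) the numbers `k i ≤ M` are almost everywhere equal to one `k`; lift the
filling chains by `chain_lift` to `b` over the product; `bd b - push (upper) z` has almost all
components `0`, hence image `0` over `K` (`chain_iff`); so `push π b` fills. (`fillLE_of_null`) lift
the filling over `K` by `chain_surj`, `chain_iff` the other way, and `exists_bdd_push` for the size.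
(`exists_class`) `m i ≤ N` is almost everywhere constant `m0`; transport `z i` to `m0`, lift
`z i` (bounded by `N`) and both witnesses (also with constant `k`) and apply `chain_iff` for the
cycle condition, the primitive condition (pair groups) and the weight condition. `Bdd = Bdd'`
definitionally. -/

set_option autoImplicit false

open Filter Matrix

namespace Pool.Agent.KBS

variable {I : Type} {U : Ultrafilter I} {F : I → Type} [∀ i, Field (F i)] {K : Type} [Field K]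
  {π : (∀ i, F i) →+* K} {m n w : ℕ}

private theorem ev_pigeon {P : ℕ → I → Prop} {M : ℕ}
    (h : ∀ᶠ i in (U : Filter I), ∃ k ≤ M, P k i) : ∃ k ≤ M, ∀ᶠ i in (U : Filter I), P k i := by
  have h1 : (⋃ k ∈ Set.Iic M, {i | P k i}) ∈ U := by
    refine mem_of_superset h ?_
    rintro i ⟨k, hk, hki⟩
    exact Set.mem_biUnion hk hki
  rw [Ultrafilter.finite_biUnion_mem_iff (Set.finite_Iic M)] at h1
  obtain ⟨k, hk, hk'⟩ := h1
  exact ⟨k, hk, hk'⟩

section abstr

variable {G : Type} [Group G] {Gi : I → Type} [∀ i, Group (Gi i)] {H : Type} [Group H]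
  {ev : ∀ i, G →* Gi i} {p : G →* H}

private theorem isBd_of_ae (hG : UltraGroup U G Gi H ev p) (x : Chain G n) (M : ℕ)
    (hx : ∀ᶠ i in (U : Filter I), ∃ b : Chain (Gi i) (n + 1), Bdd' M b ∧
      bd (Gi i) n b = push n (ev i) x) : IsBd (push n p x) := by
  classical
  have h1 : ∀ i, ∃ b : Chain (Gi i) (n + 1), (∃ b : Chain (Gi i) (n + 1), Bdd' M b ∧
      bd (Gi i) n b = push n (ev i) x) → (Bdd' M b ∧ bd (Gi i) n b = push n (ev i) x) := by
    intro i
    by_cases hi : ∃ b : Chain (Gi i) (n + 1), Bdd' M b ∧ bd (Gi i) n b = push n (ev i) x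
    · obtain ⟨b, hb⟩ := hi
      exact ⟨b, fun _ => hb⟩
    · exact ⟨0, fun h => absurd h hi⟩
  choose b hb using h1
  obtain ⟨c, hc⟩ := hG.chain_lift M b (hx.mono fun i hi => (hb i hi).1)
  have h2 : push n p (bd G n c - x) = 0 := by
    rw [hG.chain_iff]
    filter_upwards [hx, hc] with i hi hci
    rw [map_sub, ← bd_push, hci, (hb i hi).2, sub_self]
  refine ⟨push (n + 1) p c, ?_⟩
  rw [map_sub, sub_eq_zero] at h2
  rw [bd_push, h2]

private theorem ae_of_isBd (hG : UltraGroup U G Gi H ev p) (x : Chain G n)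
    (hx : IsBd (push n p x)) : ∃ M : ℕ, ∀ᶠ i in (U : Filter I),
      ∃ b : Chain (Gi i) (n + 1), Bdd' M b ∧ bd (Gi i) n b = push n (ev i) x := by
  obtain ⟨b, hb⟩ := hx
  obtain ⟨c, hc⟩ := hG.chain_surj b
  obtain ⟨M, hM⟩ := exists_bdd_push c
  refine ⟨M, ?_⟩
  have h2 : push n p (bd G n c - x) = 0 := by
    rw [map_sub, ← bd_push, hc, hb, sub_self]
  rw [hG.chain_iff] at h2
  filter_upwards [h2] with i hi
  refine ⟨push (n + 1) (ev i) c, hM _ _ _, ?_⟩
  rw [map_sub, sub_eq_zero] at hi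
  rw [bd_push, hi]

end abstr

private theorem bdd_mono {G : Type} {k M M' : ℕ} (h : M ≤ M') {b : Chain G k}
    (hb : Bdd' M b) : Bdd M' b :=
  ⟨hb.1.trans h, fun t => ⟨(hb.2 t).1.trans (by exact_mod_cast h), (hb.2 t).2.trans h⟩⟩

private theorem push_upper_gl {R S : Type} [CommRing R] [CommRing S] {ι κ : Type} [Fintype ι]
    [DecidableEq ι] [Fintype κ] [DecidableEq κ] (f : R →+* S) (z : Chain (GL ι R) n) :
    push n (glMap (ι ⊕ κ) f) (push n (upper ι κ R) z) =
      push n (upper ι κ S) (push n (glMap ι f) z) := by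
  rw [← push_comp, glMap_upper, push_comp]

private theorem push_pair_gl {R S : Type} [CommRing R] [CommRing S] {ι κ : Type} [Fintype ι]
    [DecidableEq ι] [Fintype κ] [DecidableEq κ] (f : R →+* S) (z : Chain (GL ι R) n) :
    push n ((glMap (ι ⊕ κ) f).prodMap (glMap (ι ⊕ κ) f))
      (push n ((upper ι κ R).prodMap (upper ι κ R)) (primDefect z)) =
      push n ((upper ι κ S).prodMap (upper ι κ S)) (primDefect (push n (glMap ι f) z)) := by
  rw [primDefect_push, ← push_comp, ← push_comp]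
  have h : ((glMap (ι ⊕ κ) f).prodMap (glMap (ι ⊕ κ) f)).comp
      ((upper ι κ R).prodMap (upper ι κ R)) =
      ((upper ι κ S).prodMap (upper ι κ S)).comp ((glMap ι f).prodMap (glMap ι f)) := by
    apply MonoidHom.ext
    intro x
    exact Prod.ext (DFunLike.congr_fun (glMap_upper (ι := ι) (κ := κ) f) x.1)
      (DFunLike.congr_fun (glMap_upper (ι := ι) (κ := κ) f) x.2)
  rw [h]

private theorem weight_gl {R S : Type} [CommRing R] [CommRing S] (f : R →+* S)
    (z : Chain (GL (Fin m) R) n) :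
    weightDefect w (push n (glMap (Fin m) f) z) = push n (glMap _ f) (weightDefect w z) := by
  rw [← nuMap_coe, ← nuMap_coe]
  exact weightDefect_push _ z

private theorem transport {R : Type} [CommRing R] {N m' m0 : ℕ} (hm : m' = m0)
    (zz : Chain (GL (Fin m') R) (n + 1)) (hz : IsClassLE N w zz) :
    ∃ z' : Chain (GL (Fin m0) R) (n + 1), IsClassLE N w z' ∧ ∀ M, FillLE M z' → FillLE M zz := by
  subst hm
  exact ⟨zz, hz, fun _ h => h⟩

theorem null_of_fillLE (h : IsUltra U F K π) (z : Chain (GL (Fin m) (∀ i, F i)) n) (M : ℕ)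
    (hz : ∀ᶠ i in (U : Filter I), FillLE M (push n (glMap (Fin m) (Pi.evalRingHom F i)) z)) :
    Null (push n (glMap (Fin m) π) z) := by
  have h1 : ∀ᶠ i in (U : Filter I), ∃ k ≤ M, ∃ b : Chain (GL (Fin m ⊕ Fin k) (F i)) (n + 1),
      Bdd' M b ∧ bd _ n b = push n (glMap (Fin m ⊕ Fin k) (Pi.evalRingHom F i))
        (push n (upper (Fin m) (Fin k) (∀ i, F i)) z) := by
    filter_upwards [hz] with i hi
    obtain ⟨k, hk, b, hb, hbz⟩ := hi
    exact ⟨k, hk, b, hb, by rw [push_upper_gl]; exact hbz⟩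
  obtain ⟨k, hk, h2⟩ := ev_pigeon h1
  have h3 := isBd_of_ae (h.ultraGroup_gl (Fin m ⊕ Fin k)) _ M h2
  rw [push_upper_gl] at h3
  exact ⟨k, h3⟩

theorem fillLE_of_null (h : IsUltra U F K π) (z : Chain (GL (Fin m) (∀ i, F i)) n)
    (hz : Null (push n (glMap (Fin m) π) z)) :
    ∃ M : ℕ, ∀ᶠ i in (U : Filter I),
      FillLE M (push n (glMap (Fin m) (Pi.evalRingHom F i)) z) := by
  obtain ⟨k, hk⟩ := hz
  rw [← push_upper_gl] at hk
  obtain ⟨M, hM⟩ := ae_of_isBd (h.ultraGroup_gl (Fin m ⊕ Fin k)) _ hk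
  refine ⟨max k M, ?_⟩
  filter_upwards [hM] with i hi
  obtain ⟨b, hb, hbz⟩ := hi
  refine ⟨k, le_max_left _ _, b, bdd_mono (le_max_right _ _) hb, ?_⟩
  rw [← push_upper_gl]
  exact hbz

theorem FillLE.mono {R : Type} [CommRing R] {M M' : ℕ} (h : M ≤ M')
    {z : Chain (GL (Fin m) R) n} (hz : FillLE M z) : FillLE M' z := by
  obtain ⟨k, hk, b, hb, hbz⟩ := hz
  exact ⟨k, hk.trans h, b, ⟨hb.1.trans h, fun t => ⟨(hb.2 t).1.trans (by exact_mod_cast h),
    (hb.2 t).2.trans h⟩⟩, hbz⟩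

/-- all images of a class under ring homomorphisms are classes with data of bounded size -/
theorem IsClass.exists_le {R : Type} [CommRing R] {z : Chain (GL (Fin m) R) (n + 1)}
    (h : IsClass w z) : ∃ N : ℕ, ∀ (S : Type) (_ : CommRing S) (f : R →+* S),
      IsClassLE N w (push (n + 1) (glMap (Fin m) f) z) := by
  obtain ⟨k1, b1, hb1⟩ := h.primitive
  obtain ⟨k2, b2, hb2⟩ := h.weight
  obtain ⟨M0, hM0⟩ := exists_bdd_push z
  obtain ⟨M1, hM1⟩ := exists_bdd_push b1
  obtain ⟨M2, hM2⟩ := exists_bdd_push b2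
  refine ⟨m + M0 + k1 + M1 + k2 + M2, ?_⟩
  intro S _ f
  refine ⟨by omega, bdd_mono (by omega) (hM0 _ _ _), ?_, ?_, ?_⟩
  · rw [bd_push, h.cycle, map_zero]
  · refine ⟨k1, by omega, push (n + 2) ((glMap _ f).prodMap (glMap _ f)) b1,
      bdd_mono (by omega) (hM1 _ _ _), ?_⟩
    rw [bd_push, hb1, push_pair_gl]
  · refine ⟨k2, by omega, push (n + 2) (glMap _ f) b2, bdd_mono (by omega) (hM2 _ _ _), ?_⟩
    rw [bd_push, hb2, push_upper_gl, weight_gl]

theorem exists_class (h : IsUltra U F K π) (N : ℕ) (m : I → ℕ)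
    (z : ∀ i, Chain (GL (Fin (m i)) (F i)) (n + 1)) (hz : ∀ i, IsClassLE N w (z i)) :
    ∃ (m0 : ℕ) (z0 : Chain (GL (Fin m0) (∀ i, F i)) (n + 1)),
      IsClass w (push (n + 1) (glMap (Fin m0) π) z0) ∧
        ∀ᶠ i in (U : Filter I), ∀ M : ℕ,
          FillLE M (push (n + 1) (glMap (Fin m0) (Pi.evalRingHom F i)) z0) → FillLE M (z i) := by
  obtain ⟨m0, -, hm0⟩ := ev_pigeon (U := U) (P := fun k i => m i = k) (M := N)
    (Eventually.of_forall fun i => ⟨m i, (hz i).size, rfl⟩)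
  have h1 : ∀ i, ∃ z' : Chain (GL (Fin m0) (F i)) (n + 1), m i = m0 →
      (IsClassLE N w z' ∧ ∀ M, FillLE M z' → FillLE M (z i)) := by
    intro i
    by_cases hi : m i = m0
    · obtain ⟨z', hz'⟩ := transport hi (z i) (hz i)
      exact ⟨z', fun _ => hz'⟩
    · exact ⟨0, fun h => absurd h hi⟩
  choose z' hz' using h1
  have hcl : ∀ᶠ i in (U : Filter I), IsClassLE N w (z' i) := hm0.mono fun i hi => (hz' i hi).1
  obtain ⟨z0, hz0⟩ := (h.ultraGroup_gl (Fin m0)).chain_lift N z' (hcl.mono fun i hi => hi.bdd)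
  refine ⟨m0, z0, ⟨?_, ?_, ?_⟩, ?_⟩
  · rw [bd_push, (h.ultraGroup_gl (Fin m0)).chain_iff]
    filter_upwards [hcl, hz0] with i hi hi0
    rw [← bd_push, hi0]
    exact hi.cycle
  · have h2 : ∀ᶠ i in (U : Filter I), ∃ k ≤ N,
        ∃ b : Chain (GL (Fin m0 ⊕ Fin k) (F i) × GL (Fin m0 ⊕ Fin k) (F i)) (n + 2),
        Bdd' N b ∧ bd _ (n + 1) b = push (n + 1)
          ((glMap (Fin m0 ⊕ Fin k) (Pi.evalRingHom F i)).prodMap
            (glMap (Fin m0 ⊕ Fin k) (Pi.evalRingHom F i)))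
          (push (n + 1) ((upper (Fin m0) (Fin k) (∀ i, F i)).prodMap
            (upper (Fin m0) (Fin k) (∀ i, F i))) (primDefect z0)) := by
      filter_upwards [hcl, hz0] with i hi hi0
      obtain ⟨k, hk, b, hb, hbz⟩ := hi.primitive
      refine ⟨k, hk, b, hb, ?_⟩
      rw [push_pair_gl, hi0]
      exact hbz
    obtain ⟨k, hk, h3⟩ := ev_pigeon h2
    have h4 := isBd_of_ae (h.ultraGroup_pair (Fin m0 ⊕ Fin k)) _ N h3
    rw [push_pair_gl] at h4
    exact ⟨k, h4⟩
  · have h2 : ∀ᶠ i in (U : Filter I), ∃ k ≤ N,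
        ∃ b : Chain (GL (((Fin m0 × Fin m0) ⊕ (Pairs m0 ⊕ Fin m0)) ⊕ Fin k) (F i)) (n + 2),
        Bdd' N b ∧ bd _ (n + 1) b = push (n + 1) (glMap _ (Pi.evalRingHom F i))
          (push (n + 1) (upper _ (Fin k) (∀ i, F i)) (weightDefect w z0)) := by
      filter_upwards [hcl, hz0] with i hi hi0
      obtain ⟨k, hk, b, hb, hbz⟩ := hi.weight
      refine ⟨k, hk, b, hb, ?_⟩
      rw [push_upper_gl, ← weight_gl, hi0]
      exact hbz
    obtain ⟨k, hk, h3⟩ := ev_pigeon h2
    have h4 := isBd_of_ae (h.ultraGroup_gl _) _ N h3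
    rw [push_upper_gl, ← weight_gl] at h4
    exact ⟨k, h4⟩
  · filter_upwards [hm0, hz0] with i hi hi0 M hM
    rw [hi0] at hM
    exact (hz' i hi).2 M hM

end Pool.Agent.KBS
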