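import Pool.Agent.KBS.LosF

/-! KBS-TB. Vanishing for all fields of characteristic zero implies uniform filling.

PLAN. If `Uniform` fails there are `N` and for every `M : ℕ` a prime `p M`, `m M` and `z M` over
`ZMod (p M)` with `IsClassLE N w (z M)` and not `FillLE M (z M)`. Take the ultraproduct `E` of the
`ZMod (p M)` along `U = Filter.hyperfilter ℕ`; it is of characteristic zero or finite
(`IsUltra.charZero_or_finite`), so `Vanishes E n w` (hypothesis, resp. `vanishes_of_finite`).
`exists_class` gives `z0` with `IsClass w (push π z0)`, so it is null, `fillLE_of_null` gives `M1`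
with `FillLE M1 (push ev_M z0)` and hence `FillLE M1 (z M)` for almost all `M`; take one with
`M ≥ M1` (`FillLE.mono`): contradiction. For `UniformClosure` the failure gives for every `M` a
bound `q M` such that every prime `p ≥ q M` is bad for `M`: take `p M ≥ max (q M) M`; the
ultraproduct of the algebraic closures has characteristic zero by `IsUltra.charZero`. -/

set_option autoImplicit false

open Filter Matrix

namespace Pool.Agent.KBS

private theorem contra_aux {n w N : ℕ} {F : ℕ → Type} [∀ i, Field (F i)] {K : Type} [Field K]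
    {π : (∀ i, F i) →+* K} (hK : IsUltra (hyperfilter ℕ) F K π) (hv : Vanishes K n w)
    (m : ℕ → ℕ) (z : ∀ i, Chain (GL (Fin (m i)) (F i)) (n + 1))
    (hz : ∀ i, IsClassLE N w (z i)) (hn : ∀ i, ¬ FillLE i (z i)) : False := by
  obtain ⟨m0, z0, hcl, hev⟩ := exists_class hK N m z hz
  obtain ⟨M1, hM1⟩ := fillLE_of_null hK z0 (hv m0 _ hcl)
  have h1 : ∀ᶠ M in atTop, M1 ≤ M := eventually_ge_atTop M1
  obtain ⟨M, ⟨hM2, hM3⟩, hM4⟩ :=
    ((hev.and hM1).and (h1.filter_mono Nat.hyperfilter_le_atTop)).exists
  exact hn M ((hM2 M1 hM3).mono hM4)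

theorem uniform_of_vanishes {n w : ℕ}
    (h : ∀ (F : Type) (_ : Field F) (_ : CharZero F), Vanishes F n w) : Uniform n w := by
  by_contra hU
  unfold Uniform at hU
  push Not at hU
  obtain ⟨N, hN⟩ := hU
  choose p hp m z hz hn using hN
  obtain ⟨K, instK, π, hK⟩ := exists_ultra (hyperfilter ℕ) (fun M => ZMod (p M))
  have hv : Vanishes K n w := by
    rcases hK.charZero_or_finite with h0 | h0
    · exact h K instK h0
    · exact vanishes_of_finite
  exact contra_aux hK hv m z hz hn

theorem uniformClosure_of_vanishes {n w : ℕ}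
    (h : ∀ (F : Type) (_ : Field F) (_ : CharZero F), Vanishes F n w) : UniformClosure n w := by
  by_contra hU
  unfold UniformClosure at hU
  push Not at hU
  obtain ⟨N, hN⟩ := hU
  choose q hq using hN
  have hp0 : ∀ M, ∃ p : ℕ, max (q M) M ≤ p ∧ p.Prime := fun M =>
    Nat.exists_infinite_primes _
  choose p hle hpr using hp0
  have hN' : ∀ M, ∃ (m : ℕ), ∃ z : Chain (GL (Fin m) (@AlgebraicClosure (ZMod (p M))
      (@ZMod.instField (p M) ⟨hpr M⟩))) (n + 1), IsClassLE N w z ∧ ¬ FillLE M z := fun M =>
    hq M (p M) ⟨hpr M⟩ ((le_max_left _ _).trans (hle M))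
  haveI : ∀ M, Fact (p M).Prime := fun M => ⟨hpr M⟩
  choose m z hz hn using hN'
  obtain ⟨K, instK, π, hK⟩ := exists_ultra (hyperfilter ℕ)
    (fun M => AlgebraicClosure (ZMod (p M)))
  have h0 : CharZero K := by
    refine hK.charZero fun k hk => ?_
    have h1 : ∀ᶠ M in atTop, k < M := eventually_gt_atTop k
    refine (h1.filter_mono Nat.hyperfilter_le_atTop).mono fun M hM h2 => ?_
    have hc : CharP (AlgebraicClosure (ZMod (p M))) (p M) := inferInstance
    have h3 := (CharP.cast_eq_zero_iff (AlgebraicClosure (ZMod (p M))) (p M) k).1 h2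
    have h4 := Nat.le_of_dvd hk h3
    have h5 := (le_max_right (q M) M).trans (hle M)
    omega
  exact contra_aux hK (h K instK h0) m z hz hn

end Pool.Agent.KBS
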