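import Pool.Agent.KBS.Ult
import Pool.Agent.KBS.Prm

/-! KBS-TC. Vanishing for all fields of characteristic zero implies vanishing for the product of all
prime fields.

Let `A` be the product ring and `z` a class over `A` which is not null. For `K ⊆ I` let
`cut K z` be the part of `z` with support in `K`. The sets `K` such that `cut K z` is null form a
proper ideal (`tc_ideal`), so there is an ultrafilter `U` containing none of them. Let `E` be the
ultraproduct along `U`; it is of characteristic zero or finite, so the image of `z` over `E` is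
null. A filling over `E` lifts to a chain over `A`, which is a filling of `cut J z` for some
`J ∈ U`. Contradiction. -/

set_option autoImplicit false

open Filter Matrix

namespace Pool.Agent.KBS

private theorem tc_congr {ι R : Type} [Fintype ι] [DecidableEq ι] [CommRing R] {e f : R}
    (he : e * e = e) (hf : f * f = f) (h : e = f) : cut ι e he = cut ι f hf := by
  subst h
  rfl

section

variable {n w m : ℕ} {I : Type} (F : I → Type) [∀ i, Field (F i)]

private theorem tc_empty {z : Chain (GL (Fin m) (∀ i, F i)) (n + 1)} (hz : IsClass w z) :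
    Null (push (n + 1) (cut (Fin m) (ind F ∅) (ind_idem F ∅)) z) := by
  have h0 : ind F (∅ : Set I) = 0 := by
    funext i
    simp [ind]
  rw [tc_congr (ind_idem F ∅) (zero_mul 0) h0, cut_zero]
  exact null_of_isBd (isBd_trivial z hz.cycle)

private theorem tc_mono {z : Chain (GL (Fin m) (∀ i, F i)) (n + 1)} (K : Set I)
    (hK : Null (push (n + 1) (cut (Fin m) (ind F K) (ind_idem F K)) z)) (K' : Set I)
    (h : K' ⊆ K) : Null (push (n + 1) (cut (Fin m) (ind F K') (ind_idem F K')) z) := by
  have h0 : ind F K' * ind F K = ind F K' := by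
    funext i
    by_cases h1 : i ∈ K'
    · simp [ind, h1, h h1]
    · simp [ind, h1]
  have hs : (ind F K' * ind F K) * (ind F K' * ind F K) = ind F K' * ind F K := by
    rw [h0, ind_idem]
  rw [← tc_congr hs (ind_idem F K') h0, ← cut_cut _ _ (ind_idem F K') (ind_idem F K) hs,
    push_comp]
  exact hK.map_nu _

private theorem tc_union {z : Chain (GL (Fin m) (∀ i, F i)) (n + 1)} (hz : IsClass w z)
    (K : Set I) (hK : Null (push (n + 1) (cut (Fin m) (ind F K) (ind_idem F K)) z))
    (K' : Set I) (hK' : Null (push (n + 1) (cut (Fin m) (ind F K') (ind_idem F K')) z)) :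
    Null (push (n + 1) (cut (Fin m) (ind F (K ∪ K')) (ind_idem F (K ∪ K'))) z) := by
  have h1 := tc_mono F K' hK' (K' \ K) Set.diff_subset
  have hef : ind F K * ind F (K' \ K) = 0 := by
    funext i
    by_cases h2 : i ∈ K <;> simp [ind, h2]
  have h0 : ind F K + ind F (K' \ K) = ind F (K ∪ K') := by
    funext i
    by_cases h2 : i ∈ K
    · simp [ind, h2]
    · by_cases h3 : i ∈ K' <;> simp [ind, h2, h3]
  have hs : (ind F K + ind F (K' \ K)) * (ind F K + ind F (K' \ K)) =
      ind F K + ind F (K' \ K) := by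
    rw [h0, ind_idem]
  have h2 := null_cut_add z hz.primitive (ind F K) (ind F (K' \ K)) (ind_idem F K)
    (ind_idem F _) hef hs
  have h3 := (h2.add h1).add hK
  rw [sub_add_cancel, sub_add_cancel] at h3
  rw [← tc_congr hs (ind_idem F (K ∪ K')) h0]
  exact h3

private theorem tc_univ {z : Chain (GL (Fin m) (∀ i, F i)) (n + 1)}
    (h : Null (push (n + 1) (cut (Fin m) (ind F Set.univ) (ind_idem F Set.univ)) z)) :
    Null z := by
  have h0 : ind F (Set.univ : Set I) = 1 := by
    funext i
    simp [ind]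
  rwa [tc_congr (ind_idem F Set.univ) (one_mul 1) h0, cut_one, push_id] at h

/-- a chain which is null over the ultraproduct has a null cut-out -/
private theorem tc_descend {U : Ultrafilter I} {E : Type} [Field E] {π : (∀ i, F i) →+* E}
    (hU : IsUltra U F E π) (z : Chain (GL (Fin m) (∀ i, F i)) (n + 1))
    (h : Null (push (n + 1) (glMap (Fin m) π) z)) :
    ∃ J ∈ U, Null (push (n + 1) (cut (Fin m) (ind F J) (ind_idem F J)) z) := by
  obtain ⟨k, b', hb'⟩ := h
  obtain ⟨b, hb⟩ := (hU.ultraGroup_gl (Fin m ⊕ Fin k)).chain_surj b'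
  have hc : push (n + 1) (glMap (Fin m ⊕ Fin k) π)
      (bd _ (n + 1) b - push (n + 1) (upper (Fin m) (Fin k) (∀ i, F i)) z) = 0 := by
    rw [map_sub, ← bd_push, hb, hb', ← push_comp, ← push_comp, glMap_upper, sub_self]
  obtain ⟨J, hJ, hJ0⟩ := exists_cut_eq_zero hU _ hc
  refine ⟨J, hJ, k, push (n + 2) (cut (Fin m ⊕ Fin k) (ind F J) (ind_idem F J)) b, ?_⟩
  rw [map_sub, sub_eq_zero, ← bd_push] at hJ0
  rw [hJ0, ← push_comp, ← push_comp]
  have h1 : (cut (Fin m ⊕ Fin k) (ind F J) (ind_idem F J)).comp
      (upper (Fin m) (Fin k) (∀ i, F i)) =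
      (upper (Fin m) (Fin k) (∀ i, F i)).comp (cut (Fin m) (ind F J) (ind_idem F J)) :=
    nuMap_upper _
  rw [h1]

end

theorem vanishes_pi {n w : ℕ} {I : Type} (p : I → ℕ) [∀ i, Fact (p i).Prime]
    (h : ∀ (F : Type) (_ : Field F) (_ : CharZero F), Vanishes F n w) :
    Vanishes (∀ i, ZMod (p i)) n w := by
  intro m z hz
  by_contra hnull
  let F : I → Type := fun i => ZMod (p i)
  let Fl : Filter I := Filter.comk
    (fun K => Null (push (n + 1) (cut (Fin m) (ind F K) (ind_idem F K)) z))
    (tc_empty F hz) (tc_mono F) (tc_union F hz)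
  have hne : Fl.NeBot := by
    rw [Filter.neBot_iff, ne_eq, ← Filter.empty_mem_iff_bot]
    intro h1
    have h2 : Null (push (n + 1) (cut (Fin m) (ind F ∅ᶜ) (ind_idem F ∅ᶜ)) z) := h1
    rw [tc_congr (ind_idem F ∅ᶜ) (ind_idem F Set.univ) (by rw [Set.compl_empty])] at h2
    exact hnull (tc_univ F h2)
  obtain ⟨E, hE, π, hU⟩ := exists_ultra (Ultrafilter.of Fl) F
  have hvan : Vanishes E n w := by
    rcases hU.charZero_or_finite (p := p) with h1 | h1
    · exact h E hE h1
    · exact vanishes_of_finite
  obtain ⟨J, hJ, hJn⟩ := tc_descend F hU z (hvan m _ (hz.map_gl π))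
  have h3 : Jᶜ ∈ Ultrafilter.of Fl := by
    refine Ultrafilter.of_le Fl ?_
    have h4 : Null (push (n + 1) (cut (Fin m) (ind F Jᶜᶜ) (ind_idem F Jᶜᶜ)) z) := by
      rw [tc_congr (ind_idem F Jᶜᶜ) (ind_idem F J) (by rw [compl_compl])]
      exact hJn
    exact h4
  exact (Ultrafilter.compl_mem_iff_notMem.1 h3) hJ

end Pool.Agent.KBS
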