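import Pool.Agent.KBS.Emb
import Pool.Agent.KBS.Fld

/-! KBS-TD. If `K_(n+1)` of the product of all prime fields has less than continuum many elements of
weight `w`, then they vanish for all fields of characteristic zero. -/

set_option autoImplicit false

open Filter Matrix

namespace Pool.Agent.KBS

private instance tdFact (q : Nat.Primes) : Fact (q : ℕ).Prime := ⟨q.2⟩

open Classical in
/-- the homomorphism to `ZMod q` if `q` is one of the `p k`, and `0` otherwise -/
private noncomputable def tdPhi {B : Type} [CommRing B] (p : ℕ → ℕ)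
    (φ : ∀ k, B →+* ZMod (p k)) (q : Nat.Primes) : B →ₙ+* ZMod (q : ℕ) :=
  if h : ∃ k, p k = (q : ℕ) then
    (((ZMod.ringEquivCongr h.choose_spec).toRingHom.comp (φ h.choose) : B →+* ZMod (q : ℕ)) :
      B →ₙ+* ZMod (q : ℕ))
  else 0

private theorem tdPhi_one {B : Type} [CommRing B] (p : ℕ → ℕ) (φ : ∀ k, B →+* ZMod (p k))
    (q : Nat.Primes) (h : ∃ k, p k = (q : ℕ)) : tdPhi p φ q 1 = 1 := by
  rw [tdPhi, dif_pos h]
  exact map_one ((ZMod.ringEquivCongr h.choose_spec).toRingHom.comp (φ h.choose))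

private theorem tdPhi_ne {B : Type} [CommRing B] (p : ℕ → ℕ) (φ : ∀ k, B →+* ZMod (p k))
    (hinj : Function.Injective p) (q : Nat.Primes) (k : ℕ) (hk : p k = (q : ℕ)) (b : B)
    (hb : φ k b ≠ 0) : tdPhi p φ q b ≠ 0 := by
  have h : ∃ k, p k = (q : ℕ) := ⟨k, hk⟩
  have hc : h.choose = k := hinj (h.choose_spec.trans hk.symm)
  have hb' : φ h.choose b ≠ 0 := by
    rw [hc]
    exact hb
  rw [tdPhi, dif_pos h]
  intro h0
  apply hb'
  have h1 : (ZMod.ringEquivCongr h.choose_spec) (φ h.choose b) = 0 := h0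
  exact (map_eq_zero_iff _ (ZMod.ringEquivCongr h.choose_spec).injective).1 h1

/-- the primes with index in `T` -/
private def tdSet (p : ℕ → ℕ) (T : Set ℕ) : Set Nat.Primes :=
  {q | ∃ k ∈ T, p k = (q : ℕ)}

private noncomputable def tdFull {B : Type} [CommRing B] (p : ℕ → ℕ)
    (φ : ∀ k, B →+* ZMod (p k)) : B →ₙ+* (∀ q : Nat.Primes, ZMod (q : ℕ)) :=
  NonUnitalRingHom.pi (tdPhi p φ)

private theorem tdFull_apply {B : Type} [CommRing B] (p : ℕ → ℕ)
    (φ : ∀ k, B →+* ZMod (p k)) (b : B) (q : Nat.Primes) :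
    tdFull p φ b q = tdPhi p φ q b := rfl

private noncomputable abbrev tdInd (J : Set Nat.Primes) : ∀ q : Nat.Primes, ZMod (q : ℕ) :=
  ind (fun q : Nat.Primes => ZMod (q : ℕ)) J

private theorem tdInd_mul (J J' : Set Nat.Primes) : tdInd J * tdInd J' = tdInd (J ∩ J') := by
  classical
  funext q
  by_cases h : q ∈ J <;> by_cases h' : q ∈ J' <;> simp [tdInd, ind, h, h']

private theorem tdSet_inter (p : ℕ → ℕ) (hinj : Function.Injective p) (T T' : Set ℕ) :
    tdSet p T ∩ tdSet p T' = tdSet p (T ∩ T') := by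
  ext q
  constructor
  · rintro ⟨⟨k, hk, hq⟩, ⟨k', hk', hq'⟩⟩
    have : k = k' := hinj (hq.trans hq'.symm)
    subst this
    exact ⟨k, ⟨hk, hk'⟩, hq⟩
  · rintro ⟨k, ⟨hk, hk'⟩, hq⟩
    exact ⟨⟨k, hk, hq⟩, ⟨k, hk', hq⟩⟩

private theorem tdInd_empty : tdInd ∅ = 0 := by
  classical
  funext q
  simp [tdInd, ind]

private theorem td_cut_congr {m : ℕ} {R : Type} [CommRing R] (e f : R) (he : e * e = e)
    (hf : f * f = f) (h : e = f) : cut (Fin m) e he = cut (Fin m) f hf := by
  subst h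
  rfl

private theorem td_not_null {n w m : ℕ} {F : Type} [Field F] (B : Subring F) (p : ℕ → ℕ)
    (hp : ∀ k, (p k).Prime) (hinj : Function.Injective p) (φ : ∀ k, B →+* ZMod (p k))
    (hφ : ∀ b : B, b ≠ 0 → ∃ k0, ∀ k, k0 ≤ k → φ k b ≠ 0)
    (zB : Chain (GL (Fin m) B) (n + 1)) (hzB : IsClass w zB) (T : Set ℕ) (hT : T.Infinite)
    (h : Null (push (n + 1) (cut (Fin m) (tdInd (tdSet p T)) (ind_idem _ _))
      (push (n + 1) (nuMap (Fin m) (tdFull p φ)) zB))) :
    Null (push (n + 1) (glMap (Fin m) B.subtype) zB) := by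
  classical
  set pk : ℕ → Nat.Primes := fun k => ⟨p k, hp k⟩ with hpk
  have hne : (cofinite ⊓ 𝓟 T : Filter ℕ).NeBot := by
    rw [cofinite_inf_principal_neBot_iff]
    exact hT
  have hne2 : (Filter.map pk (cofinite ⊓ 𝓟 T)).NeBot := hne.map pk
  set U : Ultrafilter Nat.Primes := Ultrafilter.of (Filter.map pk (cofinite ⊓ 𝓟 T)) with hU
  have hUle : (U : Filter Nat.Primes) ≤ Filter.map pk (cofinite ⊓ 𝓟 T) := Ultrafilter.of_le _
  obtain ⟨E, hE, π, hπ⟩ := exists_ultra U (fun q : Nat.Primes => ZMod (q : ℕ))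
  have hev : ∀ k0 : ℕ, ∀ᶠ q : Nat.Primes in (U : Filter Nat.Primes),
      ∃ k ∈ T, k0 ≤ k ∧ p k = (q : ℕ) := by
    intro k0
    apply hUle
    rw [Filter.mem_map]
    have h1 : {k : ℕ | k0 ≤ k} ∈ (cofinite : Filter ℕ) := by
      rw [mem_cofinite]
      apply (Set.finite_lt_nat k0).subset
      intro k hk
      simpa using hk
    refine mem_of_superset (inter_mem_inf h1 (mem_principal_self T)) ?_
    rintro k ⟨hk, hkT⟩
    exact ⟨k, hkT, hk, rfl⟩
  have hone : π (tdInd (tdSet p T)) = 1 := by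
    rw [← sub_eq_zero, ← map_one π, ← map_sub, hπ.2]
    filter_upwards [hev 0] with q hq
    obtain ⟨k, hk, -, hkq⟩ := hq
    have hmem : q ∈ tdSet p T := ⟨k, hk, hkq⟩
    simp [tdInd, ind, hmem]
  have hfull1 : π (tdFull p φ 1) = 1 := by
    rw [← sub_eq_zero, ← map_one π, ← map_sub, hπ.2]
    filter_upwards [hev 0] with q hq
    obtain ⟨k, hk, -, hkq⟩ := hq
    rw [Pi.sub_apply, tdFull_apply, tdPhi_one p φ q ⟨k, hkq⟩, Pi.one_apply, sub_self]
  let ψ : B →+* E :=
    { toFun := fun b => π (tdFull p φ b)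
      map_one' := hfull1
      map_mul' := fun a b => by rw [map_mul, map_mul]
      map_zero' := by rw [map_zero, map_zero]
      map_add' := fun a b => by rw [map_add, map_add] }
  have hψ : Function.Injective ψ := by
    rw [injective_iff_map_eq_zero]
    intro b hb
    by_contra hb0
    obtain ⟨k0, hk0⟩ := hφ b hb0
    have hb' : π (tdFull p φ b) = 0 := hb
    rw [hπ.2] at hb'
    obtain ⟨q, hq1, hq2⟩ := (hb'.and (hev k0)).exists
    obtain ⟨k, hk, hkk, hkq⟩ := hq2
    exact tdPhi_ne p φ hinj q k hkq b (hk0 k hkk) hq1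
  have hcoe : (ψ : B →ₙ+* E) = (π : (∀ q : Nat.Primes, ZMod (q : ℕ)) →ₙ+* E).comp (tdFull p φ) := by
    ext b
    rfl
  have h2 := h.map_gl π
  rw [← push_comp, ← push_comp, glMap_cut π _ _ hone, ← nuMap_coe, nuMap_comp, ← hcoe,
    nuMap_coe] at h2
  exact null_over_subring B ψ hψ zB hzB.cycle hzB.primitive h2

/-- almost disjoint sets -/
private theorem td_family : ∃ T : (ℕ → Bool) → Set ℕ, ∀ α β, α ≠ β → (T α \ T β).Infinite := by
  let c : (ℕ → Bool) → ℕ → ℕ := fun α k => Encodable.encode (List.ofFn fun i : Fin k => α i)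
  refine ⟨fun α => Set.range (c α), ?_⟩
  intro α β hab
  obtain ⟨j, hj⟩ := Function.ne_iff.1 hab
  have hlen : ∀ α β k l, c α k = c β l → k = l ∧ ∀ i < k, α i = β i := by
    intro α β k l h
    have h1 : List.ofFn (fun i : Fin k => α i) = List.ofFn (fun i : Fin l => β i) :=
      Encodable.encode_injective h
    have h2 : k = l := by
      have := congrArg List.length h1
      simpa using this
    subst h2
    refine ⟨rfl, fun i hi => ?_⟩
    have h3 := List.ofFn_injective h1
    exact congrFun h3 ⟨i, hi⟩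
  have hinj : Function.Injective (fun k : ℕ => c α (k + (j + 1))) := by
    intro k l h
    have := (hlen α α _ _ h).1
    omega
  refine Set.Infinite.mono ?_ (Set.infinite_range_of_injective hinj)
  rintro x ⟨k, rfl⟩
  refine ⟨⟨_, rfl⟩, ?_⟩
  rintro ⟨l, hl⟩
  have h1 := (hlen β α _ _ hl)
  exact hj (h1.2 j (by omega)).symm

private theorem td_pred {R : Type} [CommRing R] {n w : ℕ} (e : R) (he : e * e = e)
    (x y : KRep R n w) (h : SameClass x y) :
    Null (push (n + 1) (cut (Fin x.1) e he) x.2.1) ↔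
      Null (push (n + 1) (cut (Fin y.1) e he) y.2.1) := by
  have h1 := h.map_nu (mulIdem e he)
  rw [map_sub, ← push_comp, ← push_comp, nuMap_upper, nuMap_lower, push_comp, push_comp] at h1
  have e1 : push (n + 1) (nuMap (Fin x.1) (mulIdem e he)) x.2.1 =
    push (n + 1) (cut (Fin x.1) e he) x.2.1 := rfl
  have e2 : push (n + 1) (nuMap (Fin y.1) (mulIdem e he)) y.2.1 =
    push (n + 1) (cut (Fin y.1) e he) y.2.1 := rfl
  rw [e1, e2] at h1
  constructor
  · intro hx
    have h2 := ((null_upper (κ := Fin y.1) _).2 hx).sub h1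
    rw [sub_sub_cancel] at h2
    exact (null_lower _).1 h2
  · intro hy
    have h2 := h1.add ((null_lower (ι := Fin x.1) _).2 hy)
    rw [sub_add_cancel] at h2
    exact (null_upper _).1 h2

theorem vanishes_of_small {n w : ℕ} (h : Small (∀ p : Nat.Primes, ZMod p) n w) (F : Type)
    [Field F] [CharZero F] : Vanishes F n w := by
  intro m z hz
  by_contra hnull
  obtain ⟨S, hS⟩ := exists_isClass_descent z hz
  obtain ⟨zB, hzB1, hzB⟩ := hS (Subring.closure (S : Set F)) Subring.subset_closure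
  obtain ⟨p, hp, φ, hmono, hφ⟩ := exists_prime_homs F S
  have hinj : Function.Injective p := hmono.injective
  have hkey : ∀ T : Set ℕ, T.Infinite →
      ¬ Null (push (n + 1) (cut (Fin m) (tdInd (tdSet p T)) (ind_idem _ _))
        (push (n + 1) (nuMap (Fin m) (tdFull p φ)) zB)) := by
    intro T hT h
    apply hnull
    rw [← hzB1]
    exact td_not_null _ p (fun k => (hp k).out) hinj φ hφ zB hzB T hT h
  set zF := push (n + 1) (nuMap (Fin m) (tdFull p φ)) zB with hzF
  have hzFc : IsClass w zF := hzB.map_nu _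
  clear_value zF
  let rep : Set ℕ → KRep (∀ q : Nat.Primes, ZMod (q : ℕ)) n w := fun T =>
    ⟨m, push (n + 1) (cut (Fin m) (tdInd (tdSet p T)) (ind_idem _ _)) zF,
      hzFc.map_cut _ _⟩
  obtain ⟨T, hT⟩ := td_family
  have hinj2 : Function.Injective (fun α : ℕ → Bool =>
      Quot.mk (SameClass (R := ∀ q : Nat.Primes, ZMod (q : ℕ)) (n := n) (w := w))
        (rep (T α))) := by
    intro α β hab
    by_contra hne
    have hinf := hT α β hne
    have h1 := congrArg (Quot.lift
      (fun x : KRep (∀ q : Nat.Primes, ZMod (q : ℕ)) n w =>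
        Null (push (n + 1) (cut (Fin x.1) (tdInd (tdSet p (T α \ T β))) (ind_idem _ _)) x.2.1))
      (fun x y hxy => propext (td_pred _ _ x y hxy))) hab
    have h2 : Null (push (n + 1) (cut (Fin m) (tdInd (tdSet p (T α \ T β))) (ind_idem _ _))
        (push (n + 1) (cut (Fin m) (tdInd (tdSet p (T α))) (ind_idem _ _)) zF)) =
        Null (push (n + 1) (cut (Fin m) (tdInd (tdSet p (T α \ T β))) (ind_idem _ _))
        (push (n + 1) (cut (Fin m) (tdInd (tdSet p (T β))) (ind_idem _ _)) zF)) := h1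
    have e1 : tdInd (tdSet p (T α \ T β)) * tdInd (tdSet p (T α)) =
        tdInd (tdSet p (T α \ T β)) := by
      rw [tdInd_mul, tdSet_inter p hinj, Set.inter_eq_left.2 Set.sdiff_subset]
    have e2 : tdInd (tdSet p (T α \ T β)) * tdInd (tdSet p (T β)) = 0 := by
      rw [tdInd_mul, tdSet_inter p hinj, Set.sdiff_inter_self]
      have : tdSet p ∅ = ∅ := by
        ext q
        simp [tdSet]
      rw [this, tdInd_empty]
    have s1 : (tdInd (tdSet p (T α \ T β)) * tdInd (tdSet p (T α))) *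
        (tdInd (tdSet p (T α \ T β)) * tdInd (tdSet p (T α))) =
        tdInd (tdSet p (T α \ T β)) * tdInd (tdSet p (T α)) := by
      rw [e1]
      exact ind_idem _ _
    have s2 : (tdInd (tdSet p (T α \ T β)) * tdInd (tdSet p (T β))) *
        (tdInd (tdSet p (T α \ T β)) * tdInd (tdSet p (T β))) =
        tdInd (tdSet p (T α \ T β)) * tdInd (tdSet p (T β)) := by
      rw [e2, mul_zero]
    rw [← push_comp, ← push_comp, cut_cut _ _ _ _ s1, cut_cut _ _ _ _ s2,
      td_cut_congr _ _ s1 (ind_idem _ _) e1, td_cut_congr _ _ s2 (zero_mul 0) e2, cut_zero] at h2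
    apply hkey _ hinf
    rw [h2]
    exact null_of_isBd (isBd_trivial zF hzFc.cycle)
  have hcard := Cardinal.mk_le_of_injective hinj2
  have hc : Cardinal.mk (ℕ → Bool) = Cardinal.continuum := by simp
  rw [hc] at hcard
  exact absurd h (not_lt.2 hcard)

end Pool.Agent.KBS
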