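import Pool.Agent.KBS.Fld

/-! KBS-TE. One algebraically closed field of characteristic zero of infinite transcendence degree
is enough: a class over `F` descends to the subfield generated by a finite set, which embeds into
every algebraically closed field of characteristic zero of infinite transcendence degree. -/

set_option autoImplicit false

open Matrix

namespace Pool.Agent.KBS

private theorem te_embed {K : Type} [Field K] [CharZero K] [IsAlgClosed K]
    (hK : InfiniteTrdeg K) {F : Type} [Field F] [CharZero F] (S : Finset F) :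
    Nonempty (IntermediateField.adjoin ℚ (S : Set F) →+* K) := by
  classical
  have : Algebra.EssFiniteType ℚ (IntermediateField.adjoin ℚ (S : Set F)) :=
    IntermediateField.essFiniteType_iff.2 (IntermediateField.fg_adjoin_finset S)
  obtain ⟨s, hs⟩ := exists_finset_isTranscendenceBasis ℚ (IntermediateField.adjoin ℚ (S : Set F))
  obtain ⟨y, hy⟩ := hK
  have halg := hs.isAlgebraic
  let e : s ↪ ℕ := (Fintype.equivFin s).toEmbedding.trans Fin.valEmbedding
  have hy' : AlgebraicIndependent ℚ (y ∘ e) := hy.comp e e.injective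
  let f : Algebra.adjoin ℚ (Set.range ((↑) : s → IntermediateField.adjoin ℚ (S : Set F))) →+* K :=
    (MvPolynomial.aeval (R := ℚ) (y ∘ e)).toRingHom.comp hs.1.aevalEquiv.symm.toRingEquiv.toRingHom
  have hf : Function.Injective f := by
    have h1 : Function.Injective (MvPolynomial.aeval (R := ℚ) (y ∘ e)) := hy'
    exact h1.comp hs.1.aevalEquiv.symm.injective
  let : Algebra (Algebra.adjoin ℚ
      (Set.range ((↑) : s → IntermediateField.adjoin ℚ (S : Set F)))) K := f.toAlgebra
  have : FaithfulSMul (Algebra.adjoin ℚ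
      (Set.range ((↑) : s → IntermediateField.adjoin ℚ (S : Set F)))) K :=
    (faithfulSMul_iff_algebraMap_injective _ _).2 hf
  exact ⟨(IsAlgClosed.lift : IntermediateField.adjoin ℚ (S : Set F) →ₐ[Algebra.adjoin ℚ
    (Set.range ((↑) : s → IntermediateField.adjoin ℚ (S : Set F)))] K).toRingHom⟩

theorem vanishes_of_algClosed {n w : ℕ} (K : Type) [Field K] [CharZero K] [IsAlgClosed K]
    (hK : InfiniteTrdeg K) (h : Vanishes K n w) (F : Type) [Field F] [CharZero F] :
    Vanishes F n w := by
  intro m z hz
  obtain ⟨S, hS⟩ := exists_isClass_descent z hz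
  obtain ⟨zB, hzB, hcl⟩ := hS (IntermediateField.adjoin ℚ (S : Set F)).toSubfield.toSubring
    (IntermediateField.subset_adjoin ℚ (S : Set F))
  obtain ⟨ψ⟩ := te_embed hK S
  rw [← hzB]
  exact null_over_subring (IntermediateField.adjoin ℚ (S : Set F)).toSubfield.toSubring
    (ψ : IntermediateField.adjoin ℚ (S : Set F) →+* K) ψ.injective zB hcl.cycle hcl.primitive
    (h m _ (hcl.map_gl _))

theorem infiniteTrdeg_complex : InfiniteTrdeg ℂ := by
  obtain ⟨s, hs⟩ := exists_isTranscendenceBasis ℚ ℂ
  have hinf : Infinite s := by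
    by_contra hfin
    rw [not_infinite_iff_finite] at hfin
    have h1 := IsAlgClosed.cardinal_le_max_transcendence_basis' _ hs
    have h2 : Cardinal.mk s ≤ Cardinal.aleph0 := Cardinal.mk_le_aleph0
    have h3 : Cardinal.mk ℚ ≤ Cardinal.aleph0 := Cardinal.mk_le_aleph0
    have h4 : Cardinal.mk ℂ ≤ Cardinal.aleph0 := h1.trans (max_le (max_le h3 h2) le_rfl)
    rw [Cardinal.mk_complex] at h4
    exact absurd h4 (not_le.2 Cardinal.aleph0_lt_continuum)
  exact ⟨fun n => ((Infinite.natEmbedding s n : s) : ℂ),
    hs.1.comp _ (Infinite.natEmbedding s).injective⟩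

end Pool.Agent.KBS
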