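import Pool.Agent.KBS.Dsc
import Pool.Agent.KBS.Eqv

/-! KBS-TFa. If there are fewer than continuum many classes over `ℂ`, they all come from one
algebraically closed subfield of cardinality less than continuum. -/

set_option autoImplicit false

open Matrix

namespace Pool.Agent.KBS

theorem exists_small_algClosed (T : Set ℂ) (hT : Cardinal.mk T < Cardinal.continuum) :
    ∃ E : Subfield ℂ, IsAlgClosed E ∧ Cardinal.mk E < Cardinal.continuum ∧ T ⊆ E := by
  have h1 : Cardinal.mk (Subfield.closure T) < Cardinal.continuum := by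
    refine lt_of_le_of_lt (Subfield.cardinalMk_closure_le_max T) ?_
    exact max_lt hT Cardinal.aleph0_lt_continuum
  let E : IntermediateField (Subfield.closure T) ℂ := algebraicClosure (Subfield.closure T) ℂ
  have h2 : IsAlgClosed E := IsAlgClosure.isAlgClosed (Subfield.closure T)
  have h3 : Cardinal.mk E < Cardinal.continuum := by
    refine lt_of_le_of_lt (Algebra.IsAlgebraic.cardinalMk_le_max (Subfield.closure T) E) ?_
    exact max_lt h1 Cardinal.aleph0_lt_continuum
  refine ⟨E.toSubfield, h2, h3, ?_⟩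
  intro x hx
  exact E.algebraMap_mem ⟨x, Subfield.subset_closure hx⟩

theorem exists_small_subfield {n w : ℕ} (h : Small ℂ n w) :
    ∃ E : Subfield ℂ, IsAlgClosed E ∧ Cardinal.mk E < Cardinal.continuum ∧
      ∀ (m : ℕ) (z : Chain (GL (Fin m) ℂ) (n + 1)), IsClass w z →
        ∃ (m' : ℕ) (y : Chain (GL (Fin m') E) (n + 1)), IsClass w y ∧
          Null (push (n + 1) (upper (Fin m) (Fin m') ℂ) z -
            push (n + 1) (lower (Fin m) (Fin m') ℂ)
              (push (n + 1) (glMap (Fin m') E.subtype) y)) := by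
  classical
  have h0 : ∀ q : Quot (SameClass (R := ℂ) (n := n) (w := w)), ∃ S : Finset ℂ,
      ∀ B : Subring ℂ, (S : Set ℂ) ⊆ B → ∃ zB : Chain (GL (Fin (Quot.out q).1) B) (n + 1),
        push (n + 1) (glMap (Fin (Quot.out q).1) B.subtype) zB = (Quot.out q).2.1 ∧
          IsClass w zB := fun q => exists_isClass_descent (Quot.out q).2.1 (Quot.out q).2.2
  choose S hS using h0
  have hT : Cardinal.mk (⋃ q, (S q : Set ℂ) : Set ℂ) < Cardinal.continuum := by
    refine lt_of_le_of_lt (Cardinal.mk_iUnion_le_sum_mk) ?_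
    refine lt_of_le_of_lt (Cardinal.sum_le_mk_mul_iSup _) ?_
    refine Cardinal.mul_lt_of_lt Cardinal.aleph0_le_continuum h ?_
    refine lt_of_le_of_lt (ciSup_le' (a := Cardinal.aleph0) fun q => ?_)
      Cardinal.aleph0_lt_continuum
    exact (Cardinal.lt_aleph0_iff_fintype.2 ⟨inferInstance⟩).le
  obtain ⟨E, hE, hcard, hsub⟩ := exists_small_algClosed _ hT
  refine ⟨E, hE, hcard, fun m z hz => ?_⟩
  let x : KRep ℂ n w := ⟨m, z, hz⟩
  let q : Quot (SameClass (R := ℂ) (n := n) (w := w)) := Quot.mk _ x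
  have h1 : SameClass x (Quot.out q) := by
    have h2 : Quot.mk (SameClass (R := ℂ) (n := n) (w := w)) x = Quot.mk _ (Quot.out q) :=
      (Quot.out_eq q).symm
    exact (sameClass_equivalence n w).eqvGen_iff.1 (Quot.eqvGen_exact h2)
  obtain ⟨zB, hzB, hcl⟩ := hS q E.toSubring (fun a ha => hsub (Set.mem_iUnion.2 ⟨q, ha⟩))
  let j : E.toSubring →+* E := E.toSubring.subtype.codRestrict E (fun a => a.2)
  refine ⟨(Quot.out q).1, push (n + 1) (glMap _ j) zB, hcl.map_gl j, ?_⟩
  have h3 : push (n + 1) (glMap (Fin (Quot.out q).1) E.subtype) (push (n + 1) (glMap _ j) zB) =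
      (Quot.out q).2.1 := by
    rw [← push_comp, glMap_comp', ← hzB]
    rfl
  rw [h3]
  exact h1

end Pool.Agent.KBS
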