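import Pool.Agent.KBS.Ext

/-! KBS-TFb. A generic embedding of a finitely generated ring.

Let `A = Subring.closure S`, `x` a transcendence basis of `A` over `ℤ`, `y` a family in `ℂ` with the
same index set which is algebraically independent over `E`. `σ : A → ℂ` extends `x_i ↦ y_i`. The ring
`C` is finitely generated over `E[y]`, and by `exists_extension` evaluation at a suitable point of
`k^ι` extends to `C`; the images of the elements of `S` are algebraic over `k`, hence in `k`. -/

set_option autoImplicit false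

namespace Pool.Agent.KBS

private theorem tfb_indep (E : Subfield ℂ) (hcard : Cardinal.mk E < Cardinal.continuum)
    (ι : Type) (hι : Cardinal.mk ι ≤ Cardinal.aleph0) : ∃ y : ι → ℂ, AlgebraicIndependent E y := by
  obtain ⟨J, z, hz⟩ := exists_isTranscendenceBasis' E ℂ
  have h1 := IsAlgClosed.cardinal_le_max_transcendence_basis' z hz
  rw [Cardinal.mk_complex] at h1
  have h2 : Cardinal.continuum ≤ Cardinal.mk J := by
    by_contra h
    push Not at h
    exact absurd h1 (not_le.2 (max_lt (max_lt hcard h) Cardinal.aleph0_lt_continuum))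
  have h3 : Cardinal.mk ι ≤ Cardinal.mk J :=
    hι.trans (Cardinal.aleph0_le_continuum.trans h2)
  obtain ⟨e⟩ := (Cardinal.le_def _ _).1 h3
  exact ⟨z ∘ e, hz.1.comp e e.injective⟩

private theorem tfb_mem (k : Subfield ℂ) (hk : IsAlgClosed k) (q : Polynomial k) (hq : q ≠ 0)
    (z : ℂ) (hz : Polynomial.aeval z q = 0) : z ∈ k := by
  have h1 : IsIntegral k z := isAlgebraic_iff_isIntegral.1 ⟨q, hq, hz⟩
  obtain ⟨w, hw⟩ := minpoly.mem_range_of_degree_eq_one k z
    (IsAlgClosed.degree_eq_one_of_irreducible k (minpoly.irreducible h1))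
  rw [← hw]
  exact w.2

private theorem tfb_lift {R A : Type} [CommRing R] [IsDomain R] [CommRing A] [IsDomain A]
    [Algebra R A] [FaithfulSMul R A] [Algebra.IsAlgebraic R A] (g : R →+* ℂ)
    (hg : Function.Injective g) :
    ∃ σ : A →+* ℂ, Function.Injective σ ∧ ∀ r, σ (algebraMap R A r) = g r := by
  let _ := g.toAlgebra
  have hfs : FaithfulSMul R ℂ := (faithfulSMul_iff_algebraMap_injective R ℂ).2 hg
  let σ : A →ₐ[R] ℂ := IsAlgClosed.lift
  refine ⟨σ.toRingHom, ?_, fun r => σ.commutes r⟩
  rw [injective_iff_map_eq_zero]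
  intro a ha
  by_contra h0
  have h1 : a ∈ RingHom.ker σ.toRingHom := ha
  have h2 := Ideal.comap_ne_bot_of_algebraic_mem h0 h1 (Algebra.IsAlgebraic.isAlgebraic (R := R) a)
  apply h2
  rw [eq_bot_iff]
  intro r hr
  have h3 : σ (algebraMap R A r) = 0 := hr
  rw [σ.commutes] at h3
  exact hg (h3.trans (map_zero g).symm)

private theorem tfb_point (k E : Subfield ℂ) (ι : Type) (F : MvPolynomial ι E)
    (hF : F ≠ 0) : ∃ c : ι → E, (∀ i, (c i : ℂ) ∈ k) ∧ MvPolynomial.eval c F ≠ 0 := by
  by_contra h
  push Not at h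
  apply hF
  refine MvPolynomial.funext_set (fun _ : ι => {e : E | (e : ℂ) ∈ k}) (fun i => ?_) ?_
  · apply Set.infinite_of_injective_forall_mem (f := fun n : ℕ => (n : E))
    · exact Nat.cast_injective
    · intro n
      show ((n : E) : ℂ) ∈ k
      have : ((n : E) : ℂ) = (n : ℂ) := by simp
      rw [this]
      exact natCast_mem k n
  · intro c hc
    rw [map_zero]
    exact h c fun i => hc i (Set.mem_univ i)

theorem exists_generic_hom (k E : Subfield ℂ) (hkE : k ≤ E) (hk : IsAlgClosed k)
    (hE : IsAlgClosed E) (hcard : Cardinal.mk E < Cardinal.continuum) (S : Finset ℂ) :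
    ∃ σ : Subring.closure (S : Set ℂ) →+* ℂ, Function.Injective σ ∧
      ∀ (T : Finset ℂ) (C : Subring ℂ),
        C = Subring.closure ((E : Set ℂ) ∪ Set.range σ ∪ (T : Set ℂ)) →
        ∃ χ : C →+* E, (∀ (e : E) (h : (e : ℂ) ∈ C), χ ⟨e, h⟩ = e) ∧
          ∀ (b : Subring.closure (S : Set ℂ)) (h : σ b ∈ C), (χ ⟨σ b, h⟩ : ℂ) ∈ k := by
  classical
  obtain ⟨ι, x, hx⟩ := exists_isTranscendenceBasis' ℤ (Subring.closure (S : Set ℂ))
  have hι : Cardinal.mk ι ≤ Cardinal.aleph0 := by
    have h1 : Cardinal.mk ι ≤ Cardinal.mk (Subfield.closure (S : Set ℂ)) := by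
      refine Cardinal.mk_le_of_injective (f := fun i => ⟨(x i : ℂ), ?_⟩) ?_
      · exact (Subring.closure_le (t := (Subfield.closure (S : Set ℂ)).toSubring)).2
          Subfield.subset_closure (x i).2
      · intro i j hij
        have h2 : (x i : ℂ) = (x j : ℂ) := congrArg (fun w : Subfield.closure (S : Set ℂ) =>
          (w : ℂ)) hij
        exact hx.1.injective (Subtype.ext h2)
    refine h1.trans ((Subfield.cardinalMk_closure_le_max _).trans ?_)
    exact max_le (Cardinal.mk_le_aleph0_iff.2 inferInstance) le_rfl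
  obtain ⟨y, hy⟩ := tfb_indep E hcard ι hι
  have hyE : Function.Injective (MvPolynomial.aeval y : MvPolynomial ι E →ₐ[E] ℂ) := hy
  have hmapE : Function.Injective (MvPolynomial.map (σ := ι) (Int.castRingHom E)) :=
    MvPolynomial.map_injective _ (RingHom.injective_int _)
  have hay : ∀ p : MvPolynomial ι ℤ, MvPolynomial.aeval y p =
      (MvPolynomial.aeval y : MvPolynomial ι E →ₐ[E] ℂ)
        (MvPolynomial.map (Int.castRingHom E) p) := by
    intro p
    rw [← algebraMap_int_eq, MvPolynomial.aeval_map_algebraMap]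
  let R1 := Algebra.adjoin ℤ (Set.range x)
  let θ : MvPolynomial ι ℤ ≃ₐ[ℤ] R1 := hx.1.aevalEquiv
  let g : R1 →+* ℂ :=
    (MvPolynomial.aeval (R := ℤ) y).toRingHom.comp (θ.symm : R1 →+* MvPolynomial ι ℤ)
  have hg : Function.Injective g := by
    intro u v huv
    apply θ.symm.injective
    apply hmapE
    apply hyE
    rw [← hay, ← hay]
    exact huv
  have halg : Algebra.IsAlgebraic R1 (Subring.closure (S : Set ℂ)) := hx.isAlgebraic
  obtain ⟨σ, hσ, hσg⟩ := tfb_lift (A := Subring.closure (S : Set ℂ)) g hg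
  have hσx : ∀ i, σ (x i) = y i := by
    intro i
    have h1 := hσg (θ (MvPolynomial.X i))
    have h2 : algebraMap R1 (Subring.closure (S : Set ℂ)) (θ (MvPolynomial.X i)) = x i := by
      rw [hx.1.algebraMap_aevalEquiv, MvPolynomial.aeval_X]
    rw [h2] at h1
    rw [h1]
    show MvPolynomial.aeval y (θ.symm (θ (MvPolynomial.X i))) = y i
    rw [θ.symm_apply_apply, MvPolynomial.aeval_X]
  refine ⟨σ, hσ, ?_⟩
  intro T C hC
  have hEC : ∀ e : E, (e : ℂ) ∈ C := fun e => by
    rw [hC]
    exact Subring.subset_closure (Or.inl (Or.inl e.2))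
  have hσC : ∀ b, σ b ∈ C := fun b => by
    rw [hC]
    exact Subring.subset_closure (Or.inl (Or.inr ⟨b, rfl⟩))
  have hTC : ∀ t ∈ T, t ∈ C := fun t ht => by
    rw [hC]
    exact Subring.subset_closure (Or.inr ht)
  have hyC : ∀ p : MvPolynomial ι E, MvPolynomial.aeval y p ∈ C := by
    intro p
    induction p using MvPolynomial.induction_on with
    | C e =>
      rw [MvPolynomial.aeval_C]
      exact hEC e
    | add p q hp hq =>
      rw [map_add]
      exact C.add_mem hp hq
    | mul_X p i hp =>
      rw [map_mul, MvPolynomial.aeval_X, ← hσx i]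
      exact C.mul_mem hp (hσC _)
  let β : MvPolynomial ι E →+* C :=
    (MvPolynomial.aeval y : MvPolynomial ι E →ₐ[E] ℂ).toRingHom.codRestrict C hyC
  let _ : Algebra (MvPolynomial ι E) C := β.toAlgebra
  have hβ : ∀ p : MvPolynomial ι E, ((algebraMap (MvPolynomial ι E) C p : C) : ℂ) =
      MvPolynomial.aeval y p := fun p => rfl
  have hinj : Function.Injective (algebraMap (MvPolynomial ι E) C) := by
    intro p q hpq
    apply hyE
    show MvPolynomial.aeval y p = MvPolynomial.aeval y q
    rw [← hβ p, ← hβ q, hpq]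
  have hfin : Algebra.FiniteType (MvPolynomial ι E) C := by
    let gen : Finset C := (S.attach.image fun s => (⟨σ ⟨s.1, Subring.subset_closure s.2⟩,
      hσC _⟩ : C)) ∪ T.attach.image fun t => (⟨t.1, hTC t.1 t.2⟩ : C)
    refine ⟨⟨gen, ?_⟩⟩
    rw [eq_top_iff]
    rintro ⟨c, hc⟩ -
    let D : Subring ℂ := (Algebra.adjoin (MvPolynomial ι E) (gen : Set C)).toSubring.map C.subtype
    have hD : C ≤ D := by
      conv_lhs => rw [hC]
      rw [Subring.closure_le]
      rintro z ((hz | ⟨b, rfl⟩) | hz)
      · refine ⟨algebraMap (MvPolynomial ι E) C (MvPolynomial.C ⟨z, hz⟩),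
          Subalgebra.algebraMap_mem _ _, ?_⟩
        show MvPolynomial.aeval y (MvPolynomial.C (⟨z, hz⟩ : E)) = z
        rw [MvPolynomial.aeval_C]
        rfl
      · have h1 : ∀ (z : ℂ) (hz : z ∈ Subring.closure (S : Set ℂ)), σ ⟨z, hz⟩ ∈ D := by
          intro z hz
          induction hz using Subring.closure_induction with
          | mem z hz =>
            refine ⟨⟨σ ⟨z, Subring.subset_closure hz⟩, hσC _⟩, Algebra.subset_adjoin ?_, rfl⟩
            have hz' : z ∈ S := hz
            apply Finset.mem_coe.2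
            apply Finset.mem_union_left
            exact Finset.mem_image.2 ⟨⟨z, hz'⟩, Finset.mem_attach _ _, rfl⟩
          | zero =>
            have : σ ⟨0, Subring.zero_mem _⟩ = 0 := map_zero σ
            rw [this]
            exact D.zero_mem
          | one =>
            have : σ ⟨1, Subring.one_mem _⟩ = 1 := map_one σ
            rw [this]
            exact D.one_mem
          | add u v hu hv iu iv =>
            have : σ ⟨u + v, Subring.add_mem _ hu hv⟩ = σ ⟨u, hu⟩ + σ ⟨v, hv⟩ :=
              map_add σ ⟨u, hu⟩ ⟨v, hv⟩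
            rw [this]
            exact D.add_mem iu iv
          | neg u hu iu =>
            have : σ ⟨-u, Subring.neg_mem _ hu⟩ = -σ ⟨u, hu⟩ := map_neg σ ⟨u, hu⟩
            rw [this]
            exact D.neg_mem iu
          | mul u v hu hv iu iv =>
            have : σ ⟨u * v, Subring.mul_mem _ hu hv⟩ = σ ⟨u, hu⟩ * σ ⟨v, hv⟩ :=
              map_mul σ ⟨u, hu⟩ ⟨v, hv⟩
            rw [this]
            exact D.mul_mem iu iv
        exact h1 b.1 b.2
      · have hz' : z ∈ T := hz
        refine ⟨⟨z, hTC z hz'⟩, Algebra.subset_adjoin ?_, rfl⟩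
        apply Finset.mem_coe.2
        apply Finset.mem_union_right
        exact Finset.mem_image.2 ⟨⟨z, hz'⟩, Finset.mem_attach _ _, rfl⟩
    obtain ⟨w, hw, hwc⟩ := hD hc
    have h2 : w = ⟨c, hc⟩ := Subtype.ext hwc
    rw [← h2]
    exact hw
  obtain ⟨f, hf0, hf⟩ := exists_extension (B := MvPolynomial ι E) (C := C) hinj
  have hq : ∀ s : S, ∃ q : Polynomial R1, q ≠ 0 ∧
      Polynomial.aeval (⟨s.1, Subring.subset_closure s.2⟩ : Subring.closure (S : Set ℂ)) q = 0 :=
    fun s => halg.isAlgebraic _
  choose q hq0 hq1 using hq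
  have hF : f * ∏ s : S, MvPolynomial.map (Int.castRingHom E) (θ.symm (q s).leadingCoeff) ≠ 0 := by
    apply mul_ne_zero hf0
    rw [Finset.prod_ne_zero_iff]
    intro s _ h0
    have h1 : θ.symm (q s).leadingCoeff = 0 := hmapE (h0.trans (map_zero _).symm)
    have h2 : (q s).leadingCoeff = 0 := θ.symm.injective (h1.trans (map_zero _).symm)
    exact hq0 s (Polynomial.leadingCoeff_eq_zero.1 h2)
  obtain ⟨c, hck, hcF⟩ := tfb_point k E ι _ hF
  rw [map_mul, map_prod] at hcF
  have hcf : MvPolynomial.eval c f ≠ 0 := left_ne_zero_of_mul hcF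
  have hcq : ∀ s : S, MvPolynomial.eval c
      (MvPolynomial.map (Int.castRingHom E) (θ.symm (q s).leadingCoeff)) ≠ 0 := fun s =>
    Finset.prod_ne_zero_iff.1 (right_ne_zero_of_mul hcF) s (Finset.mem_univ s)
  obtain ⟨χ, hχ⟩ := hf E inferInstance hE (MvPolynomial.eval c) hcf
  have hχ' : ∀ p : MvPolynomial ι E, χ (algebraMap (MvPolynomial ι E) C p) =
      MvPolynomial.eval c p := fun p => RingHom.congr_fun hχ p
  refine ⟨χ, ?_, ?_⟩
  · intro e h
    have h1 : (⟨(e : ℂ), h⟩ : C) = algebraMap (MvPolynomial ι E) C (MvPolynomial.C e) := by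
      apply Subtype.ext
      rw [hβ, MvPolynomial.aeval_C]
      rfl
    rw [h1, hχ', MvPolynomial.eval_C]
  · let ρ : Subring.closure (S : Set ℂ) →+* E := χ.comp (σ.codRestrict C hσC)
    let κ : R1 →+* k := (MvPolynomial.eval₂Hom (Int.castRingHom k)
      (fun i => (⟨(c i : ℂ), hck i⟩ : k))).comp (θ.symm : R1 →+* MvPolynomial ι ℤ)
    have hρe : ∀ u : R1, ρ (algebraMap R1 (Subring.closure (S : Set ℂ)) u) =
        MvPolynomial.eval c (MvPolynomial.map (Int.castRingHom E) (θ.symm u)) := by
      intro u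
      have h1 : (σ.codRestrict C hσC) (algebraMap R1 (Subring.closure (S : Set ℂ)) u) =
          algebraMap (MvPolynomial ι E) C (MvPolynomial.map (Int.castRingHom E) (θ.symm u)) := by
        apply Subtype.ext
        rw [hβ, ← hay]
        exact hσg u
      show χ ((σ.codRestrict C hσC) (algebraMap R1 (Subring.closure (S : Set ℂ)) u)) = _
      rw [h1, hχ']
    have hκ : ∀ u : R1, ((ρ (algebraMap R1 (Subring.closure (S : Set ℂ)) u) : E) : ℂ) =
        ((κ u : k) : ℂ) := by
      intro u
      rw [hρe]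
      show ((MvPolynomial.eval c (MvPolynomial.map (Int.castRingHom E) (θ.symm u)) : E) : ℂ) =
        ((MvPolynomial.eval₂Hom (Int.castRingHom k)
          (fun i => (⟨(c i : ℂ), hck i⟩ : k)) (θ.symm u) : k) : ℂ)
      generalize θ.symm u = P
      induction P using MvPolynomial.induction_on with
      | C n => simp
      | add P Q hP hQ =>
        rw [map_add, map_add, map_add, Subfield.coe_add, Subfield.coe_add, hP, hQ]
      | mul_X P i hP =>
        rw [map_mul, map_mul, map_mul, Subfield.coe_mul, Subfield.coe_mul, hP]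
        simp
    have h1 : ∀ (z : ℂ) (hz : z ∈ Subring.closure (S : Set ℂ)), ((ρ ⟨z, hz⟩ : E) : ℂ) ∈ k := by
      intro z hz
      induction hz using Subring.closure_induction with
      | mem z hz =>
        have hz' : z ∈ S := hz
        let s : S := ⟨z, hz'⟩
        have h2 : (q s).map κ ≠ 0 := by
          intro h0
          have h3 : κ (q s).leadingCoeff = 0 := by
            have h4 := congrArg (fun P => Polynomial.coeff P (q s).natDegree) h0
            simpa [Polynomial.coeff_map] using h4
          apply hcq s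
          apply Subtype.ext
          rw [← hρe (q s).leadingCoeff, hκ, h3]
          rfl
        apply tfb_mem k hk _ h2
        have h6 : Polynomial.eval₂ (((E.subtype.comp ρ).comp
            (algebraMap R1 (Subring.closure (S : Set ℂ))))) ((ρ ⟨z, Subring.subset_closure hz⟩ :
              E) : ℂ) (q s) = 0 := by
          have h7 := congrArg (E.subtype.comp ρ) (hq1 s)
          rw [Polynomial.aeval_def, Polynomial.hom_eval₂, map_zero] at h7
          exact h7
        have h8 : (E.subtype.comp ρ).comp (algebraMap R1 (Subring.closure (S : Set ℂ))) =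
            (algebraMap k ℂ).comp κ := RingHom.ext fun u => hκ u
        rw [h8] at h6
        rw [Polynomial.aeval_def, Polynomial.eval₂_map]
        exact h6
      | zero =>
        have : ρ ⟨0, Subring.zero_mem _⟩ = 0 := map_zero ρ
        rw [this]
        exact k.zero_mem
      | one =>
        have : ρ ⟨1, Subring.one_mem _⟩ = 1 := map_one ρ
        rw [this]
        exact k.one_mem
      | add u v hu hv iu iv =>
        have : ρ ⟨u + v, Subring.add_mem _ hu hv⟩ = ρ ⟨u, hu⟩ + ρ ⟨v, hv⟩ :=
          map_add ρ ⟨u, hu⟩ ⟨v, hv⟩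
        rw [this]
        exact k.add_mem iu iv
      | neg u hu iu =>
        have : ρ ⟨-u, Subring.neg_mem _ hu⟩ = -ρ ⟨u, hu⟩ := map_neg ρ ⟨u, hu⟩
        rw [this]
        exact k.neg_mem iu
      | mul u v hu hv iu iv =>
        have : ρ ⟨u * v, Subring.mul_mem _ hu hv⟩ = ρ ⟨u, hu⟩ * ρ ⟨v, hv⟩ :=
          map_mul ρ ⟨u, hu⟩ ⟨v, hv⟩
        rw [this]
        exact k.mul_mem iu iv
    intro b h
    exact h1 b.1 b.2

end Pool.Agent.KBS
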