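import Pool.Agent.KBS.Fld
import Pool.Agent.KBS.TFa
import Pool.Agent.KBS.TFb

/-! KBS-TF. Over `ℂ`: fewer than continuum many classes and vanishing over the algebraic numbers
imply vanishing.

PLAN. `z` a class over `ℂ`. Descend: `S`, `B = Subring.closure S`, `zB` over `B`. `E` from
`exists_small_subfield`; `k` the subfield of algebraic numbers (`k ≤ E` because `E` is algebraically
closed; `k ≅ AlgebraicClosure ℚ`, so `Vanishes k`). `σ` from `exists_generic_hom`. `zσ = push (glMap σ)
zB` is a class over `ℂ`, so there is a class `y` over `E` with `Null (upper zσ - lower y)` over `ℂ`.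
This chain is defined over the subring `R0 = Subring.closure (E ∪ range σ)`; by
`exists_null_descent` it is null over `Algebra.adjoin R0 T`, `T` finite, hence over the ring
`C = Subring.closure (E ∪ range σ ∪ T)`. Apply `χ : C → E`: `Null (upper (push (χ σ) zB) - lower y)`
over `E`. Since `χ σ` maps `B` into `k`, `push (χ σ) zB` comes from a class over `k`, which is null.
So `y` is null over `E` (`null_lower`), hence over `ℂ`, so `zσ` is null over `ℂ`, and `z` is null by
`null_over_subring` (`ψ = σ`). -/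

set_option autoImplicit false

open Matrix

namespace Pool.Agent.KBS

private theorem tf_vanishes_equiv {K L : Type} [Field K] [Field L] (e : K ≃+* L) {n w : ℕ}
    (h : Vanishes L n w) : Vanishes K n w := by
  intro m z hz
  have h1 := h m _ (hz.map_gl (e : K →+* L))
  have h2 := h1.map_gl (e.symm : L →+* K)
  rw [← push_comp, glMap_comp'] at h2
  have h3 : (e.symm : L →+* K).comp (e : K →+* L) = RingHom.id K := by
    ext x
    simp
  rw [h3] at h2
  have h4 : glMap (Fin m) (RingHom.id K) = MonoidHom.id _ := by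
    ext g i j
    rfl
  rw [h4, push_id] at h2
  exact h2

private theorem tf_mem (E : Subfield ℂ) (hE : IsAlgClosed E) (z : ℂ) (hz : IsAlgebraic ℚ z) :
    z ∈ E := by
  have h1 : IsIntegral E z := (isAlgebraic_iff_isIntegral.1 hz).tower_top
  obtain ⟨w, hw⟩ := minpoly.mem_range_of_degree_eq_one E z
    (IsAlgClosed.degree_eq_one_of_irreducible E (minpoly.irreducible h1))
  rw [← hw]
  exact w.2

private theorem tf_equiv (F K : Type) [Field F] [Field K] [Algebra F K] [IsAlgClosed K] :
    IsAlgClosed (algebraicClosure F K) ∧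
      Nonempty ((algebraicClosure F K) ≃+* AlgebraicClosure F) := by
  have h1 : IsAlgClosure F (algebraicClosure F K) := inferInstance
  exact ⟨h1.isAlgClosed,
    ⟨(IsAlgClosure.equiv F (algebraicClosure F K) (AlgebraicClosure F)).toRingEquiv⟩⟩

theorem vanishes_of_small_complex {n w : ℕ} (h0 : Vanishes (AlgebraicClosure ℚ) n w)
    (h : Small ℂ n w) : Vanishes ℂ n w := by
  intro m z hz
  obtain ⟨S, hS⟩ := exists_isClass_descent z hz
  obtain ⟨zB, hzB, hclB⟩ := hS (Subring.closure (S : Set ℂ)) Subring.subset_closure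
  obtain ⟨E, hEc, hEcard, hE⟩ := exists_small_subfield h
  let k : Subfield ℂ := (algebraicClosure ℚ ℂ).toSubfield
  have hkc : IsAlgClosed k := (tf_equiv ℚ ℂ).1
  have hkE : k ≤ E := by
    intro x hx
    exact tf_mem E hEc x (mem_algebraicClosure_iff.1 hx)
  have hkv : Vanishes k n w := by
    obtain ⟨e⟩ := (tf_equiv ℚ ℂ).2
    exact tf_vanishes_equiv (K := k) e h0
  obtain ⟨σ, hσ, hχ⟩ := exists_generic_hom k E hkE hkc hEc hEcard S
  have hcl2 := hclB.map_gl σ
  obtain ⟨m', y, hy, hnull⟩ := hE m _ hcl2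
  let R0 : Subring ℂ := Subring.closure ((E : Set ℂ) ∪ Set.range σ)
  have hER : ∀ e : E, (e : ℂ) ∈ R0 := fun e => Subring.subset_closure (Or.inl e.2)
  have hσR : ∀ b, σ b ∈ R0 := fun b => Subring.subset_closure (Or.inr ⟨b, rfl⟩)
  let σ0 : Subring.closure (S : Set ℂ) →+* R0 := σ.codRestrict R0 hσR
  let ε0 : E →+* R0 := E.subtype.codRestrict R0 hER
  let c : Chain (GL (Fin m ⊕ Fin m') R0) (n + 1) :=
    push (n + 1) (upper (Fin m) (Fin m') R0) (push (n + 1) (glMap (Fin m) σ0) zB) -
      push (n + 1) (lower (Fin m) (Fin m') R0) (push (n + 1) (glMap (Fin m') ε0) y)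
  have hpush : ∀ (L : Type) [CommRing L] (f : R0 →+* L),
      push (n + 1) (glMap (Fin m ⊕ Fin m') f) c =
      push (n + 1) (upper (Fin m) (Fin m') L) (push (n + 1) (glMap (Fin m) (f.comp σ0)) zB) -
      push (n + 1) (lower (Fin m) (Fin m') L) (push (n + 1) (glMap (Fin m') (f.comp ε0)) y) := by
    intro L _ f
    change push (n + 1) (glMap (Fin m ⊕ Fin m') f)
      (push (n + 1) (upper (Fin m) (Fin m') R0) (push (n + 1) (glMap (Fin m) σ0) zB) -
      push (n + 1) (lower (Fin m) (Fin m') R0) (push (n + 1) (glMap (Fin m') ε0) y)) = _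
    have e1 : ∀ a : Chain (GL (Fin m) R0) (n + 1),
        push (n + 1) (glMap (Fin m ⊕ Fin m') f) (push (n + 1) (upper (Fin m) (Fin m') R0) a) =
          push (n + 1) (upper (Fin m) (Fin m') L) (push (n + 1) (glMap (Fin m) f) a) := by
      intro a
      rw [← push_comp, glMap_upper, push_comp]
    have e2 : ∀ a : Chain (GL (Fin m') R0) (n + 1),
        push (n + 1) (glMap (Fin m ⊕ Fin m') f) (push (n + 1) (lower (Fin m) (Fin m') R0) a) =
          push (n + 1) (lower (Fin m) (Fin m') L) (push (n + 1) (glMap (Fin m') f) a) := by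
      intro a
      rw [← push_comp, glMap_lower, push_comp]
    rw [map_sub, e1, e2, ← push_comp (glMap (Fin m) σ0), glMap_comp',
      ← push_comp (glMap (Fin m') ε0), glMap_comp']
  have hinj : Function.Injective (algebraMap R0 ℂ) := Subtype.val_injective
  have hc : Null (push (n + 1) (glMap (Fin m ⊕ Fin m') (algebraMap R0 ℂ)) c) := by
    rw [hpush]
    exact hnull
  obtain ⟨T, hT⟩ := exists_null_descent hinj c hc
  let C : Subring ℂ := Subring.closure ((E : Set ℂ) ∪ Set.range σ ∪ (T : Set ℂ))
  obtain ⟨χ, hχ1, hχ2⟩ := hχ T C rfl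
  have hRC : ∀ x : R0, (x : ℂ) ∈ C := by
    intro x
    exact (Subring.closure_mono (Set.subset_union_left)) x.2
  have hAC : ∀ x : Algebra.adjoin R0 (T : Set ℂ), (x : ℂ) ∈ C := by
    rintro ⟨x, hx⟩
    change x ∈ C
    induction hx using Algebra.adjoin_induction with
    | mem x hx => exact Subring.subset_closure (Or.inr hx)
    | algebraMap r => exact hRC r
    | add x y _ _ hx hy => exact C.add_mem hx hy
    | mul x y _ _ hx hy => exact C.mul_mem hx hy
  let κ : Algebra.adjoin R0 (T : Set ℂ) →+* C :=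
    (Algebra.adjoin R0 (T : Set ℂ)).val.toRingHom.codRestrict C hAC
  have h1 := hT.map_gl (χ.comp κ)
  rw [← push_comp, glMap_comp', hpush] at h1
  set τ : R0 →+* E := (χ.comp κ).comp (algebraMap R0 (Algebra.adjoin R0 (T : Set ℂ))) with hτ
  have hτ1 : τ.comp ε0 = RingHom.id E := by
    ext e
    have h2 := hχ1 e (hRC ⟨e, hER e⟩)
    exact congrArg Subtype.val h2
  have hτ2 : ∀ b, ((τ.comp σ0 b : E) : ℂ) ∈ k := by
    intro b
    exact hχ2 b (hRC ⟨σ b, hσR b⟩)
  let ρ : Subring.closure (S : Set ℂ) →+* k :=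
    (E.subtype.comp (τ.comp σ0)).codRestrict k hτ2
  let ι : k →+* E := k.subtype.codRestrict E fun x => hkE x.2
  have hρ : ι.comp ρ = τ.comp σ0 := by
    ext b
    rfl
  have h2 : Null (push (n + 1) (glMap (Fin m) (τ.comp σ0)) zB) := by
    have h3 := (hkv m _ (hclB.map_gl ρ)).map_gl ι
    rw [← push_comp, glMap_comp', hρ] at h3
    exact h3
  have hid : glMap (Fin m') (RingHom.id E) = MonoidHom.id _ := by
    ext g i j
    rfl
  rw [hτ1, hid, push_id] at h1
  have h4 : Null (push (n + 1) (lower (Fin m) (Fin m') E) y) := by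
    have h5 := ((null_upper (κ := Fin m') _).2 h2).sub h1
    rw [sub_sub_cancel] at h5
    exact h5
  have h6 : Null y := (null_lower _).1 h4
  have h7 : Null (push (n + 1) (lower (Fin m) (Fin m') ℂ)
      (push (n + 1) (glMap (Fin m') E.subtype) y)) := (null_lower _).2 (h6.map_gl _)
  have h8 : Null (push (n + 1) (upper (Fin m) (Fin m') ℂ)
      (push (n + 1) (glMap (Fin m) σ) zB)) := by
    have h9 := hnull.add h7
    rw [sub_add_cancel] at h9
    exact h9
  have h10 : Null (push (n + 1) (glMap (Fin m) σ) zB) := (null_upper _).1 h8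
  have h11 := null_over_subring (F := ℂ) (Subring.closure (S : Set ℂ)) σ hσ zB hclB.cycle
    hclB.primitive h10
  rw [hzB] at h11
  exact h11

end Pool.Agent.KBS
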