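import Pool.Agent.KBS.Defs

/-! Uniform filling over number fields: the definition. -/

set_option autoImplicit false

open Matrix

namespace Pool.Agent.KBS

/-- Uniform filling over the number fields: for every `N` there is `M` such that for every number
field `F` each element of `K_(n+1)(F)_ℚ^(w)` given by data of size at most `N` bounds a chain of
size at most `M`. -/
def UniformNumber (n w : ℕ) : Prop :=
  ∀ N : ℕ, ∃ M : ℕ, ∀ (F : Type) (_ : Field F) (_ : NumberField F) (m : ℕ)
    (z : Chain (GL (Fin m) F) (n + 1)), IsClassLE N w z → FillLE M z

end Pool.Agent.KBS
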