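import Pool.Agent.KBS.TA
import Pool.Agent.KBS.TB
import Pool.Agent.KBS.NumDef

/-! Uniform filling over number fields. -/

set_option autoImplicit false

open Filter Matrix

namespace Pool.Agent.KBS

/-- a point of a finitely generated ring over an algebraic extension of `ℚ` lies over a number
field -/
theorem exists_number_point {L Ω : Type} [CommRing L] [Field Ω] [CharZero Ω]
    (halg : ∀ x : Ω, IsAlgebraic ℚ x) (S : Finset L) (ψ : Subring.closure (S : Set L) →+* Ω) :
    ∃ (F : Type) (_ : Field F) (_ : NumberField F)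
      (φ : Subring.closure (S : Set L) →+* F), ∀ b, φ b = 0 → ψ b = 0 := by
  let G : Set Ω := Set.range fun s : S => ψ ⟨s.1, Subring.subset_closure s.2⟩
  let F : IntermediateField ℚ Ω := IntermediateField.adjoin ℚ G
  have hfin : FiniteDimensional ℚ F := by
    have : Finite G := Set.finite_range _
    exact IntermediateField.finiteDimensional_adjoin fun x _ => (halg x).isIntegral
  have hnf : NumberField F := { to_charZero := inferInstance, to_finiteDimensional := hfin }
  have hmem : ∀ b, ψ b ∈ F := by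
    rintro ⟨b, hb⟩
    induction hb using Subring.closure_induction with
    | mem x hx => exact IntermediateField.subset_adjoin ℚ G ⟨⟨x, hx⟩, rfl⟩
    | zero =>
      have h1 : ψ 0 ∈ F := by rw [map_zero]; exact F.zero_mem
      exact h1
    | one =>
      have h1 : ψ 1 ∈ F := by rw [map_one]; exact F.one_mem
      exact h1
    | add x y hx hy h h' =>
      have h1 : ψ (⟨x, hx⟩ + ⟨y, hy⟩) ∈ F := by rw [map_add]; exact F.add_mem h h'
      exact h1
    | neg x hx h =>
      have h1 : ψ (-⟨x, hx⟩) ∈ F := by rw [map_neg]; exact F.neg_mem h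
      exact h1
    | mul x y hx hy h h' =>
      have h1 : ψ (⟨x, hx⟩ * ⟨y, hy⟩) ∈ F := by rw [map_mul]; exact F.mul_mem h h'
      exact h1
  exact ⟨F, inferInstance, hnf, ψ.codRestrict F hmem, fun b hb => congrArg Subtype.val hb⟩

theorem countable_closure {L : Type} [Field L] (S : Finset L) :
    Countable (Subring.closure (S : Set L)) := by
  have h1 := Subfield.cardinalMk_closure_le_max (S : Set L)
  have h2 : Cardinal.mk ↥(S : Set L) ≤ Cardinal.aleph0 :=
    Cardinal.le_aleph0_iff_set_countable.mpr S.countable_toSet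
  have h3 : ((Subfield.closure (S : Set L) : Subfield L) : Set L).Countable :=
    Cardinal.le_aleph0_iff_set_countable.mp (h1.trans (max_le h2 le_rfl))
  have h4 : Subring.closure (S : Set L) ≤ (Subfield.closure (S : Set L)).toSubring := by
    rw [Subring.closure_le]
    exact Subfield.subset_closure
  have h5 : ((Subring.closure (S : Set L) : Subring L) : Set L).Countable := h3.mono h4
  exact h5.to_subtype

/-- points over an algebraically closed field which do not vanish at finitely many elements -/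
theorem exists_good_point {L : Type} [Field L] [CharZero L] (S T : Finset L)
    (Ω : Type) [Field Ω] [IsAlgClosed Ω] [CharZero Ω] :
    ∃ ψ : Subring.closure (S : Set L) →+* Ω,
      ∀ b : Subring.closure (S : Set L), (b : L) ∈ T → b ≠ 0 → ψ b ≠ 0 := by
  classical
  obtain ⟨S', hS'⟩ : ∃ S' : Finset L, S' = S ∪ T.image fun t => t⁻¹ := ⟨_, rfl⟩
  have hsub : Subring.closure (S : Set L) ≤ Subring.closure (S' : Set L) := by
    refine Subring.closure_mono ?_
    intro x hx
    rw [hS', Finset.mem_coe, Finset.mem_union]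
    exact Or.inl hx
  have hTinv : ∀ t ∈ T, t⁻¹ ∈ Subring.closure (S' : Set L) := by
    intro t ht
    apply Subring.subset_closure
    rw [hS', Finset.mem_coe, Finset.mem_union]
    exact Or.inr (Finset.mem_image.2 ⟨t, ht, rfl⟩)
  obtain ⟨M, hM⟩ := Pool.Agent.Helper26.BSU.exists_closed_point L S'
  have hr : ringChar Ω = 0 := ringChar.eq_zero
  obtain ⟨ψ⟩ := hM Ω (Or.inl hr)
  refine ⟨ψ.comp (Subring.inclusion hsub), ?_⟩
  rintro ⟨b, hb⟩ hbT hb0 h2
  have hne : b ≠ 0 := fun h => hb0 (Subtype.ext h)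
  have h4 : (⟨b, hsub hb⟩ : Subring.closure (S' : Set L)) * ⟨b⁻¹, hTinv b hbT⟩ = 1 :=
    Subtype.ext (mul_inv_cancel₀ hne)
  have h5 := congrArg ψ h4
  rw [map_mul, map_one] at h5
  have h6 : ψ ⟨b, hsub hb⟩ = 0 := h2
  rw [h6, zero_mul] at h5
  exact zero_ne_one h5

theorem exists_qbar : ∃ (Ω : Type) (_ : Field Ω) (_ : CharZero Ω), IsAlgClosed Ω ∧
    ∀ x : Ω, IsAlgebraic ℚ x := by
  refine ⟨algebraicClosure ℚ ℂ, inferInstance, inferInstance,
    (algebraicClosure.isAlgClosure ℚ ℂ).isAlgClosed, fun x => ?_⟩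
  have h1 : IsAlgebraic ℚ (x : ℂ) := mem_algebraicClosure_iff.1 x.2
  exact (isAlgebraic_algebraMap_iff (algebraMap (algebraicClosure ℚ ℂ) ℂ).injective).1 h1

theorem exists_number_homs (L : Type) [Field L] [CharZero L] (S : Finset L) :
    ∃ (F : ℕ → Type) (_ : ∀ k, Field (F k)) (_ : ∀ k, NumberField (F k))
      (φ : ∀ k, Subring.closure (S : Set L) →+* F k),
        ∀ b : Subring.closure (S : Set L), b ≠ 0 → ∃ k0, ∀ k, k0 ≤ k → φ k b ≠ 0 := by
  classical
  have hc := countable_closure S
  obtain ⟨f, hf⟩ := exists_surjective_nat (Subring.closure (S : Set L))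
  obtain ⟨Ω, _, _, hcl, halg⟩ := exists_qbar
  have h1 : ∀ k : ℕ, ∃ (F : Type) (_ : Field F) (_ : NumberField F)
      (φ : Subring.closure (S : Set L) →+* F), ∀ i ≤ k, f i ≠ 0 → φ (f i) ≠ 0 := by
    intro k
    obtain ⟨ψ, hψ⟩ := exists_good_point S ((Finset.range (k + 1)).image fun i => (f i : L)) Ω
    obtain ⟨F, hF, hN, φ, hφ⟩ := exists_number_point halg S ψ
    refine ⟨F, hF, hN, φ, fun i hi h0 h2 => ?_⟩
    exact hψ (f i) (Finset.mem_image.2 ⟨i, Finset.mem_range.2 (by omega), rfl⟩) h0 (hφ _ h2)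
  choose F hF hN φ hφ using h1
  refine ⟨F, hF, hN, φ, fun b hb => ?_⟩
  obtain ⟨i, rfl⟩ := hf b
  exact ⟨i, fun k hk => hφ k i hk hb⟩

theorem vanishes_of_uniformNumber {n w : ℕ} (h : UniformNumber n w) (L : Type) [Field L]
    [CharZero L] : Vanishes L n w := by
  intro m z hz
  obtain ⟨S, hS⟩ := exists_isClass_descent z hz
  obtain ⟨zB, hzB, hcl⟩ := hS (Subring.closure (S : Set L)) Subring.subset_closure
  obtain ⟨F, hF, hNF, φ, hφ⟩ := exists_number_homs L S
  obtain ⟨N, hN⟩ := hcl.exists_le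
  obtain ⟨M, hM⟩ := h N
  rw [← hzB]
  obtain ⟨K, _, π, hK⟩ := exists_ultra (hyperfilter ℕ) F
  have hψ : Function.Injective (π.comp (RingHom.pi φ)) := by
    apply ultra_injective hK φ
    intro b hb
    obtain ⟨k0, hk0⟩ := hφ b hb
    have h1 : ∀ᶠ k in atTop, φ k b ≠ 0 := eventually_atTop.2 ⟨k0, hk0⟩
    exact h1.filter_mono Nat.hyperfilter_le_atTop
  have h2 := null_of_fillLE hK (push (n + 1) (glMap (Fin m) (RingHom.pi φ)) zB) M
    (Eventually.of_forall fun k => by
      rw [← push_comp, glMap_comp']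
      exact hM (F k) (hF k) (hNF k) m _ (hN (F k) _ (φ k)))
  rw [← push_comp, glMap_comp'] at h2
  exact null_over_subring _ _ hψ zB hcl.cycle hcl.primitive h2

theorem uniformNumber_of_vanishes {n w : ℕ}
    (h : ∀ (F : Type) (_ : Field F) (_ : CharZero F), Vanishes F n w) : UniformNumber n w := by
  by_contra hU
  unfold UniformNumber at hU
  push Not at hU
  obtain ⟨N, hN⟩ := hU
  choose F hF hNF m z hz hn using hN
  obtain ⟨K, instK, π, hK⟩ := exists_ultra (hyperfilter ℕ) F
  have h0 : CharZero K := by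
    refine hK.charZero fun k hk => ?_
    refine Eventually.of_forall fun M => ?_
    have := hNF M
    exact Nat.cast_ne_zero.2 (by omega)
  obtain ⟨m0, z0, hcl, hev⟩ := exists_class hK N m z hz
  obtain ⟨M1, hM1⟩ := fillLE_of_null hK z0 (h K instK h0 m0 _ hcl)
  have h1 : ∀ᶠ M in atTop, M1 ≤ M := eventually_ge_atTop M1
  obtain ⟨M, ⟨hM2, hM3⟩, hM4⟩ :=
    ((hev.and hM1).and (h1.filter_mono Nat.hyperfilter_le_atTop)).exists
  exact hn M ((hM2 M1 hM3).mono hM4)

end Pool.Agent.KBS
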