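import Pool.Agent.KBS.TA
import Pool.Agent.KBS.TB
import Pool.Agent.KBS.TC
import Pool.Agent.KBS.TD
import Pool.Agent.KBS.TE
import Pool.Agent.KBS.TF
import Pool.Agent.KBS.TN

/-! Assembly. -/

set_option autoImplicit false

open Matrix

namespace Pool.Agent.KBS

theorem small_of_vanishes {R : Type} [CommRing R] {n w : ℕ} (h : Vanishes R n w) :
    Small R n w := by
  have h1 : Subsingleton (Quot (SameClass (R := R) (n := n) (w := w))) := by
    constructor
    intro a b
    induction a using Quot.ind with | _ x =>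
    induction b using Quot.ind with | _ y =>
    apply Quot.sound
    exact ((null_upper _).2 (h _ _ x.2.2)).sub ((null_lower _).2 (h _ _ y.2.2))
  exact lt_of_le_of_lt (Cardinal.le_one_iff_subsingleton.2 h1)
    (Cardinal.one_lt_aleph0.trans Cardinal.aleph0_lt_continuum)

theorem main (n w : ℕ) :
    (∀ (p : ℕ) (_ : Fact p.Prime) (m : ℕ) (z : Chain (GL (Fin m) (ZMod p)) (n + 1)),
      bd _ n z = 0 → IsBd z) ∧
    List.TFAE [
      ∀ (F : Type) (_ : Field F) (_ : CharZero F), Vanishes F n w,
      Vanishes ℂ n w,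
      ∃ (K : Type) (_ : Field K) (_ : CharZero K) (_ : IsAlgClosed K),
        InfiniteTrdeg K ∧ Vanishes K n w,
      Vanishes (AlgebraicClosure ℚ) n w ∧ Small ℂ n w,
      Vanishes (∀ p : Nat.Primes, ZMod p) n w,
      Small (∀ p : Nat.Primes, ZMod p) n w,
      Uniform n w,
      UniformClosure n w,
      UniformNumber n w] := by
  refine ⟨fun p _ m z hz => ?_, ?_⟩
  · exact isBd_of_finite z hz
  tfae_have 1 → 2 := fun h => h ℂ inferInstance inferInstance
  tfae_have 2 → 3 := fun h => ⟨ℂ, inferInstance, inferInstance, inferInstance,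
    infiniteTrdeg_complex, h⟩
  tfae_have 3 → 1 := by
    rintro ⟨K, _, _, _, hK, h⟩ F _ _
    exact vanishes_of_algClosed K hK h F
  tfae_have 1 → 4 := fun h => ⟨h _ inferInstance inferInstance,
    small_of_vanishes (h ℂ inferInstance inferInstance)⟩
  tfae_have 4 → 2 := fun h => vanishes_of_small_complex h.1 h.2
  tfae_have 1 → 5 := fun h => by
    have : ∀ p : Nat.Primes, Fact (p : ℕ).Prime := fun p => ⟨p.2⟩
    exact vanishes_pi (fun p : Nat.Primes => (p : ℕ)) h
  tfae_have 5 → 6 := small_of_vanishes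
  tfae_have 6 → 1 := fun h F _ _ => vanishes_of_small h F
  tfae_have 1 → 7 := uniform_of_vanishes
  tfae_have 7 → 1 := fun h F _ _ => vanishes_of_uniform h F
  tfae_have 1 → 8 := uniformClosure_of_vanishes
  tfae_have 8 → 1 := fun h F _ _ => vanishes_of_uniformClosure h F
  tfae_have 1 → 9 := uniformNumber_of_vanishes
  tfae_have 9 → 1 := fun h F _ _ => vanishes_of_uniformNumber h F
  tfae_finish

end Pool.Agent.KBS
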