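import Pool.Agent.KBS.Defs

/-! KBS-Mat. Matrix identities: naturality of `upper`, `lower`, `tensorSq`, `extSq` for ring
homomorphisms and for multiplicative maps which do not respect `1` (extension by the identity on
the complementary idempotent). -/

set_option autoImplicit false

open Matrix

namespace Pool.Agent.KBS

variable {ι κ : Type} [Fintype ι] [DecidableEq ι] [Fintype κ] [DecidableEq κ]
variable {R S T : Type} [CommRing R] [CommRing S] [CommRing T]

private theorem Mat_one_mul (f : R →ₙ+* S) (x : R) : f 1 * f x = f x := by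
  rw [← map_mul, one_mul]

private theorem Mat_sub_mul (f : R →ₙ+* S) (x : R) : (1 - f 1) * f x = 0 := by
  rw [sub_mul, one_mul, Mat_one_mul, sub_self]

private theorem Mat_sub_sq (f : R →ₙ+* S) : (1 - f 1) * (1 - f 1) = 1 - f 1 := by
  have h := Mat_sub_mul f 1
  linear_combination (-1 : S) * h

private theorem Mat_delta (f : R →ₙ+* S) {μ : Type} [DecidableEq μ] (i j : μ) :
    f ((1 : Matrix μ μ R) i j) = f 1 * (1 : Matrix μ μ S) i j := by
  by_cases h : i = j
  · subst h
    rw [Matrix.one_apply_eq, Matrix.one_apply_eq, mul_one]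
  · rw [Matrix.one_apply_ne h, Matrix.one_apply_ne h, mul_zero, map_zero]

/-- For a non-unital homomorphism `f : R → S` the homomorphism `g ↦ f(g) + (1 - f(1))` of the
general linear groups. -/
def nuMap (ι : Type) [Fintype ι] [DecidableEq ι] (f : R →ₙ+* S) : GL ι R →* GL ι S :=
  Units.map
    { toFun := fun a => a.map f + (1 - f 1) • (1 : Matrix ι ι S)
      map_one' := by
        ext i j
        rw [Matrix.add_apply, Matrix.map_apply, Matrix.smul_apply, Mat_delta, smul_eq_mul]
        ring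
      map_mul' := by
        intro a b
        have h1 : (a * b).map f = a.map f * b.map f := by
          ext i j
          rw [Matrix.map_apply, Matrix.mul_apply, Matrix.mul_apply, map_sum]
          exact Finset.sum_congr rfl fun k _ => map_mul f _ _
        have h2 : ∀ c : Matrix ι ι R, (1 - f 1) • c.map f = 0 := by
          intro c
          ext i j
          rw [Matrix.smul_apply, Matrix.map_apply, smul_eq_mul, Mat_sub_mul, Matrix.zero_apply]
        rw [h1, add_mul, mul_add, mul_add, Matrix.mul_smul, Matrix.smul_mul, Matrix.smul_mul,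
          Matrix.mul_smul, Matrix.mul_one, Matrix.one_mul, Matrix.mul_one, h2, h2, smul_smul,
          Mat_sub_sq, add_zero, zero_add] }

/-- multiplication by an idempotent -/
def mulIdem (e : R) (he : e * e = e) : R →ₙ+* R where
  toFun x := e * x
  map_mul' x y := by rw [mul_mul_mul_comm, he]
  map_zero' := mul_zero e
  map_add' x y := mul_add e x y

/-- `g ↦ e g + (1 - e)` for an idempotent `e` -/
def cut (ι : Type) [Fintype ι] [DecidableEq ι] (e : R) (he : e * e = e) : GL ι R →* GL ι R :=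
  nuMap ι (mulIdem e he)

private theorem Mat_nu_apply (f : R →ₙ+* S) (g : GL ι R) (i j : ι) :
    (nuMap ι f g : Matrix ι ι S) i j =
      f ((g : Matrix ι ι R) i j) + (1 - f 1) * (1 : Matrix ι ι S) i j := rfl

private theorem Mat_gl_apply (f : R →+* S) (g : GL ι R) (i j : ι) :
    (glMap ι f g : Matrix ι ι S) i j = f ((g : Matrix ι ι R) i j) := rfl

private theorem Mat_cut (e : R) (he : e * e = e) (g : GL ι R) :
    (cut ι e he g : Matrix ι ι R) = e • (g : Matrix ι ι R) + (1 - e) • 1 := by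
  ext i j
  change e * (g : Matrix ι ι R) i j + (1 - e * 1) * (1 : Matrix ι ι R) i j = _
  rw [Matrix.add_apply, Matrix.smul_apply, Matrix.smul_apply, smul_eq_mul, smul_eq_mul, mul_one]

theorem cut_one : cut ι (1 : R) (one_mul 1) = MonoidHom.id _ := by
  ext g : 1
  apply Units.ext
  rw [Mat_cut, one_smul, sub_self, zero_smul, add_zero]
  rfl

theorem cut_zero : cut ι (0 : R) (zero_mul 0) = 1 := by
  ext g : 1
  apply Units.ext
  rw [Mat_cut, zero_smul, sub_zero, one_smul, zero_add]
  rfl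

/-- `e`, `f` orthogonal idempotents: the two cut-outs commute and their product is the cut-out for
`e + f` -/
theorem cut_mul_cut (e f : R) (he : e * e = e) (hf : f * f = f) (hef : e * f = 0)
    (hs : (e + f) * (e + f) = e + f) (g : GL ι R) :
    cut ι e he g * cut ι f hf g = cut ι (e + f) hs g := by
  apply Units.ext
  rw [Units.val_mul, Mat_cut, Mat_cut, Mat_cut]
  ext i j
  rw [add_mul, mul_add, mul_add]
  simp only [Matrix.mul_smul, Matrix.smul_mul, Matrix.mul_one, Matrix.one_mul, Matrix.add_apply,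
    Matrix.smul_apply, smul_eq_mul]
  generalize ((g : Matrix ι ι R) * (g : Matrix ι ι R)) i j = x
  generalize (g : Matrix ι ι R) i j = y
  generalize (1 : Matrix ι ι R) i j = z
  linear_combination (x - 2 * y + z) * hef

theorem cut_commute (e f : R) (he : e * e = e) (hf : f * f = f) (hef : e * f = 0)
    (g h : GL ι R) : Commute (cut ι e he g) (cut ι f hf h) := by
  apply Units.ext
  rw [Units.val_mul, Units.val_mul, Mat_cut, Mat_cut]
  ext i j
  rw [add_mul, mul_add, mul_add, add_mul, mul_add, mul_add]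
  simp only [Matrix.mul_smul, Matrix.smul_mul, Matrix.mul_one, Matrix.one_mul, Matrix.add_apply,
    Matrix.smul_apply, smul_eq_mul]
  generalize ((g : Matrix ι ι R) * (h : Matrix ι ι R)) i j = x
  generalize ((h : Matrix ι ι R) * (g : Matrix ι ι R)) i j = x'
  generalize (g : Matrix ι ι R) i j = y
  generalize (h : Matrix ι ι R) i j = y'
  generalize (1 : Matrix ι ι R) i j = z
  linear_combination (x - x') * hef

/-- cutting twice -/
theorem cut_cut (e f : R) (he : e * e = e) (hf : f * f = f) (hs : (e * f) * (e * f) = e * f) :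
    (cut ι e he).comp (cut ι f hf) = cut ι (e * f) hs := by
  ext g : 1
  apply Units.ext
  rw [MonoidHom.comp_apply, Mat_cut, Mat_cut, Mat_cut]
  ext i j
  simp only [Matrix.add_apply, Matrix.smul_apply, smul_eq_mul]
  ring

theorem nuMap_coe (f : R →+* S) : nuMap ι (f : R →ₙ+* S) = glMap ι f := by
  ext g : 1
  apply Units.ext
  ext i j
  rw [Mat_nu_apply, Mat_gl_apply]
  have h : (f : R →ₙ+* S) 1 = 1 := map_one f
  rw [h, sub_self, zero_mul, add_zero]
  rfl

theorem nuMap_comp (f : R →ₙ+* S) (g : S →ₙ+* T) :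
    (nuMap ι g).comp (nuMap ι f) = nuMap ι (g.comp f) := by
  ext a : 1
  apply Units.ext
  ext i j
  rw [MonoidHom.comp_apply, Mat_nu_apply, Mat_nu_apply, Mat_nu_apply]
  change g (f _ + (1 - f 1) * (1 : Matrix ι ι S) i j) + (1 - g 1) * (1 : Matrix ι ι T) i j =
    g (f _) + (1 - g (f 1)) * (1 : Matrix ι ι T) i j
  rw [map_add, map_mul, Mat_delta, map_sub]
  have h := Mat_one_mul g (f 1)
  have h1 := Mat_one_mul g 1
  linear_combination (1 : Matrix ι ι T) i j * h1 - (1 : Matrix ι ι T) i j * h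

private theorem Mat_upper (g : GL ι R) :
    (upper ι κ R g : Matrix (ι ⊕ κ) (ι ⊕ κ) R) = Matrix.fromBlocks g 0 0 1 := rfl

private theorem Mat_lower (g : GL κ R) :
    (lower ι κ R g : Matrix (ι ⊕ κ) (ι ⊕ κ) R) = Matrix.fromBlocks 1 0 0 g := rfl

omit [Fintype ι] [Fintype κ] in
private theorem Mat_one_inl (i j : ι) :
    (1 : Matrix (ι ⊕ κ) (ι ⊕ κ) R) (Sum.inl i) (Sum.inl j) = (1 : Matrix ι ι R) i j := by
  rw [Matrix.one_apply, Matrix.one_apply]
  simp only [Sum.inl.injEq]

omit [Fintype ι] [Fintype κ] in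
private theorem Mat_one_inr (i j : κ) :
    (1 : Matrix (ι ⊕ κ) (ι ⊕ κ) R) (Sum.inr i) (Sum.inr j) = (1 : Matrix κ κ R) i j := by
  rw [Matrix.one_apply, Matrix.one_apply]
  simp only [Sum.inr.injEq]

theorem nuMap_upper (f : R →ₙ+* S) :
    (nuMap (ι ⊕ κ) f).comp (upper ι κ R) = (upper ι κ S).comp (nuMap ι f) := by
  ext g : 1
  apply Units.ext
  ext i j
  rw [MonoidHom.comp_apply, MonoidHom.comp_apply, Mat_nu_apply, Mat_upper, Mat_upper]
  rcases i with i | i <;> rcases j with j | j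
  · rw [Matrix.fromBlocks_apply₁₁, Matrix.fromBlocks_apply₁₁, Mat_nu_apply, Mat_one_inl]
  · rw [Matrix.fromBlocks_apply₁₂, Matrix.fromBlocks_apply₁₂, Matrix.zero_apply,
      Matrix.zero_apply, map_zero, Matrix.one_apply_ne (by simp), mul_zero, add_zero]
  · rw [Matrix.fromBlocks_apply₂₁, Matrix.fromBlocks_apply₂₁, Matrix.zero_apply,
      Matrix.zero_apply, map_zero, Matrix.one_apply_ne (by simp), mul_zero, add_zero]
  · rw [Matrix.fromBlocks_apply₂₂, Matrix.fromBlocks_apply₂₂, Mat_delta, Mat_one_inr]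
    ring

theorem nuMap_lower (f : R →ₙ+* S) :
    (nuMap (ι ⊕ κ) f).comp (lower ι κ R) = (lower ι κ S).comp (nuMap κ f) := by
  ext g : 1
  apply Units.ext
  ext i j
  rw [MonoidHom.comp_apply, MonoidHom.comp_apply, Mat_nu_apply, Mat_lower, Mat_lower]
  rcases i with i | i <;> rcases j with j | j
  · rw [Matrix.fromBlocks_apply₁₁, Matrix.fromBlocks_apply₁₁, Mat_delta, Mat_one_inl]
    ring
  · rw [Matrix.fromBlocks_apply₁₂, Matrix.fromBlocks_apply₁₂, Matrix.zero_apply,
      Matrix.zero_apply, map_zero, Matrix.one_apply_ne (by simp), mul_zero, add_zero]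
  · rw [Matrix.fromBlocks_apply₂₁, Matrix.fromBlocks_apply₂₁, Matrix.zero_apply,
      Matrix.zero_apply, map_zero, Matrix.one_apply_ne (by simp), mul_zero, add_zero]
  · rw [Matrix.fromBlocks_apply₂₂, Matrix.fromBlocks_apply₂₂, Mat_nu_apply, Mat_one_inr]

theorem nuMap_tensorSq (f : R →ₙ+* S) :
    (nuMap (ι × ι) f).comp (tensorSq ι R) = (tensorSq ι S).comp (nuMap ι f) := by
  ext g : 1
  apply Units.ext
  ext ⟨i, k⟩ ⟨j, l⟩
  rw [MonoidHom.comp_apply, MonoidHom.comp_apply, Mat_nu_apply]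
  change f ((g : Matrix ι ι R) i j * (g : Matrix ι ι R) k l) +
    (1 - f 1) * (1 : Matrix (ι × ι) (ι × ι) S) (i, k) (j, l) =
    (nuMap ι f g : Matrix ι ι S) i j * (nuMap ι f g : Matrix ι ι S) k l
  rw [Mat_nu_apply, Mat_nu_apply, map_mul]
  have h1 : (1 : Matrix (ι × ι) (ι × ι) S) (i, k) (j, l) =
      (1 : Matrix ι ι S) i j * (1 : Matrix ι ι S) k l := by
    rw [Matrix.one_apply, Matrix.one_apply, Matrix.one_apply]
    simp only [Prod.mk.injEq]
    by_cases h : i = j <;> by_cases h' : k = l <;> simp [h, h']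
  rw [h1]
  have h2 := Mat_sub_mul f ((g : Matrix ι ι R) i j)
  have h3 := Mat_sub_mul f ((g : Matrix ι ι R) k l)
  have h4 := Mat_sub_sq f
  linear_combination (-(1 : Matrix ι ι S) k l) * h2 - (1 : Matrix ι ι S) i j * h3 -
    (1 : Matrix ι ι S) i j * (1 : Matrix ι ι S) k l * h4

theorem nuMap_extSq (m : ℕ) (f : R →ₙ+* S) :
    (nuMap (Pairs m) f).comp (extSq m R) = (extSq m S).comp (nuMap (Fin m) f) := by
  ext g : 1
  apply Units.ext
  ext p q
  rw [MonoidHom.comp_apply, MonoidHom.comp_apply, Mat_nu_apply]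
  change f ((g : Matrix (Fin m) (Fin m) R) p.1.1 q.1.1 * (g : Matrix (Fin m) (Fin m) R) p.1.2 q.1.2 -
      (g : Matrix (Fin m) (Fin m) R) p.1.1 q.1.2 * (g : Matrix (Fin m) (Fin m) R) p.1.2 q.1.1) +
    (1 - f 1) * (1 : Matrix (Pairs m) (Pairs m) S) p q =
    (nuMap (Fin m) f g : Matrix (Fin m) (Fin m) S) p.1.1 q.1.1 *
      (nuMap (Fin m) f g : Matrix (Fin m) (Fin m) S) p.1.2 q.1.2 -
    (nuMap (Fin m) f g : Matrix (Fin m) (Fin m) S) p.1.1 q.1.2 *
      (nuMap (Fin m) f g : Matrix (Fin m) (Fin m) S) p.1.2 q.1.1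
  rw [Mat_nu_apply, Mat_nu_apply, Mat_nu_apply, Mat_nu_apply, map_sub, map_mul, map_mul]
  have h1 : (1 : Matrix (Pairs m) (Pairs m) S) p q =
      (1 : Matrix (Fin m) (Fin m) S) p.1.1 q.1.1 * (1 : Matrix (Fin m) (Fin m) S) p.1.2 q.1.2 -
      (1 : Matrix (Fin m) (Fin m) S) p.1.1 q.1.2 * (1 : Matrix (Fin m) (Fin m) S) p.1.2 q.1.1 := by
    rw [← minors_one]
    rfl
  rw [h1]
  have e11 := Mat_sub_mul f ((g : Matrix (Fin m) (Fin m) R) p.1.1 q.1.1)
  have e22 := Mat_sub_mul f ((g : Matrix (Fin m) (Fin m) R) p.1.2 q.1.2)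
  have e12 := Mat_sub_mul f ((g : Matrix (Fin m) (Fin m) R) p.1.1 q.1.2)
  have e21 := Mat_sub_mul f ((g : Matrix (Fin m) (Fin m) R) p.1.2 q.1.1)
  have h4 := Mat_sub_sq f
  linear_combination (-(1 : Matrix (Fin m) (Fin m) S) p.1.2 q.1.2) * e11 -
    (1 : Matrix (Fin m) (Fin m) S) p.1.1 q.1.1 * e22 +
    (1 : Matrix (Fin m) (Fin m) S) p.1.2 q.1.1 * e12 +
    (1 : Matrix (Fin m) (Fin m) S) p.1.1 q.1.2 * e21 -
    ((1 : Matrix (Fin m) (Fin m) S) p.1.1 q.1.1 * (1 : Matrix (Fin m) (Fin m) S) p.1.2 q.1.2 -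
      (1 : Matrix (Fin m) (Fin m) S) p.1.1 q.1.2 * (1 : Matrix (Fin m) (Fin m) S) p.1.2 q.1.1) * h4

theorem glMap_comp' (f : R →+* S) (g : S →+* T) :
    (glMap ι g).comp (glMap ι f) = glMap ι (g.comp f) := by
  ext a : 1
  apply Units.ext
  ext i j
  rfl

theorem glMap_upper (f : R →+* S) :
    (glMap (ι ⊕ κ) f).comp (upper ι κ R) = (upper ι κ S).comp (glMap ι f) := by
  rw [← nuMap_coe, ← nuMap_coe, nuMap_upper]

theorem glMap_lower (f : R →+* S) :
    (glMap (ι ⊕ κ) f).comp (lower ι κ R) = (lower ι κ S).comp (glMap κ f) := by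
  rw [← nuMap_coe, ← nuMap_coe, nuMap_lower]

theorem glMap_tensorSq (f : R →+* S) :
    (glMap (ι × ι) f).comp (tensorSq ι R) = (tensorSq ι S).comp (glMap ι f) := by
  rw [← nuMap_coe, ← nuMap_coe, nuMap_tensorSq]

theorem glMap_extSq (m : ℕ) (f : R →+* S) :
    (glMap (Pairs m) f).comp (extSq m R) = (extSq m S).comp (glMap (Fin m) f) := by
  rw [← nuMap_coe, ← nuMap_coe, nuMap_extSq]

theorem glMap_injective (f : R →+* S) (hf : Function.Injective f) :
    Function.Injective (glMap ι f) := by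
  intro a b hab
  apply Units.ext
  ext i j
  apply hf
  rw [← Mat_gl_apply, ← Mat_gl_apply, hab]

theorem upper_injective : Function.Injective (upper ι κ R) := by
  intro a b hab
  apply Units.ext
  have h := congrArg (fun x : GL (ι ⊕ κ) R => (x : Matrix (ι ⊕ κ) (ι ⊕ κ) R)) hab
  simp only [Mat_upper] at h
  exact (Matrix.fromBlocks_inj.1 h).1

/-- restriction to an idempotent which is killed, resp. preserved, by a ring homomorphism -/
theorem glMap_cut (f : R →+* S) (e : R) (he : e * e = e) (h1 : f e = 1) :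
    (glMap ι f).comp (cut ι e he) = glMap ι f := by
  ext a : 1
  apply Units.ext
  ext i j
  rw [MonoidHom.comp_apply, Mat_gl_apply, Mat_gl_apply, Mat_cut]
  simp only [Matrix.add_apply, Matrix.smul_apply, smul_eq_mul]
  rw [map_add, map_mul, map_mul, map_sub, map_one, h1, one_mul, sub_self, zero_mul, add_zero]

theorem glMap_cut_zero (f : R →+* S) (e : R) (he : e * e = e) (h0 : f e = 0) :
    (glMap ι f).comp (cut ι e he) = 1 := by
  ext a : 1
  apply Units.ext
  ext i j
  rw [MonoidHom.comp_apply, Mat_gl_apply, Mat_cut]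
  simp only [Matrix.add_apply, Matrix.smul_apply, smul_eq_mul]
  rw [map_add, map_mul, map_mul, map_sub, map_one, h0, zero_mul, sub_zero, one_mul, zero_add]
  change f ((1 : Matrix ι ι R) i j) = (1 : Matrix ι ι S) i j
  rw [Matrix.one_apply, Matrix.one_apply]
  split_ifs
  · exact map_one f
  · exact map_zero f

end Pool.Agent.KBS
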