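import Pool.Agent.KBS.Defs

/-! Rational algebraic K-theory with its weights, in terms of the homology of the general linear
groups. (These are the definitions of `Pool.Agent.KBS.Defs` with names for the intermediate
objects, so that every term is short.) -/

set_option autoImplicit false

open Matrix

namespace Pool.Agent.KBS.S

open Pool.Agent.KBS

/-- the group `GL_(ι ⊕ k)(R)` -/
def St (ι : Type) [Fintype ι] [DecidableEq ι] (k : ℕ) (R : Type) [CommRing R] : Type :=
  GL (ι ⊕ Fin k) R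

instance (ι : Type) [Fintype ι] [DecidableEq ι] (k : ℕ) (R : Type) [CommRing R] :
    Group (St ι k R) :=
  (inferInstance : Group (GL (ι ⊕ Fin k) R))

/-- `g ↦ diag(g, 1)`, from `GL_ι(R)` to `GL_(ι ⊕ k)(R)` -/
def stab (ι : Type) [Fintype ι] [DecidableEq ι] (k : ℕ) (R : Type) [CommRing R] :
    GL ι R →* St ι k R :=
  upper ι (Fin k) R

/-- A chain of `GL_ι(R)` is stably a boundary, i.e. its image in the chains of
`GL(R) = ⋃ GL_m(R)` is a boundary. -/
def Null {ι R : Type} [Fintype ι] [DecidableEq ι] [CommRing R] {n : ℕ}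
    (z : Chain (GL ι R) n) : Prop :=
  ∃ k : ℕ, IsBd (push n (stab ι k R) z)

/-- A chain of `GL_ι(R) × GL_ι(R)` is a boundary in `GL(R) × GL(R)`. -/
def NullPair {ι R : Type} [Fintype ι] [DecidableEq ι] [CommRing R] {n : ℕ}
    (z : Chain (GL ι R × GL ι R) n) : Prop :=
  ∃ k : ℕ, IsBd (push n ((stab ι k R).prodMap (stab ι k R)) z)

/-- the index set of the basis of `Λ² V ⊕ V` -/
def W2 (m : ℕ) : Type := Pairs m ⊕ Fin m

instance (m : ℕ) : Fintype (W2 m) := (inferInstance : Fintype (Pairs m ⊕ Fin m))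

instance (m : ℕ) : DecidableEq (W2 m) := (inferInstance : DecidableEq (Pairs m ⊕ Fin m))

/-- the index set of the basis of `V ⊗ V ⊕ Λ² V ⊕ V` -/
def W (m : ℕ) : Type := (Fin m × Fin m) ⊕ W2 m

instance (m : ℕ) : Fintype (W m) := (inferInstance : Fintype ((Fin m × Fin m) ⊕ W2 m))

instance (m : ℕ) : DecidableEq (W m) := (inferInstance : DecidableEq ((Fin m × Fin m) ⊕ W2 m))

/-- the group `GL(V ⊗ V ⊕ Λ² V ⊕ V)` -/
abbrev GW (m : ℕ) (R : Type) [CommRing R] : Type := GL (W m) R

/-- the inclusion of `GL(Λ² V)` in `GL(Λ² V ⊕ V)` -/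
def inExt (m : ℕ) (R : Type) [CommRing R] : GL (Pairs m) R →* GL (W2 m) R :=
  upper (Pairs m) (Fin m) R

/-- the inclusion of `GL(V)` in `GL(Λ² V ⊕ V)` -/
def inV (m : ℕ) (R : Type) [CommRing R] : GL (Fin m) R →* GL (W2 m) R :=
  lower (Pairs m) (Fin m) R

/-- the inclusion of `GL(V ⊗ V)` in `GL(V ⊗ V ⊕ Λ² V ⊕ V)` -/
def inTen (m : ℕ) (R : Type) [CommRing R] : GL (Fin m × Fin m) R →* GW m R :=
  upper (Fin m × Fin m) (W2 m) R

/-- the inclusion of `GL(Λ² V ⊕ V)` in `GL(V ⊗ V ⊕ Λ² V ⊕ V)` -/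
def inLow (m : ℕ) (R : Type) [CommRing R] : GL (W2 m) R →* GW m R :=
  lower (Fin m × Fin m) (W2 m) R

/-- `g ↦ diag(g ⊗ g, 1, 1)` -/
def wTen (m : ℕ) (R : Type) [CommRing R] : GL (Fin m) R →* GW m R :=
  (inTen m R).comp (tensorSq (Fin m) R)

/-- `g ↦ diag(1, Λ² g, 1)` -/
def wExt (m : ℕ) (R : Type) [CommRing R] : GL (Fin m) R →* GW m R :=
  (inLow m R).comp ((inExt m R).comp (extSq m R))

/-- `g ↦ diag(1, 1, g)` -/
def wId (m : ℕ) (R : Type) [CommRing R] : GL (Fin m) R →* GW m R :=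
  (inLow m R).comp (inV m R)

/-- `ψ² z - 2^w z`, where `ψ² z = (V ⊗ V)_* z - 2 (Λ² V)_* z`; the three terms are put into
different diagonal blocks. -/
noncomputable def weightDefect {R : Type} [CommRing R] {m n : ℕ} (w : ℕ)
    (z : Chain (GL (Fin m) R) n) : Chain (GW m R) n :=
  push n (wTen m R) z - (2 : ℚ) • push n (wExt m R) z - (2 : ℚ) ^ w • push n (wId m R) z

/-- `z` is a cycle of degree `n + 1` of `GL_m(R)` whose class in `H_(n+1)(GL(R); ℚ)` is primitive
and of weight `w`, i.e. a class in `K_(n+1)(R)_ℚ^(w)`. -/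
structure IsClass {R : Type} [CommRing R] {m n : ℕ} (w : ℕ) (z : Chain (GL (Fin m) R) (n + 1)) :
    Prop where
  cycle : bd (GL (Fin m) R) n z = 0
  primitive : NullPair (primDefect z)
  weight : Null (weightDefect w z)

/-- `K_(n+1)(R)_ℚ^(w) = 0` -/
def Vanishes (R : Type) [CommRing R] (n w : ℕ) : Prop :=
  ∀ (m : ℕ) (z : Chain (GL (Fin m) R) (n + 1)), IsClass w z → Null z

/-- The representatives of the elements of `K_(n+1)(R)_ℚ^(w)`. -/
structure KRep (R : Type) [CommRing R] (n w : ℕ) where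
  /-- the size of the matrices -/
  m : ℕ
  /-- the cycle -/
  z : Chain (GL (Fin m) R) (n + 1)
  isClass : IsClass w z

/-- the index set of two blocks -/
def I2 (a b : ℕ) : Type := Fin a ⊕ Fin b

instance (a b : ℕ) : Fintype (I2 a b) := (inferInstance : Fintype (Fin a ⊕ Fin b))

instance (a b : ℕ) : DecidableEq (I2 a b) := (inferInstance : DecidableEq (Fin a ⊕ Fin b))

/-- `g ↦ diag(g, 1)` -/
def inU (a b : ℕ) (R : Type) [CommRing R] : GL (Fin a) R →* GL (I2 a b) R :=
  upper (Fin a) (Fin b) R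

/-- `g ↦ diag(1, g)` -/
def inL (a b : ℕ) (R : Type) [CommRing R] : GL (Fin b) R →* GL (I2 a b) R :=
  lower (Fin a) (Fin b) R

/-- `z - z'`, the two chains are put into different diagonal blocks -/
noncomputable def diff {a b n : ℕ} {R : Type} [CommRing R] (z : Chain (GL (Fin a) R) n)
    (z' : Chain (GL (Fin b) R) n) : Chain (GL (I2 a b) R) n :=
  push n (inU a b R) z - push n (inL a b R) z'

/-- Two representatives have the same class in `H_(n+1)(GL(R); ℚ)`. -/
def SameClass {R : Type} [CommRing R] {n w : ℕ} (x y : KRep R n w) : Prop :=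
  Null (diff x.z y.z)

/-- `K_(n+1)(R)_ℚ^(w)` has fewer than continuum many elements (for a rational vector space: its
dimension is less than the continuum). -/
def Small (R : Type) [CommRing R] (n w : ℕ) : Prop :=
  Cardinal.mk (Quot (SameClass (R := R) (n := n) (w := w))) < Cardinal.continuum

/-- `z` bounds a chain of size at most `M` in `GL_(ι ⊕ k)(R)`, `k ≤ M`. -/
def FillLE {ι R : Type} [Fintype ι] [DecidableEq ι] [CommRing R] {n : ℕ} (M : ℕ)
    (z : Chain (GL ι R) n) : Prop :=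
  ∃ k ≤ M, ∃ b : Chain (St ι k R) (n + 1), Bdd M b ∧ bd _ n b = push n (stab ι k R) z

/-- the same for a chain of `GL_ι(R) × GL_ι(R)` -/
def FillPairLE {ι R : Type} [Fintype ι] [DecidableEq ι] [CommRing R] {n : ℕ} (M : ℕ)
    (z : Chain (GL ι R × GL ι R) n) : Prop :=
  ∃ k ≤ M, ∃ b : Chain (St ι k R × St ι k R) (n + 1), Bdd M b ∧
    bd _ n b = push n ((stab ι k R).prodMap (stab ι k R)) z

/-- `z` represents an element of `K_(n+1)(R)_ℚ^(w)`, and all the data which show this have size at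
most `N`. -/
structure IsClassLE {R : Type} [CommRing R] {m n : ℕ} (N w : ℕ)
    (z : Chain (GL (Fin m) R) (n + 1)) : Prop where
  size : m ≤ N
  bdd : Bdd N z
  cycle : bd (GL (Fin m) R) n z = 0
  primitive : FillPairLE N (primDefect z)
  weight : FillLE N (weightDefect w z)

/-- Uniform filling over the prime fields: for every `N` there is `M` such that for every prime
`p` each element of `K_(n+1)(𝔽_p)_ℚ^(w)` given by data of size at most `N` bounds a chain of size
at most `M`. -/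
def Uniform (n w : ℕ) : Prop :=
  ∀ N : ℕ, ∃ M : ℕ, ∀ (p : ℕ) (_ : Fact p.Prime) (m : ℕ) (z : Chain (GL (Fin m) (ZMod p)) (n + 1)),
    IsClassLE N w z → FillLE M z

/-- Uniform filling over the algebraic closures of infinitely many prime fields. -/
def UniformClosure (n w : ℕ) : Prop :=
  ∀ N : ℕ, ∃ M : ℕ, ∀ q : ℕ, ∃ (p : ℕ) (_ : Fact p.Prime), q ≤ p ∧
    ∀ (m : ℕ) (z : Chain (GL (Fin m) (AlgebraicClosure (ZMod p))) (n + 1)),
      IsClassLE N w z → FillLE M z

/-- Uniform filling over the number fields. -/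
def UniformNumber (n w : ℕ) : Prop :=
  ∀ N : ℕ, ∃ M : ℕ, ∀ (F : Type) (_ : Field F) (_ : NumberField F) (m : ℕ)
    (z : Chain (GL (Fin m) F) (n + 1)), IsClassLE N w z → FillLE M z

end Pool.Agent.KBS.S
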