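import Pool.Agent.KBS.SDefs
import Pool.Agent.KBS.NumDef

/-! The two sets of definitions are equivalent. -/

set_option autoImplicit false

open Matrix

namespace Pool.Agent.KBS.S

open Pool.Agent.KBS

theorem null_iff {ι R : Type} [Fintype ι] [DecidableEq ι] [CommRing R] {n : ℕ}
    (z : Chain (GL ι R) n) : Null z ↔ Pool.Agent.KBS.Null z := Iff.rfl

theorem nullPair_iff {ι R : Type} [Fintype ι] [DecidableEq ι] [CommRing R] {n : ℕ}
    (z : Chain (GL ι R × GL ι R) n) : NullPair z ↔ Pool.Agent.KBS.NullPair z := Iff.rfl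

theorem weight_iff {R : Type} [CommRing R] {m n : ℕ} (w : ℕ)
    (z : Chain (GL (Fin m) R) n) :
    Null (weightDefect w z) ↔ Pool.Agent.KBS.Null (Pool.Agent.KBS.weightDefect w z) := Iff.rfl

theorem isClass_iff {R : Type} [CommRing R] {m n : ℕ} (w : ℕ)
    (z : Chain (GL (Fin m) R) (n + 1)) : IsClass w z ↔ Pool.Agent.KBS.IsClass w z :=
  ⟨fun h => ⟨h.cycle, h.primitive, h.weight⟩, fun h => ⟨h.cycle, h.primitive, h.weight⟩⟩

theorem vanishes_iff (R : Type) [CommRing R] (n w : ℕ) :
    Vanishes R n w ↔ Pool.Agent.KBS.Vanishes R n w :=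
  forall₂_congr fun _ z => imp_congr (isClass_iff w z) Iff.rfl

theorem fillLE_iff {R : Type} [CommRing R] {m n : ℕ} (M : ℕ) (z : Chain (GL (Fin m) R) n) :
    FillLE M z ↔ Pool.Agent.KBS.FillLE M z := Iff.rfl

theorem isClassLE_iff {R : Type} [CommRing R] {m n : ℕ} (N w : ℕ)
    (z : Chain (GL (Fin m) R) (n + 1)) : IsClassLE N w z ↔ Pool.Agent.KBS.IsClassLE N w z :=
  ⟨fun h => ⟨h.size, h.bdd, h.cycle, h.primitive, h.weight⟩,
    fun h => ⟨h.size, h.bdd, h.cycle, h.primitive, h.weight⟩⟩

theorem uniform_iff (n w : ℕ) : Uniform n w ↔ Pool.Agent.KBS.Uniform n w := by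
  refine forall_congr' fun N => exists_congr fun M => forall_congr' fun p => forall_congr' fun _ =>
    forall₂_congr fun m z => imp_congr (isClassLE_iff N w z) (fillLE_iff M z)

theorem uniformNumber_iff (n w : ℕ) : UniformNumber n w ↔ Pool.Agent.KBS.UniformNumber n w := by
  refine forall_congr' fun N => exists_congr fun M => forall_congr' fun p => forall_congr' fun _ =>
    forall_congr' fun _ =>
      forall₂_congr fun m z => imp_congr (isClassLE_iff N w z) (fillLE_iff M z)

theorem uniformClosure_iff (n w : ℕ) :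
    UniformClosure n w ↔ Pool.Agent.KBS.UniformClosure n w := by
  refine forall_congr' fun N => exists_congr fun M => forall_congr' fun q =>
    exists_congr fun p => exists_congr fun _ => and_congr_right fun _ =>
      forall₂_congr fun m z => imp_congr (isClassLE_iff N w z) (fillLE_iff M z)

/-- the representatives agree -/
def repEquiv (R : Type) [CommRing R] (n w : ℕ) : KRep R n w ≃ Pool.Agent.KBS.KRep R n w where
  toFun x := ⟨x.m, x.z, (isClass_iff w x.z).1 x.isClass⟩
  invFun x := ⟨x.1, x.2.1, (isClass_iff w x.2.1).2 x.2.2⟩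
  left_inv _ := rfl
  right_inv _ := rfl

theorem sameClass_iff {R : Type} [CommRing R] {n w : ℕ} (x y : KRep R n w) :
    SameClass x y ↔ Pool.Agent.KBS.SameClass (repEquiv R n w x) (repEquiv R n w y) := Iff.rfl

theorem small_iff (R : Type) [CommRing R] (n w : ℕ) :
    Small R n w ↔ Pool.Agent.KBS.Small R n w := by
  have h : Quot (SameClass (R := R) (n := n) (w := w)) ≃
      Quot (Pool.Agent.KBS.SameClass (R := R) (n := n) (w := w)) :=
    Quot.congr (repEquiv R n w) sameClass_iff
  unfold Small Pool.Agent.KBS.Small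
  rw [Cardinal.mk_congr h]

end Pool.Agent.KBS.S
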