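import Pool.Agent.KBS.Main
import Pool.Agent.KBS.SEq

/-! The main theorem in terms of the definitions of `Pool.Agent.KBS.SDefs`. -/

set_option autoImplicit false

open Matrix

namespace Pool.Agent.KBS.S

open Pool.Agent.KBS

theorem main (n w : ℕ) :
    (∀ (p : ℕ) (_ : Fact p.Prime) (m : ℕ) (z : Chain (GL (Fin m) (ZMod p)) (n + 1)),
      bd _ n z = 0 → IsBd z) ∧
    List.TFAE [
      ∀ (F : Type) (_ : Field F) (_ : CharZero F), Vanishes F n w,
      Vanishes ℂ n w,
      ∃ (K : Type) (_ : Field K) (_ : CharZero K) (_ : IsAlgClosed K),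
        InfiniteTrdeg K ∧ Vanishes K n w,
      Vanishes (AlgebraicClosure ℚ) n w ∧ Small ℂ n w,
      Vanishes (∀ p : Nat.Primes, ZMod p) n w,
      Small (∀ p : Nat.Primes, ZMod p) n w,
      Uniform n w,
      UniformClosure n w,
      UniformNumber n w] := by
  simp only [vanishes_iff, small_iff, uniform_iff, uniformClosure_iff, uniformNumber_iff]
  exact Pool.Agent.KBS.main n w

end Pool.Agent.KBS.S
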