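import Pool.Agent.KBS.Mat
import Pool.Agent.KBS.Conj

/-! KBS-Stb. Calculus of stable boundaries: enlarging the stabilisation, linearity, reindexing,
passing to larger blocks, conjugation. -/

set_option autoImplicit false

open Matrix

namespace Pool.Agent.KBS

variable {ι κ : Type} [Fintype ι] [DecidableEq ι] [Fintype κ] [DecidableEq κ]
variable {R S : Type} [CommRing R] [CommRing S] {n : ℕ}

/-- reindexing -/
def gre (R : Type) [CommRing R] (e : ι ≃ κ) : GL ι R →* GL κ R :=
  Units.map (Matrix.reindexAlgEquiv R R e).toMonoidHom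

theorem upper_val (g : GL ι R) :
    ((upper ι κ R g : GL (ι ⊕ κ) R) : Matrix (ι ⊕ κ) (ι ⊕ κ) R) =
      Matrix.fromBlocks (g : Matrix ι ι R) 0 0 1 := rfl

theorem lower_val (g : GL κ R) :
    ((lower ι κ R g : GL (ι ⊕ κ) R) : Matrix (ι ⊕ κ) (ι ⊕ κ) R) =
      Matrix.fromBlocks 1 0 0 (g : Matrix κ κ R) := rfl

theorem gre_val (e : ι ≃ κ) (g : GL ι R) :
    ((gre R e g : GL κ R) : Matrix κ κ R) = Matrix.reindex e e (g : Matrix ι ι R) := rfl

theorem lower_eq (ι κ R : Type) [Fintype ι] [DecidableEq ι] [Fintype κ] [DecidableEq κ]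
    [CommRing R] : lower ι κ R = (gre R (Equiv.sumComm κ ι)).comp (upper κ ι R) := by
  apply MonoidHom.ext
  intro g
  apply Units.ext
  rw [MonoidHom.comp_apply, gre_val, upper_val, lower_val]
  ext i j
  rcases i with i | i <;> rcases j with j | j <;> simp [Matrix.one_apply]

theorem upper_upper (ι κ μ R : Type) [Fintype ι] [DecidableEq ι] [Fintype κ] [DecidableEq κ]
    [Fintype μ] [DecidableEq μ] [CommRing R] :
    (gre R (Equiv.sumAssoc ι κ μ)).comp ((upper (ι ⊕ κ) μ R).comp (upper ι κ R)) =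
      upper ι (κ ⊕ μ) R := by
  apply MonoidHom.ext
  intro g
  apply Units.ext
  rw [MonoidHom.comp_apply, MonoidHom.comp_apply, gre_val, upper_val, upper_val, upper_val]
  ext i j
  rcases i with i | i | i <;> rcases j with j | j | j <;> simp [Matrix.one_apply]

theorem upper_congr {μ : Type} [Fintype μ] [DecidableEq μ] (e : κ ≃ μ) :
    (gre R (Equiv.sumCongr (Equiv.refl ι) e)).comp (upper ι κ R) = upper ι μ R := by
  apply MonoidHom.ext
  intro g
  apply Units.ext
  rw [MonoidHom.comp_apply, gre_val, upper_val, upper_val]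
  ext i j
  rcases i with i | i <;> rcases j with j | j <;> simp [Matrix.one_apply]

theorem gre_upper {μ : Type} [Fintype μ] [DecidableEq μ] (e : ι ≃ κ) :
    (upper κ μ R).comp (gre R e) =
      (gre R (Equiv.sumCongr e (Equiv.refl μ))).comp (upper ι μ R) := by
  apply MonoidHom.ext
  intro g
  apply Units.ext
  rw [MonoidHom.comp_apply, MonoidHom.comp_apply, gre_val, upper_val, upper_val, gre_val]
  ext i j
  rcases i with i | i <;> rcases j with j | j <;> simp [Matrix.one_apply]

theorem gre_gre {μ : Type} [Fintype μ] [DecidableEq μ] (e : ι ≃ κ) (f : κ ≃ μ) :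
    (gre R f).comp (gre R e) = gre R (e.trans f) := rfl

theorem gre_refl : gre R (Equiv.refl ι) = MonoidHom.id _ := rfl

/-- the bijection used to enlarge the stabilisation -/
def monoEquiv {k l : ℕ} (h : k ≤ l) : Fin k ⊕ Fin (l - k) ≃ Fin l :=
  finSumFinEquiv.trans (finCongr (by omega))

theorem upper_mono_eq (ι R : Type) [Fintype ι] [DecidableEq ι] [CommRing R] {k l : ℕ}
    (h : k ≤ l) : upper ι (Fin l) R =
      ((gre R ((Equiv.sumAssoc ι (Fin k) (Fin (l - k))).trans
        (Equiv.sumCongr (Equiv.refl ι) (monoEquiv h)))).comp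
          (upper (ι ⊕ Fin k) (Fin (l - k)) R)).comp (upper ι (Fin k) R) := by
  rw [← gre_gre, MonoidHom.comp_assoc, MonoidHom.comp_assoc, upper_upper, upper_congr]

theorem isBd_upper_mono {k l : ℕ} (h : k ≤ l) (z : Chain (GL ι R) n)
    (hz : IsBd (push n (upper ι (Fin k) R) z)) : IsBd (push n (upper ι (Fin l) R) z) := by
  rw [upper_mono_eq ι R h, push_comp]
  exact hz.push' _

theorem isBd_pair_mono {k l : ℕ} (h : k ≤ l) (z : Chain (GL ι R × GL ι R) n)
    (hz : IsBd (push n ((upper ι (Fin k) R).prodMap (upper ι (Fin k) R)) z)) :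
    IsBd (push n ((upper ι (Fin l) R).prodMap (upper ι (Fin l) R)) z) := by
  rw [upper_mono_eq ι R h]
  have h1 : ∀ (A B C : Type) [Group A] [Group B] [Group C] (f : A →* B) (g : B →* C),
      (g.comp f).prodMap (g.comp f) = (g.prodMap g).comp (f.prodMap f) := by
    intro A B C _ _ _ f g
    rfl
  rw [h1, push_comp]
  exact hz.push' _

theorem null_of_isBd {z : Chain (GL ι R) n} (h : IsBd z) : Null z :=
  ⟨0, h.push' _⟩

theorem null_zero : Null (0 : Chain (GL ι R) n) := null_of_isBd isBd_zero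

theorem Null.add {z z' : Chain (GL ι R) n} (h : Null z) (h' : Null z') : Null (z + z') := by
  obtain ⟨k, hk⟩ := h
  obtain ⟨l, hl⟩ := h'
  refine ⟨max k l, ?_⟩
  rw [map_add]
  exact (isBd_upper_mono (le_max_left k l) z hk).add (isBd_upper_mono (le_max_right k l) z' hl)

theorem Null.smul {z : Chain (GL ι R) n} (q : ℚ) (h : Null z) : Null (q • z) := by
  obtain ⟨k, hk⟩ := h
  refine ⟨k, ?_⟩
  rw [map_smul]
  exact hk.smul q

theorem Null.neg {z : Chain (GL ι R) n} (h : Null z) : Null (-z) := by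
  obtain ⟨k, hk⟩ := h
  refine ⟨k, ?_⟩
  rw [map_neg]
  exact hk.neg

theorem Null.sub {z z' : Chain (GL ι R) n} (h : Null z) (h' : Null z') : Null (z - z') := by
  rw [sub_eq_add_neg]
  exact h.add h'.neg

theorem null_smul_iff {z : Chain (GL ι R) n} {q : ℚ} (hq : q ≠ 0) : Null (q • z) ↔ Null z :=
  ⟨fun h => by simpa [smul_smul, inv_mul_cancel₀ hq] using h.smul q⁻¹, fun h => h.smul q⟩

theorem Null.gre' (e : ι ≃ κ) {z : Chain (GL ι R) n} (h : Null z) :
    Null (push n (gre R e) z) := by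
  obtain ⟨k, hk⟩ := h
  refine ⟨k, ?_⟩
  rw [← push_comp, gre_upper, push_comp]
  exact hk.push' _

theorem null_gre (e : ι ≃ κ) (z : Chain (GL ι R) n) : Null (push n (gre R e) z) ↔ Null z := by
  refine ⟨fun h => ?_, fun h => h.gre' e⟩
  have h1 := h.gre' e.symm
  rw [← push_comp, gre_gre, Equiv.self_trans_symm, gre_refl, push_id] at h1
  exact h1

theorem null_upper (z : Chain (GL ι R) n) : Null (push n (upper ι κ R) z) ↔ Null z := by
  have key : ∀ k : ℕ, ∃ e : (ι ⊕ κ) ⊕ Fin k ≃ ι ⊕ Fin (Fintype.card κ + k),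
      (gre R e).comp ((upper (ι ⊕ κ) (Fin k) R).comp (upper ι κ R)) =
        upper ι (Fin (Fintype.card κ + k)) R := by
    intro k
    refine ⟨(Equiv.sumAssoc ι κ (Fin k)).trans (Equiv.sumCongr (Equiv.refl ι)
      ((Equiv.sumCongr (Fintype.equivFin κ) (Equiv.refl _)).trans finSumFinEquiv)), ?_⟩
    rw [← gre_gre, MonoidHom.comp_assoc, upper_upper, upper_congr]
  constructor
  · rintro ⟨k, hk⟩
    obtain ⟨e, he⟩ := key k
    refine ⟨Fintype.card κ + k, ?_⟩
    rw [← he, push_comp, push_comp]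
    exact hk.push' _
  · rintro ⟨k, hk⟩
    obtain ⟨e, he⟩ := key k
    refine ⟨k, ?_⟩
    have h1 : IsBd (push n (upper ι (Fin (Fintype.card κ + k)) R) z) :=
      isBd_upper_mono (by omega) z hk
    have h2 : (upper (ι ⊕ κ) (Fin k) R).comp (upper ι κ R) =
        (gre R e.symm).comp (upper ι (Fin (Fintype.card κ + k)) R) := by
      rw [← he, ← MonoidHom.comp_assoc, gre_gre, Equiv.self_trans_symm, gre_refl,
        MonoidHom.id_comp]
    rw [← push_comp, h2, push_comp]
    exact h1.push' _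

theorem null_lower (z : Chain (GL κ R) n) : Null (push n (lower ι κ R) z) ↔ Null z := by
  rw [lower_eq, push_comp, null_gre, null_upper]

/-- conjugate homomorphisms -/
theorem null_conj {G : Type} [Group G] (f f' : G →* GL ι R) (x : GL ι R)
    (h : ∀ g, f' g = x * f g * x⁻¹) (z : Chain G (n + 1)) (hz : bd G n z = 0) :
    Null (push (n + 1) f z - push (n + 1) f' z) :=
  null_of_isBd (isBd_conj f f' x h z hz)

end Pool.Agent.KBS
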