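import Pool.Agent.KBS.Emb
import Pool.Agent.KBS.LosF
import Pool.Agent.KBS.Fld

/-! KBS-TA. Uniform filling implies vanishing for all fields of characteristic zero.

PLAN. `z` a class over `F`. `exists_isClass_descent`: `S`, `B = Subring.closure S`, `zB` a class over
`B` with push `z`. `exists_prime_homs`: `p k`, `φ k`. Let `U = Filter.hyperfilter ℕ` and `E` the
ultraproduct of the `ZMod (p k)`; `ψ = π.comp (RingHom.pi φ) : B → E` is injective
(`ultra_injective`). Let `zA = push (glMap (RingHom.pi φ)) zB`; its components are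
`push (glMap (φ k)) zB`, classes with data of size `≤ N` for one `N` (`IsClass.exists_le`), so they
satisfy `FillLE M` for one `M` by `Uniform`; by `null_of_fillLE` `push (glMap ψ) zB` is null, and
`null_over_subring` gives `Null z`. For `UniformClosure` the same: first `N` (it does not depend on
the primes), then `M`, then `P p :=` the condition for `p`, then `exists_closure_homs`. (For `P` use
`∃ _ : Fact p.Prime, ∀ m z, IsClassLE N w z → FillLE M z`.) -/

set_option autoImplicit false

open Filter Matrix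

namespace Pool.Agent.KBS

/-- the common part of the two theorems -/
private theorem core {n w m : ℕ} {L : Type} [Field L] (B : Subring L)
    (zB : Chain (GL (Fin m) B) (n + 1)) (hcl : IsClass w zB) (F : ℕ → Type) [∀ k, Field (F k)]
    (φ : ∀ k, B →+* F k) (hφ : ∀ b : B, b ≠ 0 → ∃ k0, ∀ k, k0 ≤ k → φ k b ≠ 0) (M : ℕ)
    (hM : ∀ k, FillLE M (push (n + 1) (glMap (Fin m) (φ k)) zB)) :
    Null (push (n + 1) (glMap (Fin m) B.subtype) zB) := by
  obtain ⟨K, _, π, hK⟩ := exists_ultra (hyperfilter ℕ) F
  have hψ : Function.Injective (π.comp (RingHom.pi φ)) := by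
    apply ultra_injective hK φ
    intro b hb
    obtain ⟨k0, hk0⟩ := hφ b hb
    have h1 : ∀ᶠ k in atTop, φ k b ≠ 0 := eventually_atTop.2 ⟨k0, hk0⟩
    exact h1.filter_mono Nat.hyperfilter_le_atTop
  have h2 := null_of_fillLE hK (push (n + 1) (glMap (Fin m) (RingHom.pi φ)) zB) M
    (Eventually.of_forall fun k => by
      rw [← push_comp, glMap_comp']
      exact hM k)
  rw [← push_comp, glMap_comp'] at h2
  exact null_over_subring B _ hψ zB hcl.cycle hcl.primitive h2

theorem vanishes_of_uniform {n w : ℕ} (h : Uniform n w) (F : Type) [Field F] [CharZero F] :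
    Vanishes F n w := by
  intro m z hz
  obtain ⟨S, hS⟩ := exists_isClass_descent z hz
  obtain ⟨zB, hzB, hcl⟩ := hS (Subring.closure (S : Set F)) Subring.subset_closure
  obtain ⟨p, hp, φ, -, hφ⟩ := exists_prime_homs F S
  obtain ⟨N, hN⟩ := hcl.exists_le
  obtain ⟨M, hM⟩ := h N
  rw [← hzB]
  exact core _ zB hcl (fun k => ZMod (p k)) φ hφ M
    (fun k => hM (p k) (hp k) m _ (hN (ZMod (p k)) _ (φ k)))

theorem vanishes_of_uniformClosure {n w : ℕ} (h : UniformClosure n w) (F : Type) [Field F]
    [CharZero F] : Vanishes F n w := by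
  intro m z hz
  obtain ⟨S, hS⟩ := exists_isClass_descent z hz
  obtain ⟨zB, hzB, hcl⟩ := hS (Subring.closure (S : Set F)) Subring.subset_closure
  obtain ⟨N, hN⟩ := hcl.exists_le
  obtain ⟨M, hM⟩ := h N
  obtain ⟨p, hp, φ, -, hP, hφ⟩ := exists_closure_homs F S
    (fun p => ∃ _ : Fact p.Prime,
      ∀ (m : ℕ) (z : Chain (GL (Fin m) (AlgebraicClosure (ZMod p))) (n + 1)),
        IsClassLE N w z → FillLE M z)
    (fun q => by
      obtain ⟨p, hp, hq, hz⟩ := hM q
      exact ⟨p, hq, hp.out, hp, hz⟩)
  rw [← hzB]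
  refine core _ zB hcl (fun k => AlgebraicClosure (ZMod (p k))) φ hφ M (fun k => ?_)
  obtain ⟨_, hk⟩ := hP k
  exact hk m _ (hN (AlgebraicClosure (ZMod (p k))) _ (φ k))

end Pool.Agent.KBS
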