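import Pool.Agent.KBS.Los
import Pool.Agent.KBS.Cls

/-! KBS-Ult. Ultraproducts of fields and their general linear groups.

PLAN. `exists_ultra` as in Helper26/BSU/Ultra.lean (there for `I = ℕ`): quotient of the product by
the maximal ideal of the families which vanish almost everywhere. `ultraGroup_gl`: `lift` and
`eq_iff` entrywise; `surj`: lift the entries of `g` and `g⁻¹`, the products are `1` on a set
`J ∈ U`, put the identity outside `J`. `ultraGroup_pair`: formal from `ultraGroup_gl`.
`exists_cut_eq_zero`: for `c` with `push π c = 0` let `J ∈ U` be the set of `i` such that for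
`s, t` in the support with equal images under `π` the `i`-th components are equal; then
`cut (ind J)` identifies `s` and `t` (check all evaluations), use `mapDomain_eq_zero_of_factor`. -/

set_option autoImplicit false

open Filter Matrix

namespace Pool.Agent.KBS

/-- `K` is the ultraproduct of the fields `F i`. -/
def IsUltra {I : Type} (U : Ultrafilter I) (F : I → Type) [∀ i, Field (F i)] (K : Type) [Field K]
    (π : (∀ i, F i) →+* K) : Prop :=
  Function.Surjective π ∧ ∀ x, π x = 0 ↔ ∀ᶠ i in (U : Filter I), x i = 0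

variable {I : Type} {U : Ultrafilter I} {F : I → Type} [∀ i, Field (F i)] {K : Type} [Field K]
  {π : (∀ i, F i) →+* K} {ι : Type} [Fintype ι] [DecidableEq ι] {n : ℕ}

/-- the ideal of the families which vanish almost everywhere -/
private def ultIdeal (U : Ultrafilter I) (F : I → Type) [∀ i, Field (F i)] : Ideal (∀ i, F i) where
  carrier := {x | ∀ᶠ i in (U : Filter I), x i = 0}
  add_mem' := by
    intro x y hx hy
    filter_upwards [hx, hy] with i h1 h2
    rw [Pi.add_apply, h1, h2, add_zero]
  zero_mem' := by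
    filter_upwards with i
    rfl
  smul_mem' := by
    intro c x hx
    filter_upwards [hx] with i h
    rw [smul_eq_mul, Pi.mul_apply, h, mul_zero]

private theorem mem_ultIdeal (U : Ultrafilter I) (F : I → Type) [∀ i, Field (F i)] (x : ∀ i, F i) :
    x ∈ ultIdeal U F ↔ ∀ᶠ i in (U : Filter I), x i = 0 := Iff.rfl

private theorem ultIdeal_isMaximal (U : Ultrafilter I) (F : I → Type) [∀ i, Field (F i)] :
    (ultIdeal U F).IsMaximal := by
  classical
  rw [Ideal.isMaximal_iff]
  refine ⟨?_, ?_⟩
  · rw [mem_ultIdeal]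
    intro h
    obtain ⟨i, hi⟩ := h.exists
    exact one_ne_zero hi
  · intro J x hJ hx hxJ
    rw [mem_ultIdeal, ← Ultrafilter.eventually_not] at hx
    have h1 : (1 : ∀ i, F i) - (fun i => (x i)⁻¹) * x ∈ ultIdeal U F := by
      rw [mem_ultIdeal]
      filter_upwards [hx] with i hi
      rw [Pi.sub_apply, Pi.mul_apply, Pi.one_apply, inv_mul_cancel₀ hi, sub_self]
    have h2 := J.add_mem (hJ h1) (J.mul_mem_left (fun i => (x i)⁻¹) hxJ)
    simpa using h2

theorem exists_ultra (U : Ultrafilter I) (F : I → Type) [∀ i, Field (F i)] :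
    ∃ (K : Type) (_ : Field K) (π : (∀ i, F i) →+* K), IsUltra U F K π := by
  have := ultIdeal_isMaximal U F
  refine ⟨(∀ i, F i) ⧸ ultIdeal U F, Ideal.Quotient.field _, Ideal.Quotient.mk _,
    Ideal.Quotient.mk_surjective, fun x => ?_⟩
  rw [Ideal.Quotient.eq_zero_iff_mem, mem_ultIdeal]

private theorem IsUltra.eq_iff' (h : IsUltra U F K π) (x y : ∀ i, F i) :
    π x = π y ↔ ∀ᶠ i in (U : Filter I), x i = y i := by
  rw [← sub_eq_zero, ← map_sub, h.2]
  simp only [Pi.sub_apply, sub_eq_zero]

theorem IsUltra.charZero (h : IsUltra U F K π)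
    (hF : ∀ m : ℕ, 0 < m → ∀ᶠ i in (U : Filter I), (m : F i) ≠ 0) : CharZero K := by
  refine charZero_of_inj_zero fun n hn => ?_
  by_contra hn0
  have h1 : π (n : ∀ i, F i) = 0 := by rw [map_natCast, hn]
  rw [h.2] at h1
  obtain ⟨i, hi, hi'⟩ := (h1.and (hF n (Nat.pos_of_ne_zero hn0))).exists
  exact hi' hi

/-- an ultraproduct of prime fields is of characteristic zero or finite -/
theorem IsUltra.charZero_or_finite {p : I → ℕ} [∀ i, Fact (p i).Prime]
    {K : Type} [Field K] {π : (∀ i, ZMod (p i)) →+* K}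
    (h : IsUltra U (fun i => ZMod (p i)) K π) : CharZero K ∨ Finite K := by
  by_cases hm : ∀ m : ℕ, 0 < m → ∀ᶠ i in (U : Filter I), (m : ZMod (p i)) ≠ 0
  · exact Or.inl (h.charZero hm)
  · right
    push Not at hm
    obtain ⟨m, hm0, hm⟩ := hm
    have hm' : ∀ᶠ i in (U : Filter I), (m : ZMod (p i)) = 0 := hm
    refine Finite.of_surjective (fun k : Fin m => ((k : ℕ) : K)) ?_
    intro y
    obtain ⟨x, rfl⟩ := h.1 y
    have h2 : (⋃ k ∈ Set.univ, {i | x i = ((k : Fin m) : ℕ)}) ∈ U := by
      filter_upwards [hm'] with i hi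
      have hp : p i ∣ m := (ZMod.natCast_eq_zero_iff m (p i)).1 hi
      have hpm : p i ≤ m := Nat.le_of_dvd hm0 hp
      have hpp : Fact (p i).Prime := inferInstance
      have hne : NeZero (p i) := ⟨hpp.out.ne_zero⟩
      have hlt : (x i).val < p i := ZMod.val_lt (x i)
      simp only [Set.mem_univ, Set.iUnion_true, Set.mem_iUnion]
      refine ⟨⟨(x i).val, hlt.trans_le hpm⟩, ?_⟩
      exact (ZMod.natCast_zmod_val (x i)).symm
    obtain ⟨k, _, hk⟩ := (Ultrafilter.finite_biUnion_mem_iff Set.finite_univ).1 h2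
    refine ⟨k, ?_⟩
    change ((k : ℕ) : K) = π x
    rw [← map_natCast π, h.eq_iff']
    filter_upwards [hk] with i hi
    have hi' : x i = ((k : ℕ) : ZMod (p i)) := hi
    rw [hi']
    rfl

private def gmat (F : I → Type) (ι : Type) (M : ∀ i, Matrix ι ι (F i)) : Matrix ι ι (∀ i, F i) :=
  Matrix.of fun a b i => M i a b

private theorem gmat_mul_eq_one (F : I → Type) [∀ i, Field (F i)] (ι : Type) [Fintype ι]
    [DecidableEq ι] (M N : ∀ i, Matrix ι ι (F i)) (h : ∀ i, M i * N i = 1) :
    gmat F ι M * gmat F ι N = 1 := by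
  apply Matrix.ext
  intro a b
  rw [Matrix.mul_apply]
  funext i
  rw [Finset.sum_apply]
  have h1 : (M i * N i) a b = (1 : Matrix ι ι (F i)) a b := by rw [h i]
  rw [Matrix.mul_apply] at h1
  refine h1.trans ?_
  rw [Matrix.one_apply, Matrix.one_apply]
  split_ifs <;> rfl

private theorem gl_lift (F : I → Type) [∀ i, Field (F i)] (ι : Type) [Fintype ι] [DecidableEq ι]
    (g : ∀ i, GL ι (F i)) :
    ∃ x : GL ι (∀ i, F i), ∀ i, glMap ι (Pi.evalRingHom F i) x = g i := by
  refine ⟨⟨gmat F ι fun i => (g i).1, gmat F ι fun i => ((g i)⁻¹ : GL ι (F i)).1,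
    gmat_mul_eq_one F ι _ _ fun i => ?_, gmat_mul_eq_one F ι _ _ fun i => ?_⟩, ?_⟩
  · rw [← Units.val_mul, mul_inv_cancel, Units.val_one]
  · rw [← Units.val_mul, inv_mul_cancel, Units.val_one]
  · intro i
    apply Units.ext
    apply Matrix.ext
    intro a b
    rfl

private theorem gl_eq_iff (h : IsUltra U F K π) (ι : Type) [Fintype ι] [DecidableEq ι]
    (x y : GL ι (∀ i, F i)) : glMap ι π x = glMap ι π y ↔
      ∀ᶠ i in (U : Filter I), glMap ι (Pi.evalRingHom F i) x = glMap ι (Pi.evalRingHom F i) y := by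
  have h1 : glMap ι π x = glMap ι π y ↔ ∀ a b : ι,
      π ((x : Matrix ι ι (∀ i, F i)) a b) = π ((y : Matrix ι ι (∀ i, F i)) a b) := by
    constructor
    · intro h2 a b
      exact congrArg (fun u : GL ι K => (u : Matrix ι ι K) a b) h2
    · intro h2
      apply Units.ext
      apply Matrix.ext
      intro a b
      exact h2 a b
  have h3 : ∀ i, glMap ι (Pi.evalRingHom F i) x = glMap ι (Pi.evalRingHom F i) y ↔ ∀ a b : ι,
      (x : Matrix ι ι (∀ i, F i)) a b i = (y : Matrix ι ι (∀ i, F i)) a b i := by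
    intro i
    constructor
    · intro h2 a b
      exact congrArg (fun u : GL ι (F i) => (u : Matrix ι ι (F i)) a b) h2
    · intro h2
      apply Units.ext
      apply Matrix.ext
      intro a b
      exact h2 a b
  rw [h1]
  simp only [h3, h.eq_iff']
  rw [Filter.eventually_all]
  exact forall_congr' fun a => (Filter.eventually_all).symm

theorem IsUltra.ultraGroup_gl (h : IsUltra U F K π) (ι : Type) [Fintype ι] [DecidableEq ι] :
    UltraGroup U (GL ι (∀ i, F i)) (fun i => GL ι (F i)) (GL ι K)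
      (fun i => glMap ι (Pi.evalRingHom F i)) (glMap ι π) := by
  classical
  refine ⟨gl_lift F ι, ?_, gl_eq_iff h ι⟩
  intro g
  choose A hA using fun a b : ι => h.1 ((g : Matrix ι ι K) a b)
  choose B hB using fun a b : ι => h.1 (((g⁻¹ : GL ι K) : Matrix ι ι K) a b)
  let A' : ∀ i, Matrix ι ι (F i) := fun i => Matrix.of fun a b => A a b i
  let B' : ∀ i, Matrix ι ι (F i) := fun i => Matrix.of fun a b => B a b i
  have hAB : ∀ᶠ i in (U : Filter I), A' i * B' i = 1 := by
    have h1 : ∀ a b : ι, ∀ᶠ i in (U : Filter I), (A' i * B' i) a b = (1 : Matrix ι ι (F i)) a b := by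
      intro a b
      have h2 : π (∑ j, A a j * B j b) = π ((1 : Matrix ι ι (∀ i, F i)) a b) := by
        have h3 : π (∑ j, A a j * B j b) =
            ((g : Matrix ι ι K) * ((g⁻¹ : GL ι K) : Matrix ι ι K)) a b := by
          rw [map_sum, Matrix.mul_apply]
          simp only [map_mul, hA, hB]
        rw [h3, ← Units.val_mul, mul_inv_cancel, Units.val_one, Matrix.one_apply,
          Matrix.one_apply]
        split_ifs
        · rw [map_one]
        · rw [map_zero]
      rw [h.eq_iff'] at h2
      filter_upwards [h2] with i hi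
      rw [Matrix.mul_apply]
      rw [Finset.sum_apply] at hi
      refine (Eq.trans ?_ hi).trans ?_
      · rfl
      · rw [Matrix.one_apply, Matrix.one_apply]
        split_ifs <;> rfl
    have h2 : ∀ᶠ i in (U : Filter I), ∀ a b : ι, (A' i * B' i) a b =
        (1 : Matrix ι ι (F i)) a b := by
      rw [Filter.eventually_all]
      intro a
      rw [Filter.eventually_all]
      exact h1 a
    filter_upwards [h2] with i hi
    apply Matrix.ext
    intro a b
    exact hi a b
  let g' : ∀ i, GL ι (F i) := fun i =>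
    if hi : A' i * B' i = 1 then ⟨A' i, B' i, hi, mul_eq_one_comm.1 hi⟩ else 1
  obtain ⟨x, hx⟩ := gl_lift F ι g'
  refine ⟨x, ?_⟩
  apply Units.ext
  apply Matrix.ext
  intro a b
  change π ((x : Matrix ι ι (∀ i, F i)) a b) = (g : Matrix ι ι K) a b
  rw [← hA, h.eq_iff']
  filter_upwards [hAB] with i h1
  have h3 : (x : Matrix ι ι (∀ i, F i)) a b i = ((g' i : GL ι (F i)) : Matrix ι ι (F i)) a b := by
    rw [← hx i]
    rfl
  have h4 : g' i = ⟨A' i, B' i, h1, mul_eq_one_comm.1 h1⟩ := dif_pos h1
  rw [h3, h4]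
  rfl

theorem IsUltra.ultraGroup_pair (h : IsUltra U F K π) (ι : Type) [Fintype ι] [DecidableEq ι] :
    UltraGroup U (GL ι (∀ i, F i) × GL ι (∀ i, F i)) (fun i => GL ι (F i) × GL ι (F i))
      (GL ι K × GL ι K)
      (fun i => (glMap ι (Pi.evalRingHom F i)).prodMap (glMap ι (Pi.evalRingHom F i)))
      ((glMap ι π).prodMap (glMap ι π)) := by
  have hg := h.ultraGroup_gl ι
  refine ⟨?_, ?_, ?_⟩
  · intro g
    obtain ⟨x, hx⟩ := hg.lift fun i => (g i).1
    obtain ⟨y, hy⟩ := hg.lift fun i => (g i).2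
    exact ⟨(x, y), fun i => Prod.ext (hx i) (hy i)⟩
  · rintro ⟨a, b⟩
    obtain ⟨x, rfl⟩ := hg.surj a
    obtain ⟨y, rfl⟩ := hg.surj b
    exact ⟨(x, y), rfl⟩
  · rintro ⟨x, y⟩ ⟨x', y'⟩
    have h1 := hg.eq_iff x x'
    have h2 := hg.eq_iff y y'
    have h3 : ((glMap ι π).prodMap (glMap ι π)) (x, y) = ((glMap ι π).prodMap (glMap ι π)) (x', y') ↔
        glMap ι π x = glMap ι π x' ∧ glMap ι π y = glMap ι π y' := Prod.mk_inj
    rw [h3, h1, h2, ← Filter.eventually_and]
    exact Filter.eventually_congr (Filter.Eventually.of_forall fun i => Prod.mk_inj.symm)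

open Classical in
/-- the indicator function of `J`, an idempotent of the product ring -/
noncomputable def ind (F : I → Type) [∀ i, Field (F i)] (J : Set I) : ∀ i, F i :=
  fun i => if i ∈ J then 1 else 0

theorem ind_idem (F : I → Type) [∀ i, Field (F i)] (J : Set I) : ind F J * ind F J = ind F J := by
  classical
  funext i
  by_cases h : i ∈ J <;> simp [ind, h]

theorem exists_cut_eq_zero (h : IsUltra U F K π) (c : Chain (GL ι (∀ i, F i)) n)
    (hc : push n (glMap ι π) c = 0) :
    ∃ J ∈ U, push n (cut ι (ind F J) (ind_idem F J)) c = 0 := by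
  classical
  refine ⟨{i | ∀ s ∈ c.support, ∀ t ∈ c.support, (∀ j, glMap ι π (s j) = glMap ι π (t j)) →
    ∀ j, glMap ι (Pi.evalRingHom F i) (s j) = glMap ι (Pi.evalRingHom F i) (t j)}, ?_, ?_⟩
  · have h1 : ∀ᶠ i in (U : Filter I), ∀ s ∈ c.support, ∀ t ∈ c.support,
        (∀ j, glMap ι π (s j) = glMap ι π (t j)) →
        ∀ j, glMap ι (Pi.evalRingHom F i) (s j) = glMap ι (Pi.evalRingHom F i) (t j) := by
      rw [Filter.eventually_all_finset]
      intro s _
      rw [Filter.eventually_all_finset]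
      intro t _
      by_cases hst : ∀ j, glMap ι π (s j) = glMap ι π (t j)
      · have h2 : ∀ᶠ i in (U : Filter I), ∀ j,
            glMap ι (Pi.evalRingHom F i) (s j) = glMap ι (Pi.evalRingHom F i) (t j) := by
          rw [Filter.eventually_all]
          intro j
          exact (gl_eq_iff h ι _ _).1 (hst j)
        filter_upwards [h2] with i hi _
        exact hi
      · filter_upwards with i hi
        exact absurd hi hst
    exact h1
  · rw [push_apply]
    refine mapDomain_eq_zero_of_factor c (fun g i => glMap ι π (g i)) _ ?_ hc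
    intro s hs t ht hst
    have hst' : ∀ j, glMap ι π (s j) = glMap ι π (t j) := fun j => congrFun hst j
    funext j
    apply Units.ext
    apply Matrix.ext
    intro a b
    funext i
    change ind F _ i * ((s j : Matrix ι ι (∀ i, F i)) a b i) +
        ((1 - ind F _ * 1) • (1 : Matrix ι ι (∀ i, F i))) a b i =
      ind F _ i * ((t j : Matrix ι ι (∀ i, F i)) a b i) +
        ((1 - ind F _ * 1) • (1 : Matrix ι ι (∀ i, F i))) a b i
    congr 1
    by_cases hi : i ∈ {i | ∀ s ∈ c.support, ∀ t ∈ c.support,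
        (∀ j, glMap ι π (s j) = glMap ι π (t j)) →
        ∀ j, glMap ι (Pi.evalRingHom F i) (s j) = glMap ι (Pi.evalRingHom F i) (t j)}
    · have h1 := hi s hs t ht hst' j
      have h2 : (s j : Matrix ι ι (∀ i, F i)) a b i = (t j : Matrix ι ι (∀ i, F i)) a b i :=
        congrArg (fun u : GL ι (F i) => (u : Matrix ι ι (F i)) a b) h1
      rw [h2]
    · simp only [ind, if_neg hi, zero_mul]

end Pool.Agent.KBS
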